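import Pool.Agent.Helper29.BA.Defs

/-!
# Consequences of the closure properties
-/

set_option autoImplicit false

namespace Pool.Agent.Helper29.BA

namespace ClosedClass

variable {C : ∀ (G : Type) [Group G], Prop} (hC : ClosedClass C)

include hC

theorem inj {G H : Type} [Group G] [Group H] (φ : G →* H) (hφ : Function.Injective φ)
    (h : C H) : C G :=
  hC.iso _ _ (MonoidHom.ofInjective hφ).symm (hC.subgroup _ φ.range h)

theorem sub {G : Type} [Group G] {S T : Subgroup G} (hST : S ≤ T) (h : C T) : C S :=
  hC.inj (Subgroup.inclusion hST) (Subgroup.inclusion_injective hST) h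

/-- Groups all of whose finitely generated subgroups are in the class. -/
theorem ofClosure {G : Type} [Group G]
    (h : ∀ s : Finset G, C (Subgroup.closure (s : Set G))) : C G := by
  classical
  refine hC.colimit (Finset G) (fun s => Subgroup.closure (s : Set G))
    (fun s t hst => Subgroup.inclusion (Subgroup.closure_mono (by exact_mod_cast hst)))
    (fun _ _ _ _ _ _ => rfl) G (fun s => (Subgroup.closure (s : Set G)).subtype)
    (fun _ _ _ _ => rfl) (fun x => ⟨{x}, ⟨x, Subgroup.subset_closure (by simp)⟩, rfl⟩)
    (fun s y hy => ⟨s, le_rfl, ?_⟩) h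
  have : y = 1 := Subtype.ext hy
  rw [this, map_one]

/-- Increasing unions of subgroups. -/
theorem ofUnion {G : Type} [Group G] (S : ℕ → Subgroup G) (hS : Monotone S)
    (hu : ∀ g, ∃ n, g ∈ S n) (h : ∀ n, C (S n)) : C G := by
  refine hC.colimit ℕ (fun n => S n) (fun m n hmn => Subgroup.inclusion (hS hmn))
    (fun _ _ _ _ _ _ => rfl) G (fun n => (S n).subtype) (fun _ _ _ _ => rfl)
    (fun x => ?_) (fun s y hy => ⟨s, le_rfl, ?_⟩) h
  · obtain ⟨n, hn⟩ := hu x
    exact ⟨n, ⟨x, hn⟩, rfl⟩
  · have : y = 1 := Subtype.ext hy
    rw [this, map_one]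

/-- Images of a group whose kernel is an increasing union of kernels. -/
theorem ofKer {F L : Type} [Group F] [Group L] (p : F →* L) (hp : Function.Surjective p)
    {Q : ℕ → Type} [∀ n, Group (Q n)] (q : ∀ n, F →* Q n)
    (hq : ∀ n, (q n).ker ≤ (q (n + 1)).ker) (hqp : ∀ n, (q n).ker ≤ p.ker)
    (hker : ∀ w, p w = 1 → ∃ n, q n w = 1) (h : ∀ n, C (Q n)) : C L := by
  have hmono : ∀ m n, m ≤ n → (q m).ker ≤ (q n).ker := fun m n hmn => by
    induction hmn with
    | refl => exact le_rfl
    | step _ ih => exact ih.trans (hq _)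
  refine hC.colimit ℕ (fun n => F ⧸ (q n).ker)
    (fun m n hmn => QuotientGroup.map _ _ (MonoidHom.id F) (hmono m n hmn)) ?_ L
    (fun n => QuotientGroup.lift (q n).ker p (hqp n)) ?_ ?_ ?_ ?_
  · intro i j k hij hjk x
    induction x using QuotientGroup.induction_on with
    | H x => rfl
  · intro i j hij x
    induction x using QuotientGroup.induction_on with
    | H x => rfl
  · intro x
    obtain ⟨w, rfl⟩ := hp x
    exact ⟨0, (w : F ⧸ (q 0).ker), rfl⟩
  · intro i y hy
    induction y using QuotientGroup.induction_on with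
    | H w =>
      obtain ⟨n, hn⟩ := hker w hy
      refine ⟨max i n, le_max_left _ _, ?_⟩
      change ((w : F) : F ⧸ (q (max i n)).ker) = 1
      rw [QuotientGroup.eq_one_iff]
      exact hmono n _ (le_max_right _ _) hn
  · intro n
    exact hC.inj (QuotientGroup.kerLift (q n)) (QuotientGroup.kerLift_injective (q n)) (h n)

/-- Finite powers. -/
theorem pow {F : Type} [Group F] (h : C F) (n : ℕ) : C (Fin n → F) := by
  induction n with
  | zero => exact hC.finite _ inferInstance
  | succ n ih =>
    have e : (Fin (n + 1) → F) ≃* F × (Fin n → F) :=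
      { toFun := fun f => (f 0, fun i => f i.succ)
        invFun := fun p => Fin.cons p.1 p.2
        left_inv := fun f => by
          funext i
          refine Fin.cases ?_ (fun j => ?_) i
          · rfl
          · rfl
        right_inv := fun p => rfl
        map_mul' := fun f g => rfl }
    exact hC.iso _ _ e.symm (hC.prod _ _ h ih)

theorem pi {F Y : Type} [Group F] [Finite Y] (h : C F) : C (Y → F) := by
  obtain ⟨n, ⟨e⟩⟩ := Finite.exists_equiv_fin Y
  refine hC.inj (H := Fin n → F)
    { toFun := fun f i => f (e.symm i)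
      map_one' := rfl
      map_mul' := fun _ _ => rfl } ?_ (hC.pow h n)
  intro f g hfg
  funext y
  have := congrFun hfg (e y)
  simpa using this

/-- Powers of a finite group are locally finite. -/
theorem pow_finite {K ι : Type} [Group K] [Finite K] : C (ι → K) := by
  classical
  refine hC.ofClosure fun s => ?_
  -- the functions which factor through `i ↦ (x i)` for `x` in `s`
  let τ : ι → (s → K) := fun i x => x.1 i
  let φ : ((s → K) → K) →* (ι → K) :=
    { toFun := fun u i => u (τ i)
      map_one' := rfl
      map_mul' := fun _ _ => rfl }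
  have hle : Subgroup.closure (s : Set (ι → K)) ≤ φ.range := by
    rw [Subgroup.closure_le]
    intro x hx
    exact ⟨fun y => y ⟨x, hx⟩, rfl⟩
  refine hC.sub hle ?_
  have : Finite φ.range := Finite.of_surjective _ φ.rangeRestrict_surjective
  exact hC.finite _ this

end ClosedClass

end Pool.Agent.Helper29.BA
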