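import Pool.Agent.Helper29.BA.Closure

/-!
# Free groups and wreath products
-/

set_option autoImplicit false

namespace Pool.Agent.Helper29.BA

namespace ClosedClass

variable {C : ∀ (G : Type) [Group G], Prop} (hC : ClosedClass C)

include hC

theorem freeGroup_fin (n : ℕ) : C (FreeGroup (Fin n)) := by
  induction n with
  | zero => exact hC.finite _ inferInstance
  | succ n ih =>
    let a : FreeGroup (Fin (n + 1)) →* Monoid.Coprod (FreeGroup (Fin n)) (FreeGroup Unit) :=
      FreeGroup.lift (Fin.cases (Monoid.Coprod.inr (FreeGroup.of ()))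
        (fun i => Monoid.Coprod.inl (FreeGroup.of i)))
    let b : Monoid.Coprod (FreeGroup (Fin n)) (FreeGroup Unit) →* FreeGroup (Fin (n + 1)) :=
      Monoid.Coprod.lift (FreeGroup.map Fin.succ) (FreeGroup.map (fun _ => 0))
    have hba : b.comp a = MonoidHom.id _ := by
      ext i
      refine Fin.cases ?_ (fun j => ?_) i
      · simp [a, b]
      · simp [a, b]
    refine hC.inj a (Function.LeftInverse.injective (g := b) fun x => ?_)
      (hC.freeProd _ _ ih (hC.iso _ _ FreeGroup.mulEquivIntOfUnique.symm hC.int))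
    exact DFunLike.congr_fun hba x

theorem freeGroup_finite (α : Type) [Finite α] : C (FreeGroup α) := by
  obtain ⟨n, ⟨e⟩⟩ := Finite.exists_equiv_fin α
  exact hC.iso _ _ (FreeGroup.freeGroupCongr e).symm (hC.freeGroup_fin n)

theorem freeGroup (α : Type) : C (FreeGroup α) := by
  classical
  refine hC.colimit (Finset α) (fun t => FreeGroup t)
    (fun s t hst => FreeGroup.map fun x : s => (⟨x.1, Finset.mem_of_subset hst x.2⟩ : t)) ?_ (FreeGroup α)
    (fun t => FreeGroup.map Subtype.val) ?_ ?_ ?_ (fun t => hC.freeGroup_finite t)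
  · intro i j k hij hjk x
    rw [FreeGroup.map.comp]
    rfl
  · intro i j hij x
    rw [FreeGroup.map.comp]
    rfl
  · intro x
    induction x using FreeGroup.induction_on with
    | C1 => exact ⟨∅, 1, map_one _⟩
    | of x => exact ⟨{x}, FreeGroup.of ⟨x, by simp⟩, by simp⟩
    | inv_of x _ => exact ⟨{x}, (FreeGroup.of ⟨x, by simp⟩)⁻¹, by simp⟩
    | mul x y hx hy =>
      obtain ⟨s, u, rfl⟩ := hx
      obtain ⟨t, v, rfl⟩ := hy
      refine ⟨s ∪ t, FreeGroup.map (fun x : s => (⟨x.1, Finset.mem_union_left _ x.2⟩ : (s ∪ t : Finset α))) u *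
        FreeGroup.map (fun x : t => (⟨x.1, Finset.mem_union_right _ x.2⟩ : (s ∪ t : Finset α))) v, ?_⟩
      rw [map_mul, FreeGroup.map.comp, FreeGroup.map.comp]
      rfl
  · intro i y hy
    refine ⟨i, le_rfl, ?_⟩
    have : Function.Injective (FreeGroup.map (Subtype.val : i → α)) :=
      FreeGroup.map_injective Subtype.val_injective
    rw [this (hy.trans (map_one _).symm), map_one]

end ClosedClass

/-- The wreath product of `F` with the permutations of `Y`. -/
@[ext] structure Wr (Y F : Type) where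
  /-- the permutation -/
  p : Equiv.Perm Y
  /-- the sections -/
  s : Y → F

namespace Wr

variable {Y F F' : Type} [Group F] [Group F']

instance : Mul (Wr Y F) := ⟨fun a b => ⟨a.p * b.p, fun y => a.s (b.p y) * b.s y⟩⟩
instance : One (Wr Y F) := ⟨⟨1, fun _ => 1⟩⟩
instance : Inv (Wr Y F) := ⟨fun a => ⟨a.p⁻¹, fun y => (a.s (a.p⁻¹ y))⁻¹⟩⟩

@[simp] theorem mul_p (a b : Wr Y F) : (a * b).p = a.p * b.p := rfl
@[simp] theorem mul_s (a b : Wr Y F) (y : Y) : (a * b).s y = a.s (b.p y) * b.s y := rfl
@[simp] theorem one_p : (1 : Wr Y F).p = 1 := rfl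
@[simp] theorem one_s (y : Y) : (1 : Wr Y F).s y = 1 := rfl
@[simp] theorem inv_p (a : Wr Y F) : (a⁻¹).p = a.p⁻¹ := rfl
@[simp] theorem inv_s (a : Wr Y F) (y : Y) : (a⁻¹).s y = (a.s (a.p⁻¹ y))⁻¹ := rfl

instance : Group (Wr Y F) :=
  Group.ofLeftAxioms
    (fun a b c => by
      ext y
      · rfl
      · simp [mul_assoc])
    (fun a => by
      ext y
      · rfl
      · simp)
    (fun a => by
      ext y
      · simp
      · simp)

/-- The projection to the permutations. -/
def proj (Y F : Type) [Group F] : Wr Y F →* Equiv.Perm Y where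
  toFun := Wr.p
  map_one' := rfl
  map_mul' := fun _ _ => rfl

/-- Functoriality. -/
def map (f : F →* F') : Wr Y F →* Wr Y F' where
  toFun a := ⟨a.p, fun y => f (a.s y)⟩
  map_one' := by ext y <;> simp
  map_mul' := fun a b => by ext y <;> simp

@[simp] theorem map_p (f : F →* F') (a : Wr Y F) : (map f a).p = a.p := rfl
@[simp] theorem map_s (f : F →* F') (a : Wr Y F) (y : Y) : (map f a).s y = f (a.s y) := rfl

end Wr

theorem ClosedClass.wr {C : ∀ (G : Type) [Group G], Prop} (hC : ClosedClass C) {Y F : Type}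
    [Group F] [Finite Y] (h : C F) : C (Wr Y F) := by
  refine hC.finiteIndex _ (Wr.proj Y F).ker inferInstance ?_
  refine hC.inj (H := Y → F)
    { toFun := fun a y => a.1.s y
      map_one' := rfl
      map_mul' := fun a b => by
        funext y
        have hb : b.1.p = 1 := b.2
        change (a.1 * b.1).s y = a.1.s y * b.1.s y
        rw [Wr.mul_s, hb]
        rfl } ?_ (hC.pi h)
  intro a b hab
  have ha : a.1.p = 1 := a.2
  have hb : b.1.p = 1 := b.2
  apply Subtype.ext
  ext y
  · rw [ha, hb]
  · exact congrFun hab y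

end Pool.Agent.Helper29.BA
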