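import Pool.Agent.Helper29.BA.Wr

/-!
# Amalgamated products over locally finite subgroups
-/

set_option autoImplicit false

namespace Pool.Agent.Helper29.BA

open Monoid

/-- Free actions have equivariant functions to the group. -/
theorem exists_equivariant {L Y : Type} [Group L] (a : L →* Equiv.Perm Y)
    (hfree : ∀ l y, a l y = y → l = 1) : ∃ c : Y → L, ∀ l y, c (a l y) = l * c y := by
  let r : Setoid Y :=
    { r := fun y y' => ∃ l, a l y = y'
      iseqv :=
        { refl := fun y => ⟨1, by simp⟩
          symm := fun {y y'} ⟨l, hl⟩ => ⟨l⁻¹, by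
            rw [← hl, map_inv]
            exact (a l).symm_apply_apply y⟩
          trans := fun {y y' y''} ⟨l, hl⟩ ⟨l', hl'⟩ => ⟨l' * l, by
            rw [map_mul, Equiv.Perm.mul_apply, hl, hl']⟩ } }
  have h1 : ∀ y : Y, ∃ l, a l (Quotient.mk r y).out = y := fun y => Quotient.mk_out (s := r) y
  choose c hc using h1
  refine ⟨c, fun l y => ?_⟩
  have h2 : Quotient.mk r (a l y) = Quotient.mk r y :=
    (Quotient.sound (s := r) (show ∃ l', a l' y = a l y from ⟨l, rfl⟩)).symm
  have h3 := hc (a l y)
  rw [h2] at h3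
  have h4 : a (l * c y) (Quotient.mk r y).out = a l y := by
    rw [map_mul, Equiv.Perm.mul_apply, hc]
  have h5 : a ((l * c y)⁻¹ * c (a l y)) (Quotient.mk r y).out = (Quotient.mk r y).out := by
    rw [map_mul, Equiv.Perm.mul_apply, h3, ← h4, map_inv]
    exact (a (l * c y)).symm_apply_apply _
  have h6 := hfree _ _ h5
  exact (inv_mul_eq_one.mp h6).symm

section

variable {H B L : Type} [Group H] [Group B] [Group L] (iH : L →* H) (iB : L →* B)

/-- The relations `l = l` for `l` in `T`. -/
def rel (T : Set L) : Subgroup (Coprod H B) :=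
  Subgroup.normalClosure {w | ∃ l ∈ T, w = Coprod.inl (iH l) * (Coprod.inr (iB l))⁻¹}

instance (T : Set L) : (rel iH iB T).Normal := Subgroup.normalClosure_normal

theorem rel_mono {T T' : Set L} (h : T ⊆ T') : rel iH iB T ≤ rel iH iB T' :=
  Subgroup.normalClosure_mono fun _ ⟨l, hl, hw⟩ => ⟨l, h hl, hw⟩

theorem mk_inl_eq {T : Set L} {l : L} (hl : l ∈ T) :
    (QuotientGroup.mk (Coprod.inl (iH l)) : Coprod H B ⧸ rel iH iB T) =
      QuotientGroup.mk (Coprod.inr (iB l)) := by
  rw [← div_eq_one, ← QuotientGroup.mk_div, QuotientGroup.eq_one_iff, div_eq_mul_inv]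
  exact Subgroup.subset_normalClosure ⟨l, hl, rfl⟩

variable {C : ∀ (G : Type) [Group G], Prop}

/-- Amalgamated products over a subgroup which acts freely on a finite set on which the factors
act compatibly. -/
theorem ClosedClass.amalgam_finite (hC : ClosedClass C) (hH : C H) (hB : C B) (T : Subgroup L)
    {Y : Type} [Finite Y] [Nonempty Y] (aH : H →* Equiv.Perm Y) (aB : B →* Equiv.Perm Y)
    (hcomp : ∀ l, aH (iH l) = aB (iB l)) (hfree : ∀ l ∈ T, ∀ y, aH (iH l) y = y → l = 1) :
    C (Coprod H B ⧸ rel iH iB (T : Set L)) := by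
  obtain ⟨c, hc⟩ := exists_equivariant (aH.comp (iH.comp T.subtype))
    (fun l y h => Subtype.ext (hfree l.1 l.2 y h))
  have hc' : ∀ l : L, ∀ hl : l ∈ T, ∀ y, c (aH (iH l) y) = ⟨l, hl⟩ * c y :=
    fun l hl y => hc ⟨l, hl⟩ y
  -- the two homomorphisms
  let tH : H →* Wr Y (Coprod H B) :=
    { toFun := fun h => ⟨aH h, fun y => Coprod.inl ((iH (c (aH h y)).1)⁻¹ * h * iH (c y).1)⟩
      map_one' := by
        refine Wr.ext (map_one _) (funext fun y => ?_)
        simp
      map_mul' := fun a b => by
        refine Wr.ext (map_mul _ _ _) (funext fun y => ?_)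
        simp only [Wr.mul_s]
        rw [← map_mul]
        congr 1
        rw [map_mul, Equiv.Perm.mul_apply]
        group }
  let tB : B →* Wr Y (Coprod H B) :=
    { toFun := fun h => ⟨aB h, fun y => Coprod.inr ((iB (c (aB h y)).1)⁻¹ * h * iB (c y).1)⟩
      map_one' := by
        refine Wr.ext (map_one _) (funext fun y => ?_)
        simp
      map_mul' := fun a b => by
        refine Wr.ext (map_mul _ _ _) (funext fun y => ?_)
        simp only [Wr.mul_s]
        rw [← map_mul]
        congr 1
        rw [map_mul, Equiv.Perm.mul_apply]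
        group }
  let t : Coprod H B →* Wr Y (Coprod H B) := Coprod.lift tH tB
  have ht : ∀ l ∈ T, t (Coprod.inl (iH l)) = t (Coprod.inr (iB l)) := by
    intro l hl
    refine Wr.ext (hcomp l) (funext fun y => ?_)
    change Coprod.inl ((iH (c (aH (iH l) y)).1)⁻¹ * iH l * iH (c y).1) =
      Coprod.inr ((iB (c (aB (iB l) y)).1)⁻¹ * iB l * iB (c y).1)
    rw [← hcomp, hc' l hl]
    simp
  have hle : rel iH iB (T : Set L) ≤ t.ker := by
    refine Subgroup.normalClosure_le_normal ?_
    rintro w ⟨l, hl, rfl⟩
    change t _ = 1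
    rw [map_mul, map_inv, ht l hl, mul_inv_cancel]
  refine hC.inj (QuotientGroup.lift _ t hle) ((injective_iff_map_eq_one _).mpr fun q hq => ?_)
    (hC.wr (hC.freeProd _ _ hH hB))
  induction q using QuotientGroup.induction_on with
  | H w =>
    have key : ∀ w : Coprod H B, ∀ y,
        (QuotientGroup.mk ((t w).s y) : Coprod H B ⧸ rel iH iB (T : Set L)) =
          (QuotientGroup.mk (Coprod.inl (iH (c ((t w).p y)).1)))⁻¹ * QuotientGroup.mk w *
            QuotientGroup.mk (Coprod.inl (iH (c y).1)) := by
      intro w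
      induction w using Coprod.induction_on with
      | inl h =>
        intro y
        change (QuotientGroup.mk (Coprod.inl ((iH (c (aH h y)).1)⁻¹ * h * iH (c y).1)) :
          Coprod H B ⧸ rel iH iB (T : Set L)) = _
        rw [map_mul, map_mul, map_inv]
        rfl
      | inr h =>
        intro y
        change (QuotientGroup.mk (Coprod.inr ((iB (c (aB h y)).1)⁻¹ * h * iB (c y).1)) :
          Coprod H B ⧸ rel iH iB (T : Set L)) = _
        rw [map_mul, map_mul, map_inv, mk_inl_eq iH iB (c y).2, mk_inl_eq iH iB (c _).2]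
        rfl
      | mul a b ha hb =>
        intro y
        have e1 : (t (a * b)).s y = (t a).s ((t b).p y) * (t b).s y := by
          rw [map_mul]; rfl
        have e2 : (t (a * b)).p y = (t a).p ((t b).p y) := by
          rw [map_mul]; rfl
        rw [e1, e2, QuotientGroup.mk_mul, QuotientGroup.mk_mul, ha, hb]
        group
    have h1 : t w = 1 := hq
    obtain ⟨y⟩ := (inferInstance : Nonempty Y)
    have h2 := key w y
    rw [h1] at h2
    have h3 : ((1 : Wr Y (Coprod H B)).p y) = y := rfl
    have h4 : ((1 : Wr Y (Coprod H B)).s y) = 1 := rfl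
    rw [h3, h4] at h2
    have h5 : (QuotientGroup.mk w : Coprod H B ⧸ rel iH iB (T : Set L)) =
        QuotientGroup.mk (Coprod.inl (iH (c y).1)) * 1 *
          (QuotientGroup.mk (Coprod.inl (iH (c y).1)))⁻¹ := by
      rw [← QuotientGroup.mk_one, h2]
      group
    rw [h5]
    group

/-- Quotients by increasing unions of normal subgroups. -/
theorem ClosedClass.ofDirected (hC : ClosedClass C) {F I : Type} [Group F] [Preorder I]
    [IsDirectedOrder I] [Nonempty I] (N : I → Subgroup F) [∀ i, (N i).Normal] (M : Subgroup F)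
    [M.Normal] (hN : Monotone N) (hNM : ∀ i, N i ≤ M) (hM : ∀ w ∈ M, ∃ i, w ∈ N i)
    (h : ∀ i, C (F ⧸ N i)) : C (F ⧸ M) := by
  refine hC.colimit I (fun n => F ⧸ N n)
    (fun m n hmn => QuotientGroup.map _ _ (MonoidHom.id F) (hN hmn)) ?_ (F ⧸ M)
    (fun n => QuotientGroup.map _ _ (MonoidHom.id F) (hNM n)) ?_ ?_ ?_ h
  · intro i j k hij hjk x
    induction x using QuotientGroup.induction_on with
    | H x => rfl
  · intro i j hij x
    induction x using QuotientGroup.induction_on with
    | H x => rfl
  · intro x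
    induction x using QuotientGroup.induction_on with
    | H x => exact ⟨Classical.arbitrary I, (x : F ⧸ N _), rfl⟩
  · intro i y hy
    induction y using QuotientGroup.induction_on with
    | H w =>
      obtain ⟨j, hj⟩ := hM w ((QuotientGroup.eq_one_iff w).mp hy)
      obtain ⟨k, hik, hjk⟩ := exists_ge_ge i j
      refine ⟨k, hik, ?_⟩
      exact (QuotientGroup.eq_one_iff w).mpr (hN hjk hj)

/-- Amalgamated products over a locally finite subgroup whose finite subgroups act freely on
finite sets on which the factors act compatibly. -/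
theorem ClosedClass.amalgam (hC : ClosedClass C) (hH : C H) (hB : C B)
    (hY : ∀ s : Finset L, ∃ (Y : Type) (_ : Finite Y) (_ : Nonempty Y) (aH : H →* Equiv.Perm Y)
      (aB : B →* Equiv.Perm Y), (∀ l, aH (iH l) = aB (iB l)) ∧
        ∀ l ∈ Subgroup.closure (s : Set L), ∀ y, aH (iH l) y = y → l = 1) :
    C (Coprod H B ⧸ rel iH iB Set.univ) := by
  classical
  have hmono : Monotone fun s : Finset L =>
      rel iH iB ((Subgroup.closure (s : Set L) : Subgroup L) : Set L) := by
    intro s t hst
    refine rel_mono iH iB ?_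
    exact_mod_cast Subgroup.closure_mono (by exact_mod_cast hst)
  refine hC.ofDirected (I := Finset L)
    (fun s => rel iH iB ((Subgroup.closure (s : Set L) : Subgroup L) : Set L)) _ hmono
    (fun s => rel_mono iH iB (Set.subset_univ _)) (fun w hw => ?_) (fun s => ?_)
  · have hle : rel iH iB Set.univ ≤
        ⨆ s : Finset L, rel iH iB ((Subgroup.closure (s : Set L) : Subgroup L) : Set L) := by
      refine Subgroup.normalClosure_le_normal ?_
      rintro w ⟨l, -, rfl⟩
      refine Subgroup.mem_iSup_of_mem {l} (Subgroup.subset_normalClosure ⟨l, ?_, rfl⟩)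
      exact Subgroup.subset_closure (by simp)
    exact (Subgroup.mem_iSup_of_directed hmono.directed_le).mp (hle hw)
  · obtain ⟨Y, hY1, hY2, aH, aB, h1, h2⟩ := hY s
    exact hC.amalgam_finite iH iB hH hB (Subgroup.closure (s : Set L)) aH aB h1 h2

end

end Pool.Agent.Helper29.BA
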