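import Pool.Agent.Helper29.BA.Contract1

/-!
# Finite automata of linear activity growth
-/

set_option autoImplicit false

namespace Pool.Agent.Helper29.BA

open TreeAut

variable {X : Type}

/-- Not of finite depth. -/
def NF (k : TreeAut X) : Prop := ¬ ∃ j, Dep j k

/-- The vertices of level `n` with a section of infinite depth. -/
def lev (k : TreeAut X) (n : ℕ) : Set (List X) := {v | v.length = n ∧ NF (secw k v)}

theorem lev_finite [Finite X] (k : TreeAut X) (n : ℕ) : (lev k n).Finite :=
  (List.finite_length_eq X n).subset fun _ hv => hv.1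

theorem NF.exists_child [Finite X] {k : TreeAut X} (hk : NF k) : ∃ x, NF (sec k x) := by
  classical
  by_contra hcon
  have h1 : ∀ x, ∃ j, Dep j (sec k x) := fun x => by
    by_contra h
    exact hcon ⟨x, h⟩
  choose f hf using h1
  have := Fintype.ofFinite X
  exact hk ⟨Finset.univ.sup f + 1, fun x => (hf x).mono (Finset.le_sup (Finset.mem_univ x))⟩

theorem NF.of_sec {k : TreeAut X} {x : X} (h : NF (sec k x)) : NF k :=
  fun ⟨j, hj⟩ => h ⟨j, hj.sec x⟩

theorem NF.of_secw {k : TreeAut X} {v : List X} (h : NF (secw k v)) : NF k :=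
  fun ⟨j, hj⟩ => h ⟨j, hj.secw v⟩

theorem exists_desc [Finite X] {k : TreeAut X} (hk : NF k) (m : ℕ) :
    ∃ u : List X, u.length = m ∧ NF (secw k u) := by
  induction m generalizing k with
  | zero => exact ⟨[], rfl, hk⟩
  | succ m ih =>
    obtain ⟨x, hx⟩ := hk.exists_child
    obtain ⟨u, hu, hu'⟩ := ih hx
    exact ⟨x :: u, by simp [hu], hu'⟩

/-- Descendants of vertices of `lev`. -/
theorem lev_append {k : TreeAut X} {m n : ℕ} {v u : List X} (hv : v.length = n) :
    v ++ u ∈ lev k (n + m) ↔ u ∈ lev (secw k v) m := by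
  constructor
  · rintro ⟨h1, h2⟩
    refine ⟨?_, ?_⟩
    · rw [List.length_append, hv] at h1
      omega
    · rw [← secw_append]
      exact h2
  · rintro ⟨h1, h2⟩
    refine ⟨by rw [List.length_append, hv, h1], ?_⟩
    rw [secw_append]
    exact h2

theorem lev_take {k : TreeAut X} {m n : ℕ} {w : List X} (hw : w ∈ lev k (n + m)) :
    w.take n ∈ lev k n ∧ w.drop n ∈ lev (secw k (w.take n)) m := by
  have h1 : (w.take n).length = n := by
    rw [List.length_take, hw.1]
    omega
  have h2 : w.take n ++ w.drop n ∈ lev k (n + m) := by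
    rw [List.take_append_drop]
    exact hw
  refine ⟨⟨h1, ?_⟩, (lev_append h1).mp h2⟩
  have h3 := ((lev_append h1).mp h2).2
  exact h3.of_secw

/-- The number of the vertices of `lev` is nondecreasing. -/
theorem lev_mono [Finite X] (k : TreeAut X) (n m : ℕ) :
    (lev k n).ncard ≤ (lev k (n + m)).ncard := by
  classical
  have h1 : ∀ v ∈ lev k n, ∃ u, u ∈ lev (secw k v) m := fun v hv => by
    obtain ⟨u, hu, hu'⟩ := exists_desc hv.2 m
    exact ⟨u, hu, hu'⟩
  choose! f hf using h1
  refine Set.ncard_le_ncard_of_injOn (fun v => v ++ f v) ?_ ?_ (lev_finite _ _)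
  · intro v hv
    exact (lev_append hv.1).mpr (hf v hv)
  · intro v hv w hw hvw
    have h2 := congrArg (List.take n) hvw
    simpa [List.take_left' hv.1, List.take_left' hw.1] using h2

/-- Bounded numbers of vertices. -/
def BN (k : TreeAut X) : Prop := ∃ b, ∀ n, (lev k n).ncard ≤ b

/-- If all vertices of a level have at most one descendant on each level, the numbers are
bounded. -/
theorem bn_of_unique [Finite X] {k : TreeAut X} (n : ℕ)
    (h : ∀ v ∈ lev k n, ∀ m, ∀ u ∈ lev (secw k v) m, ∀ u' ∈ lev (secw k v) m, u = u') : BN k := by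
  refine ⟨(lev k n).ncard, fun l => ?_⟩
  rcases le_total l n with hl | hl
  · obtain ⟨m, rfl⟩ := Nat.exists_eq_add_of_le hl
    exact lev_mono k l m
  · obtain ⟨m, rfl⟩ := Nat.exists_eq_add_of_le hl
    refine Set.ncard_le_ncard_of_injOn (fun w => w.take n) (fun w hw => (lev_take hw).1) ?_
      (lev_finite _ _)
    intro w hw w' hw' hww
    have h1 := (lev_take hw).2
    have h2 := (lev_take hw').2
    have hww' : w.take n = w'.take n := hww
    rw [← hww'] at h2
    have h3 := h _ (lev_take hw).1 m _ h1 _ h2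
    rw [← List.take_append_drop n w, ← List.take_append_drop n w', hww', h3]

/-- If a state in a set of at most `N` states closed under sections has at most one descendant
on the level `N`, it has at most one descendant on every level. -/
theorem unique_of_unique [Finite X] {Q : Set (TreeAut X)} (hQ : Q.Finite)
    (hsec : ∀ k ∈ Q, ∀ x, sec k x ∈ Q) {k : TreeAut X} (hk : k ∈ Q) (hnf : NF k)
    (h : ∀ u ∈ lev k Q.ncard, ∀ u' ∈ lev k Q.ncard, u = u') :
    ∀ m, ∀ u ∈ lev k m, ∀ u' ∈ lev k m, u = u' := by
  classical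
  -- the next state
  have hnx : ∀ k : {k : TreeAut X // k ∈ Q ∧ NF k}, ∃ x, NF (sec k.1 x) :=
    fun k => k.2.2.exists_child
  choose nx hx using hnx
  let st : {k : TreeAut X // k ∈ Q ∧ NF k} → {k : TreeAut X // k ∈ Q ∧ NF k} :=
    fun k => ⟨sec k.1 (nx k), hsec _ k.2.1 _, hx k⟩
  let p : ℕ → {k : TreeAut X // k ∈ Q ∧ NF k} := fun i => st^[i] ⟨k, hk, hnf⟩
  have hp : ∀ i, p (i + 1) = st (p i) := fun i => Function.iterate_succ_apply' _ _ _
  -- the path
  have hpath : ∀ i, ∃ u : List X, u.length = i ∧ secw k u = (p i).1 := by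
    intro i
    induction i with
    | zero => exact ⟨[], rfl, rfl⟩
    | succ i ih =>
      obtain ⟨u, hu, hu'⟩ := ih
      refine ⟨u ++ [nx (p i)], by simp [hu], ?_⟩
      rw [secw_append, hu', hp]
      rfl
  -- uniqueness of the children of the first states
  have huniq : ∀ i < Q.ncard, ∀ x, NF (sec (p i).1 x) → x = nx (p i) := by
    intro i hi x hnx
    obtain ⟨u, hu, hu'⟩ := hpath i
    obtain ⟨r, hr⟩ := Nat.exists_eq_add_of_lt hi
    have h1 : ∀ y, NF (sec (p i).1 y) → ∃ t : List X, u ++ ([y] ++ t) ∈ lev k Q.ncard := by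
      intro y hy
      obtain ⟨t, ht, ht'⟩ := exists_desc hy r
      refine ⟨t, ?_, ?_⟩
      · simp only [List.length_append, List.length_cons, List.length_nil]
        omega
      · rw [secw_append, hu']
        exact ht'
    obtain ⟨t, ht⟩ := h1 x hnx
    obtain ⟨t', ht'⟩ := h1 (nx (p i)) (hx (p i))
    have h2 := List.append_cancel_left (h _ ht _ ht')
    exact (List.cons.inj h2).1
  -- pigeonhole
  have hcard : ∃ i j, i < j ∧ j ≤ Q.ncard ∧ p i = p j := by
    have h1 : ∃ i ∈ Finset.range (Q.ncard + 1), ∃ j ∈ Finset.range (Q.ncard + 1), i ≠ j ∧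
        (p i).1 = (p j).1 := by
      refine Finset.exists_ne_map_eq_of_card_lt_of_maps_to (t := hQ.toFinset) ?_ ?_
      · rw [Finset.card_range, ← Set.ncard_eq_toFinset_card Q hQ]
        omega
      · intro i _
        simpa using (p i).2.1
    obtain ⟨i, hi, j, hj, hij, h2⟩ := h1
    rw [Finset.mem_range] at hi hj
    rcases lt_or_gt_of_ne hij with h3 | h3
    · exact ⟨i, j, h3, by omega, Subtype.ext h2⟩
    · exact ⟨j, i, h3, by omega, Subtype.ext h2.symm⟩
  obtain ⟨i, j, hij, hj, hpij⟩ := hcard
  have hshift : ∀ t, p (i + t) = p (j + t) := by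
    intro t
    induction t with
    | zero => exact hpij
    | succ t ih => rw [← add_assoc, ← add_assoc, hp, hp, ih]
  have hall : ∀ t, ∀ x, NF (sec (p t).1 x) → x = nx (p t) := by
    intro t
    induction t using Nat.strong_induction_on with
    | _ t ih =>
      by_cases ht : t < Q.ncard
      · exact huniq t ht
      · have h1 : p t = p (i + (t - j)) := by
          rw [hshift]
          congr 1
          omega
        rw [h1]
        exact ih _ (by omega)
  -- conclusion
  have hfin : ∀ m t, ∀ u ∈ lev (p t).1 m, ∀ u' ∈ lev (p t).1 m, u = u' := by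
    intro m
    induction m with
    | zero =>
      intro t u hu u' hu'
      rw [List.length_eq_zero_iff.mp hu.1, List.length_eq_zero_iff.mp hu'.1]
    | succ m ih =>
      intro t u hu u' hu'
      obtain ⟨hu1, hu2⟩ := hu
      obtain ⟨hu1', hu2'⟩ := hu'
      cases u with
      | nil => simp at hu1
      | cons x u =>
        cases u' with
        | nil => simp at hu1'
        | cons x' u' =>
          have e1 : x = nx (p t) := hall t x (NF.of_secw (v := u) hu2)
          have e2 : x' = nx (p t) := hall t x' (NF.of_secw (v := u') hu2')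
          subst e1
          subst e2
          have h3 : sec (p t).1 (nx (p t)) = (p (t + 1)).1 := by rw [hp]
          have h4 := ih (t + 1) u ⟨by simpa using hu1, by rw [← h3]; exact hu2⟩ u'
            ⟨by simpa using hu1', by rw [← h3]; exact hu2'⟩
          rw [h4]
  exact fun m => hfin m 0

/-- Linear lower bound for automata with unbounded numbers. -/
theorem le_lev [Finite X] {Q : Set (TreeAut X)} (hQ : Q.Finite)
    (hsec : ∀ k ∈ Q, ∀ x, sec k x ∈ Q) {k : TreeAut X} (hk : k ∈ Q) (hb : ¬ BN k) (j : ℕ) :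
    j ≤ (lev k (j * Q.ncard)).ncard := by
  classical
  have hsecw : ∀ v : List X, ∀ k ∈ Q, secw k v ∈ Q := by
    intro v
    induction v with
    | nil => intro k hk; exact hk
    | cons x v ih => intro k hk; exact ih _ (hsec k hk x)
  induction j with
  | zero => exact Nat.zero_le _
  | succ j ih =>
    set n := j * Q.ncard with hn
    have h1 : (j + 1) * Q.ncard = n + Q.ncard := by rw [hn]; ring
    rw [h1]
    -- some vertex has two descendants
    have h2 : ∃ v ∈ lev k n, ∃ u ∈ lev (secw k v) Q.ncard, ∃ u' ∈ lev (secw k v) Q.ncard,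
        u ≠ u' := by
      by_contra hcon
      push Not at hcon
      refine hb (bn_of_unique n fun v hv => ?_)
      exact unique_of_unique hQ hsec (hsecw v k hk) hv.2 fun u hu u' hu' => hcon v hv u hu u' hu'
    obtain ⟨v, hv, u, hu, u', hu', huu⟩ := h2
    have h3 : ∀ w ∈ lev k n, ∃ t, t ∈ lev (secw k w) Q.ncard := fun w hw => by
      obtain ⟨t, ht, ht'⟩ := exists_desc hw.2 Q.ncard
      exact ⟨t, ht, ht'⟩
    choose! f hf using h3
    let f' : List X → List X := fun w => w ++ if w = v then u else f w
    have hle : (lev k n).ncard ≤ (lev k (n + Q.ncard) \ {v ++ u'}).ncard := by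
      refine Set.ncard_le_ncard_of_injOn f' ?_ ?_ ((lev_finite _ _).subset Set.sdiff_subset)
      · intro w hw
        refine ⟨(lev_append hw.1).mpr ?_, fun h => ?_⟩
        · split_ifs with hwv
          · rw [hwv]; exact hu
          · exact hf w hw
        · have h4 : w ++ (if w = v then u else f w) = v ++ u' := h
          have h5 := List.append_inj h4 (hw.1.trans hv.1.symm)
          rw [if_pos h5.1] at h5
          exact huu h5.2
      · intro w hw w' hw' hww
        exact (List.append_inj (hww : w ++ _ = w' ++ _) (hw.1.trans hw'.1.symm)).1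
    have hlt : (lev k (n + Q.ncard) \ {v ++ u'}).ncard < (lev k (n + Q.ncard)).ncard :=
      Set.ncard_sdiff_singleton_lt_of_mem ((lev_append hv.1).mpr hu') (lev_finite _ _)
    omega

theorem BN.of_sec [Finite X] {k : TreeAut X} (h : ∀ x, BN (sec k x)) : BN k := by
  classical
  have := Fintype.ofFinite X
  choose b hb using h
  refine ⟨1 + ∑ x, b x, fun n => ?_⟩
  cases n with
  | zero =>
    have h1 : lev k 0 ⊆ {[]} := fun v hv => List.length_eq_zero_iff.mp hv.1
    have h2 := Set.ncard_le_ncard h1
    rw [Set.ncard_singleton] at h2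
    omega
  | succ n =>
    have h1 : lev k (n + 1) ⊆ ⋃ x ∈ (Finset.univ : Finset X),
        (fun u => x :: u) '' (lev (sec k x) n) := by
      rintro v ⟨hv1, hv2⟩
      cases v with
      | nil => simp at hv1
      | cons x v =>
        simp only [Finset.mem_univ, Set.iUnion_true, Set.mem_iUnion]
        exact ⟨x, v, ⟨by simpa using hv1, hv2⟩, rfl⟩
    have hfin : (⋃ x ∈ (Finset.univ : Finset X),
        (fun u => x :: u) '' (lev (sec k x) n)).Finite :=
      Set.Finite.biUnion (Finset.finite_toSet _) fun x _ => (lev_finite _ _).image _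
    have h2 := Set.ncard_le_ncard h1 hfin
    have h3 := Finset.set_ncard_biUnion_le (Finset.univ : Finset X)
      (fun x => (fun u => x :: u) '' (lev (sec k x) n))
    have h4 : ∑ x, ((fun u => x :: u) '' (lev (sec k x) n)).ncard ≤ ∑ x, b x :=
      Finset.sum_le_sum fun x _ => (Set.ncard_image_le (lev_finite _ _)).trans (hb x n)
    omega

theorem BN.sec [Finite X] {k : TreeAut X} (h : BN k) (x : X) : BN (sec k x) := by
  obtain ⟨b, hb⟩ := h
  refine ⟨b, fun n => le_trans ?_ (hb (n + 1))⟩
  refine Set.ncard_le_ncard_of_injOn (fun u => x :: u) ?_ ?_ (lev_finite _ _)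
  · rintro u ⟨hu1, hu2⟩
    exact ⟨by simp [hu1], hu2⟩
  · intro u _ u' _ h
    exact (List.cons.inj h).2

end Pool.Agent.Helper29.BA
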