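import Pool.Agent.Helper29.BA.Contract

/-!
# Bounded automorphisms lie in the image of the cover
-/

set_option autoImplicit false

namespace Pool.Agent.Helper29.BA

open TreeAut

variable {X : Type}

/-! ### Directed elements -/

/-- Iterated sections along a ray. -/
def itr : (ℕ → X) → ℕ → TreeAut X → TreeAut X
  | _, 0, g => g
  | ξ, n + 1, g => itr (sh ξ) n (sec g (ξ 0))

/-- `g` is directed along the ray `ξ`: all sections off the ray have depth at most `m`. -/
def Dir (ξ : ℕ → X) (m : ℕ) (g : TreeAut X) : Prop :=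
  ∀ n z, z ≠ ξ n → Dep m (sec (itr ξ n g) z)

theorem Dir.shift {ξ : ℕ → X} {m : ℕ} {g : TreeAut X} (h : Dir ξ m g) :
    Dir (sh ξ) m (sec g (ξ 0)) := fun n => h (n + 1)

/-- The image of a ray. -/
def img (g : TreeAut X) (ξ : ℕ → X) : ℕ → X := fun n => rt (itr ξ n g) (ξ n)

theorem sh_img (g : TreeAut X) (ξ : ℕ → X) : sh (img g ξ) = img (sec g (ξ 0)) (sh ξ) := rfl

section

variable [DecidableEq X] (o : X)

theorem sec_hr_inv (ξ : ℕ → X) (x : X) :
    sec (hr o ξ)⁻¹ x = if x = ξ 0 then (hr o (sh ξ))⁻¹ else 1 := by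
  rw [sec_inv, rt_hr_inv, sec_hr]
  by_cases h : x = ξ 0
  · rw [if_pos ((swap_eq_iff' o _ _).mpr h), if_pos h]
  · rw [if_neg fun h' => h ((swap_eq_iff' o _ _).mp h'), if_neg h, inv_one]

/-- The element attached to a directed automorphism which fixes the constant ray. -/
def bb (g : TreeAut X) (ξ : ℕ → X) : TreeAut X := (hr o (img g ξ))⁻¹ * g * hr o ξ

theorem rt_bb (g : TreeAut X) (ξ : ℕ → X) : rt (bb o g ξ) o = o := by
  rw [bb, rt_mul, rt_mul, rt_hr, Equiv.swap_apply_left, rt_hr_inv]
  exact Equiv.swap_apply_right _ _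

theorem sec_bb (g : TreeAut X) (ξ : ℕ → X) :
    sec (bb o g ξ) o = bb o (sec g (ξ 0)) (sh ξ) := by
  have h1 : rt (hr o ξ) o = ξ 0 := by rw [rt_hr, Equiv.swap_apply_left]
  have h2 : rt g (ξ 0) = img g ξ 0 := rfl
  have h3 : sec (bb o g ξ) o = sec (hr o (img g ξ))⁻¹ (rt g (rt (hr o ξ) o)) *
      sec g (rt (hr o ξ) o) * sec (hr o ξ) o := by
    rw [show bb o g ξ = (hr o (img g ξ))⁻¹ * g * hr o ξ from rfl, sec_mul, sec_mul]
  rw [h3, h1, sec_hr_inv, h2, if_pos rfl, sec_hr, if_pos rfl, sh_img]
  rfl

theorem sec_bb_ne {g : TreeAut X} {ξ : ℕ → X} {m : ℕ} (hg : Dir ξ m g) {z : X} (hz : z ≠ o) :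
    Dep m (sec (bb o g ξ) z) := by
  have h1 : rt (hr o ξ) z ≠ ξ 0 := fun h => hz (by
    rw [rt_hr] at h
    exact (swap_eq_iff o _ _).mp h)
  have h2 : rt g (rt (hr o ξ) z) ≠ img g ξ 0 := fun h => h1 (rt_injective g h)
  rw [bb, sec_mul, sec_mul, sec_hr_inv, if_neg h2, sec_hr, if_neg hz, one_mul, mul_one]
  exact hg 0 _ h1

theorem inB_bb {m : ℕ} : ∀ (n : ℕ) {g : TreeAut X} {ξ : ℕ → X}, Dir ξ m g →
    rt (itn o n (bb o g ξ)) o = o ∧ ∀ z, z ≠ o → Dep m (sec (itn o n (bb o g ξ)) z)
  | 0, g, ξ, h => ⟨rt_bb o g ξ, fun z hz => sec_bb_ne o h hz⟩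
  | n + 1, g, ξ, h => by
    change rt (itn o n (sec (bb o g ξ) o)) o = o ∧
      ∀ z, z ≠ o → Dep m (sec (itn o n (sec (bb o g ξ) o)) z)
    rw [sec_bb]
    exact inB_bb n h.shift

theorem Dir.mem_range {ξ : ℕ → X} {m : ℕ} {g : TreeAut X} (h : Dir ξ m g) :
    g ∈ (pr o).range := by
  refine ⟨nd o (img g ξ) ⟨bb o g ξ, m, fun n => inB_bb o n h⟩ ξ, ?_⟩
  rw [nd, map_mul, map_mul, map_inv, pr_iR, pr_iR, pr_iB]
  change hr o (img g ξ) * ((hr o (img g ξ))⁻¹ * g * hr o ξ) * (hr o ξ)⁻¹ = g
  group

theorem Dep.mem_range {m : ℕ} {g : TreeAut X} (h : Dep m g) : g ∈ (pr o).range :=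
  ⟨iF o ⟨g, m, h⟩, rfl⟩

/-! ### Elements supported below a letter -/

/-- The automorphism acting as `g` below the letter `x` and trivially elsewhere. -/
def del (x : X) : TreeAut X →* TreeAut X where
  toFun g := mk 1 fun y => if y = x then g else 1
  map_one' := by
    refine ext_wr (fun y => ?_) (fun y => ?_)
    · rw [rt_mk, rt_one]; rfl
    · rw [sec_mk, ite_self, sec_one]
  map_mul' g h := by
    refine ext_wr (fun y => ?_) (fun y => ?_)
    · rw [rt_mul, rt_mk, rt_mk, rt_mk]; rfl
    · rw [sec_mul, sec_mk, sec_mk, sec_mk, rt_mk]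
      change _ = (if y = x then g else 1) * _
      split_ifs
      · rfl
      · rw [mul_one]

theorem rt_del (x : X) (g : TreeAut X) (y : X) : rt (del x g) y = y := rt_mk _ _ _

theorem sec_del (x : X) (g : TreeAut X) (y : X) : sec (del x g) y = if y = x then g else 1 :=
  sec_mk _ _ _

/-- The ray with a letter put in front. -/
def cons (x : X) (ξ : ℕ → X) : ℕ → X
  | 0 => x
  | n + 1 => ξ n

theorem Dir.del {ξ : ℕ → X} {m : ℕ} {g : TreeAut X} (h : Dir ξ m g) (x : X) :
    Dir (cons x ξ) m (del x g) := by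
  intro n z hz
  cases n with
  | zero =>
    have hz' : z ≠ x := hz
    change Dep m (sec (BA.del x g) z)
    rw [sec_del, if_neg hz']
    exact dep_one m
  | succ n =>
    change Dep m (sec (itr ξ n (sec (BA.del x g) x)) z)
    rw [sec_del, if_pos rfl]
    exact h n z hz

omit [DecidableEq X] in
theorem InB.dir {m : ℕ} {b : TreeAut X} (hb : InB o m b) : Dir (cst o) m b := by
  have h : ∀ n (b : TreeAut X), itr (cst o) n b = itn o n b := by
    intro n
    induction n with
    | zero => intro b; rfl
    | succ n ih => intro b; exact ih _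
  intro n z hz
  rw [h]
  exact (hb n).2 z hz

theorem dir_hr : ∀ (n : ℕ) (ξ : ℕ → X) (z : X), z ≠ o →
    Dep 0 (sec (itr (cst o) n (hr o ξ)) z)
  | 0, ξ, z, hz => by
    change sec (hr o ξ) z = 1
    rw [sec_hr, if_neg hz]
  | n + 1, ξ, z, hz => by
    change Dep 0 (sec (itr (cst o) n (sec (hr o ξ) o)) z)
    rw [sec_hr, if_pos rfl]
    exact dir_hr n (sh ξ) z hz

theorem del_mem_range (x : X) (w : Cov o) : del x (pr o w) ∈ (pr o).range := by
  induction w using Monoid.Coprod.induction_on with
  | inl f =>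
    obtain ⟨m, hm⟩ := f.2
    refine Dep.mem_range o (m := m + 1) fun y => ?_
    change Dep m (sec (del x f.1) y)
    rw [sec_del]
    split_ifs
    · exact hm
    · exact dep_one m
  | inr u =>
    induction u using Monoid.Coprod.induction_on with
    | inl b =>
      obtain ⟨m, hm⟩ := b.2
      exact ((InB.dir o hm).del x).mem_range o
    | inr r =>
      induction r using FreeGroup.induction_on with
      | C1 => rw [map_one, map_one, map_one, map_one]; exact one_mem _
      | of ξ =>
        have h1 : pr o (Monoid.Coprod.inr (Monoid.Coprod.inr (FreeGroup.of ξ))) = hr o ξ.1 := by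
          rw [← pr_iR, iR, dif_neg ξ.2]
        have h2 : Dir (cst o) 0 (hr o ξ.1) := fun n z hz => dir_hr o n ξ.1 z hz
        rw [h1]
        exact (h2.del x).mem_range o
      | inv_of ξ ih => rw [map_inv, map_inv, map_inv, map_inv]; exact inv_mem ih
      | mul a b ha hb => rw [map_mul, map_mul, map_mul, map_mul]; exact mul_mem ha hb
    | mul a b ha hb => rw [map_mul, map_mul, map_mul]; exact mul_mem ha hb
  | mul a b ha hb => rw [map_mul, map_mul]; exact mul_mem ha hb

theorem mem_range_of_sec_aux (T : Finset X) : ∀ g : TreeAut X, (∀ x, sec g x ∈ (pr o).range) →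
    (∀ x, x ∉ T → sec g x = 1) → g ∈ (pr o).range := by
  induction T using Finset.induction_on with
  | empty =>
    intro g _ h
    exact Dep.mem_range o (m := 1) fun x => h x (by simp)
  | insert a T ha ih =>
    intro g hg h
    have h1 : g * (del a (sec g a))⁻¹ ∈ (pr o).range := by
      have hr1 : ∀ x, rt (del a (sec g a))⁻¹ x = x := fun x => rt_inv_of_fix (rt_del _ _ _)
      have hs : ∀ x, sec (g * (del a (sec g a))⁻¹) x = if x = a then 1 else sec g x := by
        intro x
        rw [sec_mul, hr1, sec_inv, hr1, sec_del]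
        split_ifs with hx
        · rw [hx, mul_inv_cancel]
        · rw [inv_one, mul_one]
      refine ih _ (fun x => ?_) (fun x hx => ?_)
      · rw [hs]
        split_ifs
        · exact one_mem _
        · exact hg x
      · rw [hs]
        split_ifs with hxa
        · rfl
        · exact h x (by simp [hxa, hx])
    obtain ⟨w, hw⟩ := hg a
    have h2 : del a (sec g a) ∈ (pr o).range := by
      rw [← hw]
      exact del_mem_range o a w
    have := mul_mem h1 h2
    rwa [inv_mul_cancel_right] at this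

theorem mem_range_of_sec [Finite X] {g : TreeAut X} (h : ∀ x, sec g x ∈ (pr o).range) :
    g ∈ (pr o).range := by
  have := Fintype.ofFinite X
  exact mem_range_of_sec_aux o Finset.univ g h fun x hx => absurd (Finset.mem_univ x) hx

theorem mem_range_of_secw [Finite X] (n : ℕ) : ∀ {g : TreeAut X},
    (∀ v : List X, v.length = n → secw g v ∈ (pr o).range) → g ∈ (pr o).range := by
  induction n with
  | zero => intro g h; exact h [] rfl
  | succ n ih =>
    intro g h
    refine mem_range_of_sec o fun x => ih fun v hv => ?_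
    exact h (x :: v) (by simp [hv])

end

/-! ### Bounded automorphisms -/

/-- The elements whose sections are of depth at most `m` off a single ray. -/
def Good (m : ℕ) (k : TreeAut X) : Prop :=
  (∀ u x y, ¬ Dep m (secw k (u ++ [x])) → ¬ Dep m (secw k (u ++ [y])) → x = y) ∧
    (∀ u, (∃ j, Dep j (secw k u)) → Dep m (secw k u)) ∧ ¬ Dep m k

theorem Good.exists_next {m : ℕ} {k : TreeAut X} (hk : Good m k) :
    ∃ x, Good m (sec k x) ∧ ∀ z, z ≠ x → Dep m (sec k z) := by
  obtain ⟨h1, h2, h3⟩ := hk
  have h4 : ∃ x, ¬ Dep m (sec k x) := by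
    by_contra hcon
    push Not at hcon
    exact h3 (h2 [] ⟨m + 1, hcon⟩)
  obtain ⟨x, hx⟩ := h4
  refine ⟨x, ⟨fun u a b ha hb => ?_, fun u hu => ?_, hx⟩, fun z hz => ?_⟩
  · exact h1 (x :: u) a b ha hb
  · exact h2 (x :: u) hu
  · by_contra hcon
    exact hz (h1 [] z x hcon hx)

theorem Good.exists_ray {m : ℕ} {k : TreeAut X} (hk : Good m k) : ∃ ξ, Dir ξ m k := by
  choose nx h1 h2 using fun k : {k : TreeAut X // Good m k} => Good.exists_next k.2
  let st : ℕ → {k : TreeAut X // Good m k} → {k : TreeAut X // Good m k} :=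
    fun n => (fun k => ⟨sec k.1 (nx k), h1 k⟩)^[n]
  let ray : {k : TreeAut X // Good m k} → ℕ → X := fun k n => nx (st n k)
  have hst : ∀ n k, st (n + 1) k = st n ⟨sec k.1 (nx k), h1 k⟩ := fun n k => rfl
  have hray : ∀ k, sh (ray k) = ray ⟨sec k.1 (nx k), h1 k⟩ := fun k => rfl
  have hitr : ∀ n k, itr (ray k) n k.1 = (st n k).1 := by
    intro n
    induction n with
    | zero => intro k; rfl
    | succ n ih =>
      intro k
      change itr (sh (ray k)) n (sec k.1 (nx k)) = _
      rw [hray, hst]
      exact ih ⟨sec k.1 (nx k), h1 k⟩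
  refine ⟨ray ⟨k, hk⟩, fun n z hz => ?_⟩
  rw [hitr n ⟨k, hk⟩]
  exact h2 _ z hz

theorem exists_stable {c : ℕ → ℕ} {b : ℕ} (h : ∀ n, c n ≤ b) : ∃ n, ∀ k, c k ≤ c n := by
  by_contra hcon
  push Not at hcon
  have : ∀ j, ∃ n, j ≤ c n := by
    intro j
    induction j with
    | zero => exact ⟨0, Nat.zero_le _⟩
    | succ j ih =>
      obtain ⟨n, hn⟩ := ih
      obtain ⟨k, hk⟩ := hcon n
      exact ⟨k, by omega⟩
  obtain ⟨n, hn⟩ := this (b + 1)
  have := h n
  omega

/-- Bounded automorphisms are directed at some level. -/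
theorem exists_level [Finite X] [Nonempty X] {g : TreeAut X} (hg : IsBounded g.1) :
    ∃ m n : ℕ, ∀ v : List X, v.length = n → Dep m (secw g v) ∨ ∃ ξ, Dir ξ m (secw g v) := by
  classical
  obtain ⟨m, b, h1, h2⟩ := hg
  simp only [hasDepth_iff] at h1 h2
  let T : ℕ → Set (List X) := fun n => {v | v.length = n ∧ ¬ Dep m (secw g v)}
  have hfin : ∀ n, (T n).Finite := fun n =>
    (List.finite_length_eq X n).subset fun v hv => hv.1
  have hT : ∀ n v, v ∈ T n → ∃ x, v ++ [x] ∈ T (n + 1) := by
    rintro n v ⟨hv, hv'⟩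
    by_contra hcon
    push Not at hcon
    refine hv' (h1 v ⟨m + 1, fun x => ?_⟩)
    by_contra hx
    refine hcon x ⟨by simp [hv], ?_⟩
    rw [secw_append]
    exact hx
  obtain ⟨n, hn⟩ := exists_stable h2
  -- from level `n` on every vertex of `T` has at most one child in `T`
  have hmono : ∀ k, (T k).ncard ≤ (T (k + 1)).ncard := by
    intro k
    choose! f hf using hT k
    refine Set.ncard_le_ncard_of_injOn (fun v => v ++ [f v]) hf ?_ (hfin _)
    intro v _ w _ hvw
    exact (List.append_inj' hvw rfl).1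
  have hge : ∀ k, (T n).ncard ≤ (T (n + k)).ncard := by
    intro k
    induction k with
    | zero => exact le_rfl
    | succ k ih => exact ih.trans (hmono _)
  have huniq : ∀ k v x y, v ++ [x] ∈ T (n + k + 1) → v ++ [y] ∈ T (n + k + 1) → x = y := by
    intro k v x y hx hy
    by_contra hxy
    have hv : v ∈ T (n + k) := by
      refine ⟨?_, fun hd => ?_⟩
      · have := hx.1
        simpa using this
      · refine hx.2 ?_
        rw [secw_append]
        exact hd.secw _
    choose! f hf using hT (n + k)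
    let f' : List X → List X := fun w => if w = v then v ++ [x] else w ++ [f w]
    have hle : (T (n + k)).ncard ≤ (T (n + k + 1) \ {v ++ [y]}).ncard := by
      refine Set.ncard_le_ncard_of_injOn f' ?_ ?_ ((hfin _).subset Set.sdiff_subset)
      · intro w hw
        by_cases hwv : w = v
        · subst hwv
          simp only [f', if_pos rfl]
          refine ⟨hx, fun h => hxy ?_⟩
          have := (List.append_inj' (h : w ++ [x] = w ++ [y]) rfl).2
          simpa using this
        · simp only [f', if_neg hwv]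
          refine ⟨hf w hw, fun h => hwv ?_⟩
          exact (List.append_inj' (h : w ++ [f w] = v ++ [y]) rfl).1
      · intro w hw w' hw' hww
        have e : ∀ u, f' u = u ++ [if u = v then x else f u] := by
          intro u
          by_cases hu : u = v
          · simp [f', hu]
          · simp [f', hu]
        simp only [e] at hww
        exact (List.append_inj' hww rfl).1
    have hlt : (T (n + k + 1) \ {v ++ [y]}).ncard < (T (n + k + 1)).ncard :=
      Set.ncard_sdiff_singleton_lt_of_mem hy (hfin _)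
    have h3 := hn (n + k + 1)
    have h4 := hge k
    have h5 : (T (n + k + 1)).ncard ≤ (T n).ncard := h3
    omega
  refine ⟨m, n, fun v hv => ?_⟩
  by_cases hd : Dep m (secw g v)
  · exact Or.inl hd
  · refine Or.inr (Good.exists_ray ⟨fun u x y hx hy => ?_, fun u hu => ?_, hd⟩)
    · rw [← secw_append, ← List.append_assoc] at hx hy
      exact huniq u.length (v ++ u) x y ⟨by simp [hv, add_assoc], hx⟩
        ⟨by simp [hv, add_assoc], hy⟩
    · rw [← secw_append] at hu ⊢
      exact h1 _ hu

theorem IsBounded.mem_range [Finite X] [DecidableEq X] (o : X) {g : TreeAut X}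
    (hg : IsBounded g.1) : g ∈ (pr o).range := by
  have : Nonempty X := ⟨o⟩
  obtain ⟨m, n, h⟩ := exists_level hg
  refine mem_range_of_secw o n fun v hv => ?_
  rcases h v hv with h1 | ⟨ξ, h1⟩
  · exact Dep.mem_range o h1
  · exact h1.mem_range o

/-- Groups generated by bounded automorphisms belong to the class. -/
theorem ClosedClass.bounded {C : ∀ (G : Type) [Group G], Prop} (hC : ClosedClass C) [Finite X]
    (s : Set (Equiv.Perm (List X))) (hs : ∀ g ∈ s, IsTreeAut g ∧ IsBounded g) :
    C (Subgroup.closure s) := by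
  classical
  by_cases hX : Nonempty X
  · obtain ⟨o⟩ := hX
    have hle : Subgroup.closure s ≤ ((pr o).range).map (TreeAut X).subtype := by
      rw [Subgroup.closure_le]
      intro g hg
      exact ⟨⟨g, (hs g hg).1⟩, IsBounded.mem_range o (hs g hg).2, rfl⟩
    refine hC.sub hle (hC.iso _ _ (Subgroup.equivMapOfInjective _ _ ?_) (hC.range o))
    exact Subtype.val_injective
  · have hle : Subgroup.closure s ≤ TreeAut X := by
      rw [Subgroup.closure_le]
      exact fun g hg => (hs g hg).1
    refine hC.finite _ ?_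
    have : Subsingleton (Subgroup.closure s) := by
      refine ⟨fun a b => Subtype.ext (Equiv.ext fun w => ?_)⟩
      have hw : w = [] := by
        cases w with
        | nil => rfl
        | cons x _ => exact absurd ⟨x⟩ hX
      have h1 := (hle a.2).1 w
      have h2 := (hle b.2).1 w
      rw [hw] at h1 h2 ⊢
      rw [List.length_nil, List.length_eq_zero_iff] at h1 h2
      rw [h1, h2]
    exact Finite.of_subsingleton

end Pool.Agent.Helper29.BA
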