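import Pool.Agent.Helper29.BA.Cover

/-!
# Contraction of the cover
-/

set_option autoImplicit false

namespace Pool.Agent.Helper29.BA

open TreeAut

variable {X : Type} [DecidableEq X] (o : X)

/-- Sections in the cover. -/
noncomputable def S (w : Cov o) (x : X) : Cov o := (ph o w).s x

theorem S_mul (w w' : Cov o) (x : X) : S o (w * w') x = S o w (rt (pr o w') x) * S o w' x := by
  have h : (ph o (w * w')) = ph o w * ph o w' := map_mul _ _ _
  have h2 : S o (w * w') x = (ph o w).s ((ph o w').p x) * (ph o w').s x := by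
    rw [S, h]
    rfl
  rw [h2, ph_p]
  rfl

theorem S_one (x : X) : S o 1 x = 1 := by
  rw [S, map_one]
  rfl

theorem pr_S (w : Cov o) (x : X) : pr o (S o w x) = sec (pr o w) x := pr_ph_s o w x

/-- Sections at words. -/
noncomputable def Sw : Cov o → List X → Cov o
  | w, [] => w
  | w, x :: v => Sw (S o w x) v

@[simp] theorem Sw_nil (w : Cov o) : Sw o w [] = w := rfl
theorem Sw_cons (w : Cov o) (x : X) (v : List X) : Sw o w (x :: v) = Sw o (S o w x) v := rfl

theorem Sw_append (w : Cov o) (v u : List X) : Sw o w (v ++ u) = Sw o (Sw o w v) u := by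
  induction v generalizing w with
  | nil => rfl
  | cons x v ih => exact ih _

theorem Sw_one (v : List X) : Sw o 1 v = 1 := by
  induction v with
  | nil => rfl
  | cons x v ih => rw [Sw_cons, S_one, ih]

theorem Sw_mul (w w' : Cov o) (v : List X) :
    Sw o (w * w') v = Sw o w ((pr o w').1 v) * Sw o w' v := by
  induction v generalizing w w' with
  | nil => rw [apply_nil]; rfl
  | cons x v ih => rw [Sw_cons, S_mul, ih, apply_cons', Sw_cons, Sw_cons, pr_S]

theorem pr_Sw (w : Cov o) (v : List X) : pr o (Sw o w v) = secw (pr o w) v := by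
  induction v generalizing w with
  | nil => rfl
  | cons x v ih => rw [Sw_cons, ih, pr_S]; rfl

/-! ### The nucleus -/

/-- The directed elements of the cover. -/
noncomputable def nd (η : ℕ → X) (b : BU o) (ξ : ℕ → X) : Cov o :=
  iR o η * iB o b * (iR o ξ)⁻¹

theorem S_iF (f : TreeAut.finG X) (x : X) : ∃ f' : TreeAut.finG X, S o (iF o f) x = iF o f' ∧
    f'.1 = sec f.1 x := ⟨_, rfl, rfl⟩

theorem S_iR (ξ : ℕ → X) (x : X) : S o (iR o ξ) x = if x = o then iR o (sh ξ) else 1 := by
  rw [S, ph_iR]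
  rfl

theorem S_iR_inv (ξ : ℕ → X) (x : X) :
    S o (iR o ξ)⁻¹ x = if x = ξ 0 then (iR o (sh ξ))⁻¹ else 1 := by
  rw [S, map_inv, ph_iR, Wr.inv_s]
  change (if (Equiv.swap o (ξ 0))⁻¹ x = o then iR o (sh ξ) else 1)⁻¹ = _
  rw [Equiv.swap_inv]
  by_cases h : x = ξ 0
  · rw [if_pos ((swap_eq_iff' o _ _).mpr h), if_pos h]
  · rw [if_neg fun h' => h ((swap_eq_iff' o _ _).mp h'), if_neg h, inv_one]

theorem S_iB (b : BU o) : S o (iB o b) o = iB o (shB o b) := by
  rw [S, ph_iB]
  exact dif_pos rfl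

theorem S_iB_ne (b : BU o) {x : X} (hx : x ≠ o) :
    ∃ f : TreeAut.finG X, S o (iB o b) x = iF o f := by
  refine ⟨⟨sec b.1 x, ?_⟩, ?_⟩
  · obtain ⟨m, hm⟩ := b.2
    exact ⟨m, (hm 0).2 x hx⟩
  · rw [S, ph_iB]
    exact dif_neg hx

theorem rt_hr_inv (ξ : ℕ → X) (x : X) : rt (hr o ξ)⁻¹ x = Equiv.swap o (ξ 0) x := rfl

/-- The section of a directed element at the first letter of its ray. -/
theorem S_nd (η : ℕ → X) (b : BU o) (ξ : ℕ → X) :
    S o (nd o η b ξ) (ξ 0) = nd o (sh η) (shB o b) (sh ξ) := by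
  have h1 : rt (pr o (iR o ξ)⁻¹) (ξ 0) = o := by
    rw [map_inv, pr_iR, rt_hr_inv, Equiv.swap_apply_right]
  rw [nd, S_mul, S_mul, h1, S_iR_inv, if_pos rfl, S_iB, pr_iB, rt_BU, S_iR, if_pos rfl, nd]

theorem S_nd_ne (η : ℕ → X) (b : BU o) (ξ : ℕ → X) {x : X} (hx : x ≠ ξ 0) :
    ∃ f : TreeAut.finG X, S o (nd o η b ξ) x = iF o f := by
  have h1 : rt (pr o (iR o ξ)⁻¹) x = Equiv.swap o (ξ 0) x := by
    rw [map_inv, pr_iR, rt_hr_inv]
  have h2 : Equiv.swap o (ξ 0) x ≠ o := fun h => hx ((swap_eq_iff' o _ _).mp h)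
  have h3 : rt (pr o (iB o b)) (Equiv.swap o (ξ 0) x) ≠ o := fun h =>
    h2 (rt_injective _ (h.trans (rt_BU o b).symm))
  obtain ⟨f, hf⟩ := S_iB_ne o b h2
  refine ⟨f, ?_⟩
  rw [nd, S_mul, S_mul, h1, S_iR_inv, if_neg hx, S_iR, if_neg h3, hf, one_mul, mul_one]

/-- The action of a directed element on the first letter of its ray. -/
theorem rt_nd (η : ℕ → X) (b : BU o) (ξ : ℕ → X) : rt (pr o (nd o η b ξ)) (ξ 0) = η 0 := by
  rw [nd, map_mul, map_mul, rt_mul, rt_mul, map_inv, pr_iR, pr_iR, rt_hr_inv,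
    Equiv.swap_apply_right, pr_iB, rt_BU, rt_hr, Equiv.swap_apply_left]

/-- The nucleus. -/
def Nuc (w : Cov o) : Prop := (∃ f : TreeAut.finG X, w = iF o f) ∨ ∃ η b ξ, w = nd o η b ξ

theorem Nuc.S {w : Cov o} (hw : Nuc o w) (x : X) : Nuc o (S o w x) := by
  rcases hw with ⟨f, rfl⟩ | ⟨η, b, ξ, rfl⟩
  · obtain ⟨f', hf', -⟩ := S_iF o f x
    exact Or.inl ⟨f', hf'⟩
  · by_cases hx : x = ξ 0
    · subst hx
      exact Or.inr ⟨_, _, _, S_nd o η b ξ⟩
    · obtain ⟨f, hf⟩ := S_nd_ne o η b ξ hx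
      exact Or.inl ⟨f, hf⟩

theorem Nuc.Sw {w : Cov o} (hw : Nuc o w) (v : List X) : Nuc o (Sw o w v) := by
  induction v generalizing w with
  | nil => exact hw
  | cons x v ih => exact ih (hw.S o x)

/-- Sections of finitary elements at long words. -/
theorem Sw_iF (f : TreeAut.finG X) : ∃ m, ∀ v : List X, m ≤ v.length → Sw o (iF o f) v = 1 := by
  obtain ⟨m, hm⟩ := f.2
  refine ⟨m, ?_⟩
  induction m generalizing f with
  | zero =>
    intro v _
    have : f = 1 := Subtype.ext hm
    rw [this, map_one, Sw_one]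
  | succ m ih =>
    intro v hv
    cases v with
    | nil => simp at hv
    | cons x v =>
      obtain ⟨f', hf', hf''⟩ := S_iF o f x
      rw [Sw_cons, hf']
      refine ih f' ?_ v (by simpa using hv)
      rw [hf'']
      exact hm x

/-- Eventually in the nucleus. -/
def Ev (w : Cov o) : Prop := ∃ n, ∀ v : List X, n ≤ v.length → Nuc o (Sw o w v)

theorem Nuc.ev {w : Cov o} (hw : Nuc o w) : Ev o w := ⟨0, fun v _ => hw.Sw o v⟩

theorem Ev.of_level [Finite X] {w : Cov o} (n : ℕ)
    (h : ∀ v : List X, v.length = n → Ev o (Sw o w v)) : Ev o w := by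
  classical
  have hfin : Set.Finite {v : List X | v.length = n} := List.finite_length_eq X n
  choose! N hN using h
  refine ⟨n + hfin.toFinset.sup N, fun v hv => ?_⟩
  have h1 : (v.take n).length = n := by
    rw [List.length_take]
    omega
  have h2 : N (v.take n) ≤ hfin.toFinset.sup N :=
    Finset.le_sup (f := N) (by simpa using h1)
  have h3 : N (v.take n) ≤ (v.drop n).length := by
    rw [List.length_drop]
    omega
  have := hN (v.take n) h1 (v.drop n) h3
  rwa [← Sw_append, List.take_append_drop] at this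

/-- The product of a finitary element and an element of the nucleus. -/
theorem Ev.fin_mul (f : TreeAut.finG X) {w : Cov o} (hw : Nuc o w) : Ev o (iF o f * w) := by
  obtain ⟨m, hm⟩ := Sw_iF o f
  refine ⟨m, fun v hv => ?_⟩
  rw [Sw_mul, hm _ (by rw [(pr o w).2.1]; exact hv), one_mul]
  exact hw.Sw o v

theorem Ev.mul_fin (f : TreeAut.finG X) {w : Cov o} (hw : Nuc o w) : Ev o (w * iF o f) := by
  obtain ⟨m, hm⟩ := Sw_iF o f
  refine ⟨m, fun v hv => ?_⟩
  rw [Sw_mul, hm v hv, mul_one]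
  exact hw.Sw o _

/-- Products of two directed elements. -/
theorem Ev.nd_mul [Finite X] (η' : ℕ → X) (b' : BU o) (ξ' η : ℕ → X) (b : BU o) (ξ : ℕ → X) :
    Ev o (nd o η' b' ξ' * nd o η b ξ) := by
  by_cases h : ξ' = η
  · subst h
    refine Nuc.ev o (Or.inr ⟨η', b' * b, ξ, ?_⟩)
    rw [nd, nd, nd, map_mul]
    group
  · obtain ⟨n, hn⟩ := Function.ne_iff.mp h
    induction n generalizing η' b' ξ' η b ξ with
    | zero =>
      refine Ev.of_level o 1 fun v hv => ?_
      obtain ⟨x, rfl⟩ := List.length_eq_one_iff.mp hv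
      rw [Sw_cons, Sw_nil, S_mul]
      by_cases hx : x = ξ 0
      · subst hx
        rw [rt_nd]
        obtain ⟨f, hf⟩ := S_nd_ne o η' b' ξ' (x := η 0) fun h' => hn h'.symm
        rw [hf]
        exact Ev.fin_mul o f (Or.inr ⟨_, _, _, S_nd o η b ξ⟩)
      · obtain ⟨f, hf⟩ := S_nd_ne o η b ξ hx
        rw [hf]
        exact Ev.mul_fin o f (Nuc.S o (Or.inr ⟨_, _, _, rfl⟩) _)
    | succ n ih =>
      refine Ev.of_level o 1 fun v hv => ?_
      obtain ⟨x, rfl⟩ := List.length_eq_one_iff.mp hv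
      rw [Sw_cons, Sw_nil, S_mul]
      by_cases hx : x = ξ 0
      · subst hx
        rw [rt_nd]
        by_cases h0 : η 0 = ξ' 0
        · rw [h0, S_nd, S_nd]
          refine ih _ _ _ _ _ _ (fun h' => ?_) ?_
          · exact hn (congrFun h' n)
          · exact hn
        · obtain ⟨f, hf⟩ := S_nd_ne o η' b' ξ' (x := η 0) h0
          rw [hf]
          exact Ev.fin_mul o f (Or.inr ⟨_, _, _, S_nd o η b ξ⟩)
      · obtain ⟨f, hf⟩ := S_nd_ne o η b ξ hx
        rw [hf]
        exact Ev.mul_fin o f (Nuc.S o (Or.inr ⟨_, _, _, rfl⟩) _)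

theorem Nuc.mul_ev [Finite X] {w w' : Cov o} (hw : Nuc o w) (hw' : Nuc o w') : Ev o (w * w') := by
  rcases hw with ⟨f, rfl⟩ | ⟨η', b', ξ', rfl⟩
  · exact Ev.fin_mul o f hw'
  · rcases hw' with ⟨f, rfl⟩ | ⟨η, b, ξ, rfl⟩
    · exact Ev.mul_fin o f (Or.inr ⟨_, _, _, rfl⟩)
    · exact Ev.nd_mul o _ _ _ _ _ _

theorem Ev.mul [Finite X] {w w' : Cov o} (hw : Ev o w) (hw' : Ev o w') : Ev o (w * w') := by
  obtain ⟨n, hn⟩ := hw
  obtain ⟨n', hn'⟩ := hw'
  refine Ev.of_level o (max n n') fun v hv => ?_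
  rw [Sw_mul]
  refine Nuc.mul_ev o (hn _ ?_) (hn' _ ?_)
  · rw [(pr o w').2.1, hv]
    exact le_max_left _ _
  · rw [hv]
    exact le_max_right _ _

omit [DecidableEq X] in
theorem nd_cst (b : BU o) : nd o (cst o) b (cst o) = iB o b := by
  rw [nd, iR_cst, one_mul, inv_one, mul_one]

omit [DecidableEq X] in
theorem nd_one (η ξ : ℕ → X) : nd o η 1 ξ = iR o η * (iR o ξ)⁻¹ := by
  rw [nd, map_one, mul_one]

/-- All elements of the cover are contracted into the nucleus. -/
theorem ev_all [Finite X] (w : Cov o) : Ev o w := by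
  induction w using Monoid.Coprod.induction_on with
  | inl f => exact Nuc.ev o (Or.inl ⟨f, rfl⟩)
  | inr u =>
    induction u using Monoid.Coprod.induction_on with
    | inl b => exact Nuc.ev o (Or.inr ⟨cst o, b, cst o, (nd_cst o b).symm⟩)
    | inr r =>
      induction r using FreeGroup.induction_on with
      | C1 =>
        rw [map_one, map_one]
        exact Nuc.ev o (Or.inl ⟨1, (map_one _).symm⟩)
      | of ξ =>
        refine Nuc.ev o (Or.inr ⟨ξ.1, 1, cst o, ?_⟩)
        rw [nd_one, iR_cst, inv_one, mul_one, iR, dif_neg ξ.2]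
      | inv_of ξ _ =>
        refine Nuc.ev o (Or.inr ⟨cst o, 1, ξ.1, ?_⟩)
        rw [nd_one, iR_cst, one_mul, iR, dif_neg ξ.2, map_inv, map_inv]
      | mul x y hx hy =>
        rw [map_mul, map_mul]
        exact Ev.mul o hx hy
    | mul x y hx hy =>
      rw [map_mul]
      exact Ev.mul o hx hy
  | mul x y hx hy => exact Ev.mul o hx hy

/-- Elements of the nucleus which act trivially are trivial. -/
theorem Nuc.eq_one {w : Cov o} (hw : Nuc o w) (h : pr o w = 1) : w = 1 := by
  rcases hw with ⟨f, rfl⟩ | ⟨η, b, ξ, rfl⟩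
  · have : f = 1 := Subtype.ext h
    rw [this, map_one]
  · have h0 : ∀ n (η ξ : ℕ → X) (b : BU o), pr o (nd o η b ξ) = 1 → η n = ξ n := by
      intro n
      induction n with
      | zero =>
        intro η ξ b h
        have := rt_nd o η b ξ
        rw [h, rt_one] at this
        exact this.symm
      | succ n ih =>
        intro η ξ b h
        refine ih (sh η) (sh ξ) (shB o b) ?_
        rw [← S_nd, pr_S, h, sec_one]
    have h1 : η = ξ := funext fun n => h0 n η ξ b h
    subst h1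
    rw [nd, map_mul, map_mul, map_inv, pr_iB] at h
    have h2 : b.1 = 1 := by
      have := mul_inv_eq_one.mp h
      exact mul_eq_left.mp this
    have h3 : b = 1 := Subtype.ext h2
    rw [h3, nd_one, mul_inv_cancel]

/-! ### The class contains the image of the cover -/

/-- The words of length `n`. -/
abbrev Words (X : Type) (n : ℕ) : Type := {v : List X // v.length = n}

instance [Finite X] (n : ℕ) : Finite (Words X n) := List.finite_length_eq X n

/-- The action on the words of length `n`. -/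
def permW (n : ℕ) (g : TreeAut X) : Equiv.Perm (Words X n) where
  toFun v := ⟨g.1 v.1, (g.2.1 _).trans v.2⟩
  invFun v := ⟨(g⁻¹).1 v.1, ((g⁻¹).2.1 _).trans v.2⟩
  left_inv v := Subtype.ext (perm_inv_apply g.1 v.1)
  right_inv v := Subtype.ext (perm_apply_inv g.1 v.1)

/-- The level `n` of the recursion. -/
noncomputable def Ps (n : ℕ) : Cov o →* Wr (Words X n) (Cov o) where
  toFun w := ⟨permW n (pr o w), fun v => Sw o w v.1⟩
  map_one' := by
    refine Wr.ext (Equiv.ext fun v => ?_) (funext fun v => ?_)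
    · apply Subtype.ext
      change (pr o 1).1 v.1 = v.1
      rw [map_one]
      rfl
    · exact Sw_one o v.1
  map_mul' w w' := by
    refine Wr.ext (Equiv.ext fun v => ?_) (funext fun v => ?_)
    · apply Subtype.ext
      change (pr o (w * w')).1 v.1 = (pr o w).1 ((pr o w').1 v.1)
      rw [map_mul]
      rfl
    · exact Sw_mul o w w' v.1

theorem Ps_eq_one_iff {n : ℕ} {w : Cov o} :
    Ps o n w = 1 ↔ ∀ v : List X, v.length = n → (pr o w).1 v = v ∧ Sw o w v = 1 := by
  constructor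
  · intro h v hv
    refine ⟨?_, ?_⟩
    · have h1 := DFunLike.congr_fun (congrArg Wr.p h) (⟨v, hv⟩ : Words X n)
      exact congrArg Subtype.val h1
    · exact congrFun (congrArg Wr.s h) (⟨v, hv⟩ : Words X n)
  · intro h
    refine Wr.ext (Equiv.ext fun v => ?_) (funext fun v => ?_)
    · exact Subtype.ext (h v.1 v.2).1
    · exact (h v.1 v.2).2

theorem Ps_succ {n : ℕ} {w : Cov o} (h : Ps o n w = 1) : Ps o (n + 1) w = 1 := by
  rw [Ps_eq_one_iff] at h ⊢
  intro v hv
  have h1 : (v.take n).length = n := by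
    rw [List.length_take]
    omega
  obtain ⟨h2, h3⟩ := h _ h1
  have h4 : v = v.take n ++ v.drop n := (List.take_append_drop n v).symm
  rw [h4, apply_append, ← pr_Sw, Sw_append, h2, h3, map_one, Sw_one]
  exact ⟨rfl, rfl⟩

theorem pr_of_Ps {n : ℕ} {w : Cov o} (h : Ps o n w = 1) : pr o w = 1 := by
  have h' : ∀ k, Ps o (n + k) w = 1 := by
    intro k
    induction k with
    | zero => exact h
    | succ k ih => exact Ps_succ o ih
  apply Subtype.ext
  ext1 v
  have h1 := ((Ps_eq_one_iff o).mp (h' v.length) (v ++ List.replicate n o) (by simp [add_comm])).1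
  have h2 := (pr o w).2.2 v (List.replicate n o)
  rw [h1] at h2
  have h3 := List.prefix_iff_eq_take.mp h2
  rw [(pr o w).2.1, List.take_left'] at h3
  · exact h3
  · rfl

/-- The class contains the image of the cover. -/
theorem ClosedClass.range {C : ∀ (G : Type) [Group G], Prop} (hC : ClosedClass C) [Finite X] :
    C (pr o).range := by
  refine hC.ofKer (pr o).rangeRestrict (pr o).rangeRestrict_surjective (Ps o) ?_ ?_ ?_ ?_
  · intro n w hw
    exact Ps_succ o hw
  · intro n w hw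
    exact Subtype.ext (pr_of_Ps o hw)
  · intro w hw
    have h1 : pr o w = 1 := congrArg Subtype.val hw
    obtain ⟨n, hn⟩ := ev_all o w
    refine ⟨n, (Ps_eq_one_iff o).mpr fun v hv => ?_⟩
    rw [h1]
    refine ⟨rfl, (hn v hv.ge).eq_one o ?_⟩
    rw [pr_Sw, h1, secw_one]
  · intro n
    exact hC.wr (hC.cov o)

end Pool.Agent.Helper29.BA
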