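import Pool.Agent.Helper29.BA.Cover1

/-!
# Contraction of the second cover
-/

set_option autoImplicit false

namespace Pool.Agent.Helper29.BA

open TreeAut Monoid

variable {X : Type} [DecidableEq X] [Finite X] (o : X)

/-- `hr ξ` in the cover. -/
def jR (ξ : ℕ → X) : Cov1 o := jH o ⟨hr o ξ, hr_mem o ξ⟩

/-- The directed elements. -/
def nd1 (η : ℕ → X) (b : B1 o) (ξ : ℕ → X) : Cov1 o := jR o η * jB o b * (jR o ξ)⁻¹

theorem S1_jH (h : P0 o) (x : X) :
    gS (ph1 o) (jH o h) x = jH o ⟨sec h.1 x, sec_mem o h.2 x⟩ := rfl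

theorem S1_jR (ξ : ℕ → X) (x : X) :
    gS (ph1 o) (jR o ξ) x = if x = o then jR o (sh ξ) else 1 := by
  rw [jR, S1_jH]
  split_ifs with hx
  · refine congrArg (jH o) (Subtype.ext ?_)
    change sec (hr o ξ) x = hr o (sh ξ)
    rw [sec_hr, if_pos hx]
  · refine (congrArg (jH o) (Subtype.ext ?_)).trans (map_one _)
    change sec (hr o ξ) x = 1
    rw [sec_hr, if_neg hx]

theorem S1_jR_inv (ξ : ℕ → X) (x : X) :
    gS (ph1 o) (jR o ξ)⁻¹ x = if x = ξ 0 then (jR o (sh ξ))⁻¹ else 1 := by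
  have h1 : (jR o ξ)⁻¹ = jH o (⟨hr o ξ, hr_mem o ξ⟩⁻¹) := (map_inv _ _).symm
  rw [h1, S1_jH]
  split_ifs with hx
  · rw [jR, ← map_inv]
    refine congrArg (jH o) (Subtype.ext ?_)
    change sec (hr o ξ)⁻¹ x = (hr o (sh ξ))⁻¹
    rw [sec_hr_inv, if_pos hx]
  · refine (congrArg (jH o) (Subtype.ext ?_)).trans (map_one _)
    change sec (hr o ξ)⁻¹ x = 1
    rw [sec_hr_inv, if_neg hx]

theorem S1_jB (b : B1 o) : gS (ph1 o) (jB o b) o = jB o (shB1 o b) := dif_pos rfl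

theorem S1_jB_ne (b : B1 o) {x : X} (hx : x ≠ o) :
    ∃ f : P0 o, gS (ph1 o) (jB o b) x = jH o f := ⟨_, dif_neg hx⟩

theorem pr1_jR (ξ : ℕ → X) : pr1 o (jR o ξ) = hr o ξ := rfl

theorem gS1_mul (w w' : Cov1 o) (x : X) :
    gS (ph1 o) (w * w') x = gS (ph1 o) w (rt (pr1 o w') x) * gS (ph1 o) w' x :=
  gS_mul (ph1 o) (pr1 o) (comp1 o) w w' x

theorem S1_nd (η : ℕ → X) (b : B1 o) (ξ : ℕ → X) :
    gS (ph1 o) (nd1 o η b ξ) (ξ 0) = nd1 o (sh η) (shB1 o b) (sh ξ) := by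
  have h1 : rt (pr1 o (jR o ξ)⁻¹) (ξ 0) = o := by
    rw [map_inv, pr1_jR, rt_hr_inv, Equiv.swap_apply_right]
  rw [nd1, gS1_mul, gS1_mul, h1, S1_jR_inv, if_pos rfl, S1_jB, pr1_jB, rt_B1, S1_jR, if_pos rfl,
    nd1]

theorem S1_nd_ne (η : ℕ → X) (b : B1 o) (ξ : ℕ → X) {x : X} (hx : x ≠ ξ 0) :
    ∃ f : P0 o, gS (ph1 o) (nd1 o η b ξ) x = jH o f := by
  have h1 : rt (pr1 o (jR o ξ)⁻¹) x = Equiv.swap o (ξ 0) x := by
    rw [map_inv, pr1_jR, rt_hr_inv]
  have h2 : Equiv.swap o (ξ 0) x ≠ o := fun h => hx ((swap_eq_iff' o _ _).mp h)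
  have h3 : rt (pr1 o (jB o b)) (Equiv.swap o (ξ 0) x) ≠ o := fun h =>
    h2 (rt_injective _ (h.trans (rt_B1 o b).symm))
  obtain ⟨f, hf⟩ := S1_jB_ne o b h2
  refine ⟨f, ?_⟩
  rw [nd1, gS1_mul, gS1_mul, h1, S1_jR_inv, if_neg hx, S1_jR, if_neg h3, hf, one_mul, mul_one]

theorem rt_nd1 (η : ℕ → X) (b : B1 o) (ξ : ℕ → X) : rt (pr1 o (nd1 o η b ξ)) (ξ 0) = η 0 := by
  rw [nd1, map_mul, map_mul, rt_mul, rt_mul, map_inv, pr1_jR, pr1_jR, rt_hr_inv,
    Equiv.swap_apply_right, pr1_jB, rt_B1, rt_hr, Equiv.swap_apply_left]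

theorem nd1_inv (η : ℕ → X) (b : B1 o) (ξ : ℕ → X) : (nd1 o η b ξ)⁻¹ = nd1 o ξ b⁻¹ η := by
  rw [nd1, nd1, map_inv]
  group

theorem nd1_mul (η : ℕ → X) (b : B1 o) (ζ : ℕ → X) (c : B1 o) (ξ : ℕ → X) :
    nd1 o η b ζ * nd1 o ζ c ξ = nd1 o η (b * c) ξ := by
  rw [nd1, nd1, nd1, map_mul]
  group

/-- Elements of `P0` directed along a ray are directed elements of the cover. -/
theorem jH_of_dir {h : P0 o} {ξ : ℕ → X} {m : ℕ} (hd : Dir ξ m h.1) :
    ∃ η b, jH o h = nd1 o η b ξ := by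
  refine ⟨img h.1 ξ, kB o ⟨bb o h.1 ξ, m, fun n => inB_bb o n hd⟩, ?_⟩
  rw [nd1, ← jH_eq_jB, jR, jR, ← map_mul, ← map_inv, ← map_mul]
  refine congrArg (jH o) (Subtype.ext ?_)
  change h.1 = hr o (img h.1 ξ) * ((hr o (img h.1 ξ))⁻¹ * h.1 * hr o ξ) * (hr o ξ)⁻¹
  group

/-! ### The nucleus -/

/-- The nucleus. -/
def Nuc1 (w : Cov1 o) : Prop := (∃ h : P0 o, w = jH o h) ∨ ∃ η b ξ, w = nd1 o η b ξ

theorem Nuc1.gS {w : Cov1 o} (hw : Nuc1 o w) (x : X) : Nuc1 o (gS (ph1 o) w x) := by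
  rcases hw with ⟨f, rfl⟩ | ⟨η, b, ξ, rfl⟩
  · exact Or.inl ⟨_, S1_jH o f x⟩
  · by_cases hx : x = ξ 0
    · subst hx
      exact Or.inr ⟨_, _, _, S1_nd o η b ξ⟩
    · obtain ⟨f, hf⟩ := S1_nd_ne o η b ξ hx
      exact Or.inl ⟨f, hf⟩

theorem Nuc1.gSw {w : Cov1 o} (hw : Nuc1 o w) (v : List X) : Nuc1 o (gSw (ph1 o) w v) := by
  induction v generalizing w with
  | nil => exact hw
  | cons x v ih => exact ih (hw.gS o x)

theorem Nuc1.inv {w : Cov1 o} (hw : Nuc1 o w) : Nuc1 o w⁻¹ := by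
  rcases hw with ⟨f, rfl⟩ | ⟨η, b, ξ, rfl⟩
  · exact Or.inl ⟨f⁻¹, (map_inv _ _).symm⟩
  · exact Or.inr ⟨_, _, _, nd1_inv o η b ξ⟩

/-- Eventually in the nucleus. -/
def Ev1 (w : Cov1 o) : Prop := ∃ n, ∀ v : List X, n ≤ v.length → Nuc1 o (gSw (ph1 o) w v)

theorem Nuc1.ev {w : Cov1 o} (hw : Nuc1 o w) : Ev1 o w := ⟨0, fun v _ => hw.gSw o v⟩

theorem Ev1.inv {w : Cov1 o} (hw : Ev1 o w) : Ev1 o w⁻¹ := by
  obtain ⟨n, hn⟩ := hw
  refine ⟨n, fun v hv => ?_⟩
  rw [gSw_inv (ph1 o) (pr1 o) (comp1 o)]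
  refine (hn _ ?_).inv
  rw [(pr1 o w⁻¹).2.1]
  exact hv

theorem Ev1.of_level {w : Cov1 o} (n : ℕ)
    (h : ∀ v : List X, v.length = n → Ev1 o (gSw (ph1 o) w v)) : Ev1 o w := by
  classical
  have hfin : Set.Finite {v : List X | v.length = n} := List.finite_length_eq X n
  choose! N hN using h
  refine ⟨n + hfin.toFinset.sup N, fun v hv => ?_⟩
  have h1 : (v.take n).length = n := by
    rw [List.length_take]
    omega
  have h2 : N (v.take n) ≤ hfin.toFinset.sup N :=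
    Finset.le_sup (f := N) (by simpa using h1)
  have h3 : N (v.take n) ≤ (v.drop n).length := by
    rw [List.length_drop]
    omega
  have := hN (v.take n) h1 (v.drop n) h3
  rwa [← gSw_append, List.take_append_drop] at this

theorem Ev1.of_letter {w : Cov1 o} (h : ∀ x, Ev1 o (BA.gS (ph1 o) w x)) : Ev1 o w := by
  refine Ev1.of_level o 1 fun v hv => ?_
  obtain ⟨x, rfl⟩ := List.length_eq_one_iff.mp hv
  exact h x

theorem Ev1.H_nd_aux {m : ℕ} : ∀ (n : ℕ) (h : P0 o) (η : ℕ → X) (b : B1 o) (ξ : ℕ → X),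
    Dir (shn n η) m (itr η n h.1) → Ev1 o (jH o h * nd1 o η b ξ)
  | 0, h, η, b, ξ, hd => by
    have h0 : shn 0 η = η := funext fun k => by rw [shn, Nat.zero_add]
    rw [h0] at hd
    obtain ⟨η', c, hc⟩ := jH_of_dir o (h := h) hd
    rw [hc, nd1_mul]
    exact Nuc1.ev o (Or.inr ⟨_, _, _, rfl⟩)
  | n + 1, h, η, b, ξ, hd => by
    refine Ev1.of_letter o fun x => ?_
    rw [gS1_mul]
    by_cases hx : x = ξ 0
    · subst hx
      rw [rt_nd1, S1_nd, S1_jH]
      refine Ev1.H_nd_aux (m := m) n _ (sh η) _ _ ?_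
      have h1 : shn n (sh η) = shn (n + 1) η := by
        funext k
        change η (n + k + 1) = η (n + 1 + k)
        congr 1
        omega
      rw [h1]
      exact hd
    · obtain ⟨f, hf⟩ := S1_nd_ne o η b ξ hx
      rw [hf, S1_jH, ← map_mul]
      exact Nuc1.ev o (Or.inl ⟨_, rfl⟩)

theorem Ev1.H_nd (h : P0 o) (η : ℕ → X) (b : B1 o) (ξ : ℕ → X) :
    Ev1 o (jH o h * nd1 o η b ξ) := by
  obtain ⟨n, m, hd⟩ := exists_dir o h.2 η
  exact Ev1.H_nd_aux o n h η b ξ hd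

theorem Ev1.H_mul (h : P0 o) {w : Cov1 o} (hw : Nuc1 o w) : Ev1 o (jH o h * w) := by
  rcases hw with ⟨f, rfl⟩ | ⟨η, b, ξ, rfl⟩
  · rw [← map_mul]
    exact Nuc1.ev o (Or.inl ⟨_, rfl⟩)
  · exact Ev1.H_nd o h η b ξ

theorem Ev1.mul_H (h : P0 o) {w : Cov1 o} (hw : Nuc1 o w) : Ev1 o (w * jH o h) := by
  have h1 := (Ev1.H_mul o h⁻¹ (hw.inv o)).inv o
  rwa [map_inv, mul_inv_rev, inv_inv, inv_inv] at h1

theorem Ev1.nd_nd (η' : ℕ → X) (b' : B1 o) (ξ' η : ℕ → X) (b : B1 o) (ξ : ℕ → X) :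
    Ev1 o (nd1 o η' b' ξ' * nd1 o η b ξ) := by
  by_cases h : ξ' = η
  · subst h
    rw [nd1_mul]
    exact Nuc1.ev o (Or.inr ⟨_, _, _, rfl⟩)
  · obtain ⟨n, hn⟩ := Function.ne_iff.mp h
    induction n generalizing η' b' ξ' η b ξ with
    | zero =>
      refine Ev1.of_letter o fun x => ?_
      rw [gS1_mul]
      by_cases hx : x = ξ 0
      · subst hx
        rw [rt_nd1]
        obtain ⟨f, hf⟩ := S1_nd_ne o η' b' ξ' (x := η 0) fun h' => hn h'.symm
        rw [hf]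
        exact Ev1.H_mul o f (Or.inr ⟨_, _, _, S1_nd o η b ξ⟩)
      · obtain ⟨f, hf⟩ := S1_nd_ne o η b ξ hx
        rw [hf]
        exact Ev1.mul_H o f (Nuc1.gS o (Or.inr ⟨_, _, _, rfl⟩) _)
    | succ n ih =>
      refine Ev1.of_letter o fun x => ?_
      rw [gS1_mul]
      by_cases hx : x = ξ 0
      · subst hx
        rw [rt_nd1]
        by_cases h0 : η 0 = ξ' 0
        · rw [h0, S1_nd, S1_nd]
          refine ih _ _ _ _ _ _ (fun h' => ?_) ?_
          · exact hn (congrFun h' n)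
          · exact hn
        · obtain ⟨f, hf⟩ := S1_nd_ne o η' b' ξ' (x := η 0) h0
          rw [hf]
          exact Ev1.H_mul o f (Or.inr ⟨_, _, _, S1_nd o η b ξ⟩)
      · obtain ⟨f, hf⟩ := S1_nd_ne o η b ξ hx
        rw [hf]
        exact Ev1.mul_H o f (Nuc1.gS o (Or.inr ⟨_, _, _, rfl⟩) _)

theorem Nuc1.mul_ev {w w' : Cov1 o} (hw : Nuc1 o w) (hw' : Nuc1 o w') : Ev1 o (w * w') := by
  rcases hw with ⟨f, rfl⟩ | ⟨η', b', ξ', rfl⟩
  · exact Ev1.H_mul o f hw'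
  · rcases hw' with ⟨f, rfl⟩ | ⟨η, b, ξ, rfl⟩
    · exact Ev1.mul_H o f (Or.inr ⟨_, _, _, rfl⟩)
    · exact Ev1.nd_nd o _ _ _ _ _ _

theorem Ev1.mul {w w' : Cov1 o} (hw : Ev1 o w) (hw' : Ev1 o w') : Ev1 o (w * w') := by
  obtain ⟨n, hn⟩ := hw
  obtain ⟨n', hn'⟩ := hw'
  refine Ev1.of_level o (max n n') fun v hv => ?_
  rw [gSw_mul (ph1 o) (pr1 o) (comp1 o)]
  refine Nuc1.mul_ev o (hn _ ?_) (hn' _ ?_)
  · rw [(pr1 o w').2.1, hv]
    exact le_max_left _ _
  · rw [hv]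
    exact le_max_right _ _

theorem hr_cst1 : jR o (cst o) = 1 := by
  refine (congrArg (jH o) (Subtype.ext ?_)).trans (map_one _)
  exact hr_cst o

theorem ev1_all (w : Cov1 o) : Ev1 o w := by
  induction w using QuotientGroup.induction_on with
  | H w =>
    induction w using Coprod.induction_on with
    | inl h => exact Nuc1.ev o (Or.inl ⟨h, rfl⟩)
    | inr b =>
      refine Nuc1.ev o (Or.inr ⟨cst o, b, cst o, ?_⟩)
      rw [nd1, hr_cst1, one_mul, inv_one, mul_one]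
      rfl
    | mul x y hx hy =>
      rw [QuotientGroup.mk_mul]
      exact Ev1.mul o hx hy

theorem Nuc1.eq_one {w : Cov1 o} (hw : Nuc1 o w) (h : pr1 o w = 1) : w = 1 := by
  rcases hw with ⟨f, rfl⟩ | ⟨η, b, ξ, rfl⟩
  · have : f = 1 := Subtype.ext h
    rw [this, map_one]
  · have h0 : ∀ n (η ξ : ℕ → X) (b : B1 o), pr1 o (nd1 o η b ξ) = 1 → η n = ξ n := by
      intro n
      induction n with
      | zero =>
        intro η ξ b h
        have := rt_nd1 o η b ξ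
        rw [h, rt_one] at this
        exact this.symm
      | succ n ih =>
        intro η ξ b h
        refine ih (sh η) (sh ξ) (shB1 o b) ?_
        rw [← S1_nd, pr_gS (ph1 o) (pr1 o) (comp1 o), h, sec_one]
    have h1 : η = ξ := funext fun n => h0 n η ξ b h
    subst h1
    rw [nd1, map_mul, map_mul, map_inv, pr1_jB] at h
    have h2 : b.1 = 1 := by
      have := mul_inv_eq_one.mp h
      exact mul_eq_left.mp this
    have h3 : b = 1 := Subtype.ext h2
    rw [h3, nd1, map_one, mul_one, mul_inv_cancel]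

/-- The class contains the image of the second cover. -/
theorem ClosedClass.range1 {C : ∀ (G : Type) [Group G], Prop} (hC : ClosedClass C) :
    C (pr1 o).range := by
  refine hC.range_of_cover (ph1 o) (pr1 o) (comp1 o) o (hC.cov1 o) fun w hw => ?_
  obtain ⟨n, hn⟩ := ev1_all o w
  refine ⟨n, fun v hv => (hn v hv.ge).eq_one o ?_⟩
  rw [pr_gSw (ph1 o) (pr1 o) (comp1 o), hw, secw_one]

/-! ### Elements of the image -/

/-- The image of the second cover. -/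
abbrev P1 : Subgroup (TreeAut X) := (pr1 o).range

theorem P0_le_P1 : P0 o ≤ P1 o := fun g hg => ⟨jH o ⟨g, hg⟩, rfl⟩

/-- `g` is directed along the ray `ξ` over `P0`, with finitely many sections off the ray. -/
def Dir1 (ξ : ℕ → X) (g : TreeAut X) : Prop :=
  (∀ n z, z ≠ ξ n → sec (itr ξ n g) z ∈ P0 o) ∧ {k | ∃ n z, z ≠ ξ n ∧ k = sec (itr ξ n g) z}.Finite

omit [Finite X] in
theorem itn_bb (n : ℕ) (g : TreeAut X) (ξ : ℕ → X) :
    itn o n (bb o g ξ) = bb o (itr ξ n g) (shn n ξ) := by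
  induction n generalizing g ξ with
  | zero =>
    have h0 : shn 0 ξ = ξ := funext fun k => by rw [shn, Nat.zero_add]
    rw [h0]
    rfl
  | succ n ih =>
    change itn o n (sec (bb o g ξ) o) = _
    rw [sec_bb, ih]
    have h1 : shn n (sh ξ) = shn (n + 1) ξ := by
      funext k
      change ξ (n + k + 1) = ξ (n + 1 + k)
      congr 1
      omega
    rw [h1]
    rfl

omit [Finite X] in
theorem sec_bb_eq (g : TreeAut X) (ξ : ℕ → X) {z : X} (hz : z ≠ o) :
    sec (bb o g ξ) z = sec g (Equiv.swap o (ξ 0) z) ∧ Equiv.swap o (ξ 0) z ≠ ξ 0 := by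
  have h1 : Equiv.swap o (ξ 0) z ≠ ξ 0 := fun h => hz ((swap_eq_iff o _ _).mp h)
  have h2 : rt g (rt (hr o ξ) z) ≠ img g ξ 0 := fun h => h1 (rt_injective g h)
  refine ⟨?_, h1⟩
  rw [bb, sec_mul, sec_mul, sec_hr_inv, if_neg h2, sec_hr, if_neg hz, one_mul, mul_one]
  rfl

theorem Dir1.mem {ξ : ℕ → X} {g : TreeAut X} (h : Dir1 o ξ g) : g ∈ P1 o := by
  have h1 : InBH o (P0 o) (bb o g ξ) := by
    refine ⟨fun n => ?_, ?_⟩
    · rw [itn_bb]
      refine ⟨rt_bb o _ _, fun z hz => ?_⟩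
      obtain ⟨h2, h3⟩ := sec_bb_eq o (itr ξ n g) (shn n ξ) hz
      rw [h2]
      exact h.1 n _ h3
    · refine h.2.subset ?_
      rintro k ⟨n, z, hz, rfl⟩
      obtain ⟨h2, h3⟩ := sec_bb_eq o (itr ξ n g) (shn n ξ) hz
      exact ⟨n, _, h3, by rw [itn_bb, h2]⟩
  refine ⟨nd1 o (img g ξ) ⟨bb o g ξ, h1⟩ ξ, ?_⟩
  rw [nd1, map_mul, map_mul, map_inv, pr1_jR, pr1_jR, pr1_jB]
  change hr o (img g ξ) * ((hr o (img g ξ))⁻¹ * g * hr o ξ) * (hr o ξ)⁻¹ = g
  group

theorem del_mem1 (x : X) {g : TreeAut X} (hg : g ∈ P1 o) : del x g ∈ P1 o := by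
  obtain ⟨w, rfl⟩ := hg
  induction w using QuotientGroup.induction_on with
  | H w =>
    induction w using Coprod.induction_on with
    | inl h => exact P0_le_P1 o (del_mem o h.2 x)
    | inr b =>
      refine Dir1.mem o (ξ := cons x (cst o)) ⟨fun n z hz => ?_, ?_⟩
      · cases n with
        | zero =>
          have hz' : z ≠ x := hz
          change sec (del x b.1) z ∈ P0 o
          rw [sec_del, if_neg hz']
          exact one_mem _
        | succ n =>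
          change sec (itr (cst o) n (sec (del x b.1) x)) z ∈ P0 o
          rw [sec_del, if_pos rfl]
          have h1 : ∀ n (b : TreeAut X), itr (cst o) n b = itn o n b := by
            intro n
            induction n with
            | zero => intro b; rfl
            | succ n ih => intro b; exact ih _
          rw [h1]
          exact (b.2.1 n).2 z hz
      · refine (b.2.2.insert 1).subset ?_
        rintro k ⟨n, z, hz, rfl⟩
        cases n with
        | zero =>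
          left
          have hz' : z ≠ x := hz
          change sec (del x b.1) z = 1
          rw [sec_del, if_neg hz']
        | succ n =>
          right
          refine ⟨n, z, hz, ?_⟩
          change sec (itr (cst o) n (sec (del x b.1) x)) z = _
          rw [sec_del, if_pos rfl]
          have h1 : ∀ n (b : TreeAut X), itr (cst o) n b = itn o n b := by
            intro n
            induction n with
            | zero => intro b; rfl
            | succ n ih => intro b; exact ih _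
          rw [h1]
    | mul a b ha hb =>
      rw [QuotientGroup.mk_mul, map_mul, map_mul]
      exact mul_mem ha hb

theorem mem1_of_secw (n : ℕ) {g : TreeAut X} (h : ∀ v : List X, v.length = n → secw g v ∈ P1 o) :
    g ∈ P1 o :=
  mem_of_secw (P1 o) ((finG_le_P0 o).trans (P0_le_P1 o)) (fun x _ hg => del_mem1 o x hg) n h

end Pool.Agent.Helper29.BA
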