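import Pool.Agent.Helper29.BA.Tree

/-!
# The cover of the group of bounded automorphisms
-/

set_option autoImplicit false

namespace Pool.Agent.Helper29.BA

open TreeAut

variable {X : Type}

/-! ### Directed automorphisms along the constant ray -/

/-- Iterated sections at the letter `o`. -/
def itn (o : X) : ℕ → TreeAut X → TreeAut X
  | 0, b => b
  | n + 1, b => itn o n (sec b o)

theorem itn_succ' (o : X) (n : ℕ) (b : TreeAut X) : itn o (n + 1) b = sec (itn o n b) o := by
  induction n generalizing b with
  | zero => rfl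
  | succ n ih => exact ih (sec b o)

theorem itn_mul (o : X) (n : ℕ) {a b : TreeAut X} (hb : ∀ k, rt (itn o k b) o = o) :
    itn o n (a * b) = itn o n a * itn o n b := by
  induction n generalizing a b with
  | zero => rfl
  | succ n ih =>
    have h0 : rt b o = o := hb 0
    change itn o n (sec (a * b) o) = itn o n (sec a o) * itn o n (sec b o)
    rw [sec_mul, h0]
    exact ih fun k => hb (k + 1)

theorem rt_inv_of_fix {b : TreeAut X} {x : X} (h : rt b x = x) : rt b⁻¹ x = x := by
  have h1 := rt_mul b⁻¹ b x
  rw [inv_mul_cancel, rt_one, h] at h1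
  exact h1.symm

theorem itn_inv (o : X) (n : ℕ) {b : TreeAut X} (hb : ∀ k, rt (itn o k b) o = o) :
    itn o n b⁻¹ = (itn o n b)⁻¹ := by
  induction n generalizing b with
  | zero => rfl
  | succ n ih =>
    have h0 : rt b o = o := hb 0
    change itn o n (sec b⁻¹ o) = (itn o n (sec b o))⁻¹
    rw [sec_inv, rt_inv_of_fix h0]
    exact ih fun k => hb (k + 1)

/-- `b` fixes the ray `o o o ...` and its sections off this ray have depth at most `m`. -/
def InB (o : X) (m : ℕ) (b : TreeAut X) : Prop :=
  ∀ n, rt (itn o n b) o = o ∧ ∀ z, z ≠ o → Dep m (sec (itn o n b) z)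

theorem InB.shift {o : X} {m : ℕ} {b : TreeAut X} (hb : InB o m b) : InB o m (sec b o) :=
  fun n => hb (n + 1)

theorem InB.mono {o : X} {m n : ℕ} (hmn : m ≤ n) {b : TreeAut X} (hb : InB o m b) : InB o n b :=
  fun k => ⟨(hb k).1, fun z hz => ((hb k).2 z hz).mono hmn⟩

theorem rt_injective (g : TreeAut X) : Function.Injective (rt g) := (root g).injective

theorem InB.one (o : X) (m : ℕ) : InB o m (1 : TreeAut X) := by
  intro n
  have : itn o n (1 : TreeAut X) = 1 := by
    induction n with
    | zero => rfl
    | succ n ih => rw [itn_succ', ih, sec_one]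
  rw [this]
  exact ⟨rfl, fun z _ => by rw [sec_one]; exact dep_one m⟩

theorem InB.mul {o : X} {m : ℕ} {a b : TreeAut X} (ha : InB o m a) (hb : InB o m b) :
    InB o m (a * b) := by
  intro n
  rw [itn_mul o n fun k => (hb k).1]
  refine ⟨?_, fun z hz => ?_⟩
  · rw [rt_mul, (hb n).1, (ha n).1]
  · rw [sec_mul]
    refine ((ha n).2 _ fun h => hz ?_).mul ((hb n).2 z hz)
    exact rt_injective _ (h.trans (hb n).1.symm)

theorem InB.inv {o : X} {m : ℕ} {b : TreeAut X} (hb : InB o m b) : InB o m b⁻¹ := by
  intro n
  rw [itn_inv o n fun k => (hb k).1]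
  refine ⟨rt_inv_of_fix (hb n).1, fun z hz => ?_⟩
  rw [sec_inv]
  refine ((hb n).2 _ fun h => hz ?_).inv
  have h1 := rt_mul (itn o n b) (itn o n b)⁻¹ z
  rw [mul_inv_cancel, rt_one, h, (hb n).1] at h1
  exact h1

/-- The subgroup of the elements directed along `o o o ...` with bound `m`. -/
def BG (o : X) (m : ℕ) : Subgroup (TreeAut X) where
  carrier := {b | InB o m b}
  mul_mem' := InB.mul
  one_mem' := InB.one o m
  inv_mem' := InB.inv

/-- The union of these subgroups. -/
def BU (o : X) : Subgroup (TreeAut X) where
  carrier := {b | ∃ m, InB o m b}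
  mul_mem' := fun ⟨m, hm⟩ ⟨n, hn⟩ =>
    ⟨max m n, (hm.mono (le_max_left _ _)).mul (hn.mono (le_max_right _ _))⟩
  one_mem' := ⟨0, InB.one o 0⟩
  inv_mem' := fun ⟨m, hm⟩ => ⟨m, hm.inv⟩

theorem InB.eq_one {o : X} {m : ℕ} {b : TreeAut X} (hb : InB o m b)
    (h1 : ∀ n x, rt (itn o n b) x = x) (h2 : ∀ n z, z ≠ o → sec (itn o n b) z = 1) : b = 1 := by
  have h : ∀ w : List X, ∀ n, (itn o n b).1 w = w := by
    intro w
    induction w with
    | nil => intro n; exact apply_nil _
    | cons x w ih =>
      intro n
      rw [apply_cons', h1]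
      by_cases hx : x = o
      · subst hx
        rw [← itn_succ', ih]
      · rw [h2 n x hx]
        rfl
  apply Subtype.ext
  ext1 w
  exact h w 0

/-- The class contains the groups `BG o m`, which are locally finite. -/
theorem ClosedClass.bg {C : ∀ (G : Type) [Group G], Prop} (hC : ClosedClass C) [Finite X] (o : X)
    (m : ℕ) : C (BG o m) := by
  classical
  have hfin : Finite (Wr X (depG X m)) := by
    refine Finite.of_injective (fun a : Wr X (depG X m) => (a.p, a.s)) ?_
    intro a b hab
    exact Wr.ext (Prod.ext_iff.mp hab).1 (Prod.ext_iff.mp hab).2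
  let φ : BG o m →* (ℕ → Wr X (depG X m)) :=
    { toFun := fun b n => ⟨root (itn o n b.1),
        fun z => if h : z = o then 1 else ⟨sec (itn o n b.1) z, (b.2 n).2 z h⟩⟩
      map_one' := by
        have h1 : ∀ n, itn o n (1 : TreeAut X) = 1 := by
          intro n
          induction n with
          | zero => rfl
          | succ n ih => rw [itn_succ', ih, sec_one]
        funext n
        refine Wr.ext (Equiv.ext fun x => ?_) (funext fun x => ?_)
        · change rt (itn o n (1 : TreeAut X)) x = x
          rw [h1, rt_one]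
        · by_cases hx : x = o
          · simp [hx]
          · simp only [hx, dite_false]
            apply Subtype.ext
            change sec (itn o n (1 : TreeAut X)) x = 1
            rw [h1, sec_one]
      map_mul' := fun a b => by
        funext n
        have hab : itn o n (a.1 * b.1) = itn o n a.1 * itn o n b.1 :=
          itn_mul o n fun k => (b.2 k).1
        refine Wr.ext (Equiv.ext fun x => ?_) (funext fun x => ?_)
        · change rt (itn o n (a.1 * b.1)) x = rt (itn o n a.1) (rt (itn o n b.1) x)
          rw [hab, rt_mul]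
        · by_cases hx : x = o
          · subst hx
            have hb : rt (itn x n b.1) x = x := (b.2 n).1
            change (if h : x = x then (1 : depG X m) else _) =
              (if h : rt (itn x n b.1) x = x then (1 : depG X m) else _) *
                (if h : x = x then (1 : depG X m) else _)
            rw [dif_pos rfl, dif_pos hb, dif_pos rfl, mul_one]
          · have hx' : rt (itn o n b.1) x ≠ o := fun h =>
              hx (rt_injective _ (h.trans (b.2 n).1.symm))
            change (if h : x = o then (1 : depG X m) else _) =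
              (if h : rt (itn o n b.1) x = o then (1 : depG X m) else _) *
                (if h : x = o then (1 : depG X m) else _)
            rw [dif_neg hx, dif_neg hx', dif_neg hx]
            apply Subtype.ext
            change sec (itn o n (a.1 * b.1)) x = _
            rw [hab, sec_mul]
            rfl }
  refine hC.inj φ ((injective_iff_map_eq_one φ).mpr fun b hb => ?_) (hC.pow_finite)
  apply Subtype.ext
  refine b.2.eq_one (fun n x => ?_) (fun n z hz => ?_)
  · have := congrFun hb n
    exact DFunLike.congr_fun (congrArg Wr.p this) x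
  · have := congrFun (congrArg Wr.s (congrFun hb n)) z
    change (if h : z = o then (1 : depG X m) else _) = 1 at this
    rw [dif_neg hz] at this
    exact congrArg Subtype.val this

theorem ClosedClass.bu {C : ∀ (G : Type) [Group G], Prop} (hC : ClosedClass C) [Finite X] (o : X) :
    C (BU o) := by
  refine hC.ofUnion (fun m => (BG o m).subgroupOf (BU o)) ?_ ?_ ?_
  · intro m n hmn b hb
    exact InB.mono hmn hb
  · rintro ⟨b, m, hm⟩
    exact ⟨m, hm⟩
  · intro m
    refine hC.inj (H := BG o m)
      { toFun := fun b => ⟨b.1.1, b.2⟩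
        map_one' := rfl
        map_mul' := fun _ _ => rfl } ?_ (hC.bg o m)
    intro a b hab
    have := congrArg Subtype.val hab
    exact Subtype.ext (Subtype.ext this)

theorem ClosedClass.finG {C : ∀ (G : Type) [Group G], Prop} (hC : ClosedClass C) [Finite X] :
    C (TreeAut.finG X) := by
  refine hC.ofUnion (fun m => (depG X m).subgroupOf (TreeAut.finG X)) ?_ ?_ ?_
  · intro m n hmn b hb
    exact Dep.mono hmn hb
  · rintro ⟨b, m, hm⟩
    exact ⟨m, hm⟩
  · intro m
    refine hC.inj (H := depG X m)
      { toFun := fun b => ⟨b.1.1, b.2⟩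
        map_one' := rfl
        map_mul' := fun _ _ => rfl } ?_ (hC.finite _ inferInstance)
    intro a b hab
    have := congrArg Subtype.val hab
    exact Subtype.ext (Subtype.ext this)

/-! ### The automorphisms which move the constant ray to a given ray -/

/-- The shift of a ray. -/
def sh (ξ : ℕ → X) : ℕ → X := fun n => ξ (n + 1)

/-- The constant ray. -/
def cst (o : X) : ℕ → X := fun _ => o

section

variable (o : X)

/-- The rays other than the constant ray. -/
abbrev Rays : Type := {ξ : ℕ → X // ξ ≠ cst o}

/-- The cover. -/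
abbrev Cov : Type :=
  Monoid.Coprod (TreeAut.finG X) (Monoid.Coprod (BU o) (FreeGroup (Rays o)))

theorem ClosedClass.cov {C : ∀ (G : Type) [Group G], Prop} (hC : ClosedClass C) [Finite X] :
    C (Cov o) :=
  hC.freeProd _ _ hC.finG (hC.freeProd _ _ (hC.bu o) (hC.freeGroup _))

/-- Finitary elements. -/
def iF : TreeAut.finG X →* Cov o := Monoid.Coprod.inl

/-- Directed elements. -/
def iB : BU o →* Cov o := Monoid.Coprod.inr.comp Monoid.Coprod.inl

/-- The elements attached to the rays. -/
noncomputable def iR (ξ : ℕ → X) : Cov o :=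
  open Classical in
  if h : ξ = cst o then 1 else Monoid.Coprod.inr (Monoid.Coprod.inr (FreeGroup.of ⟨ξ, h⟩))

theorem iR_cst : iR o (cst o) = 1 := dif_pos rfl

theorem rt_BU (b : BU o) : rt b.1 o = o := by
  obtain ⟨m, hm⟩ := b.2
  exact (hm 0).1

end

variable [DecidableEq X] (o : X)

/-- The permutation of the words. -/
def hf : (ℕ → X) → List X → List X
  | _, [] => []
  | ξ, x :: w => Equiv.swap o (ξ 0) x :: (if x = o then hf (sh ξ) w else w)

/-- Its inverse. -/
def hb : (ℕ → X) → List X → List X
  | _, [] => []
  | ξ, y :: w => Equiv.swap o (ξ 0) y :: (if y = ξ 0 then hb (sh ξ) w else w)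

theorem swap_eq_iff (a x : X) : Equiv.swap o a x = a ↔ x = o := by
  constructor
  · intro h
    have := congrArg (Equiv.swap o a) h
    rwa [Equiv.swap_apply_self, Equiv.swap_apply_right] at this
  · rintro rfl
    exact Equiv.swap_apply_left _ _

theorem swap_eq_iff' (a x : X) : Equiv.swap o a x = o ↔ x = a := by
  constructor
  · intro h
    have := congrArg (Equiv.swap o a) h
    rwa [Equiv.swap_apply_self, Equiv.swap_apply_left] at this
  · rintro rfl
    exact Equiv.swap_apply_right _ _

theorem hb_hf (w : List X) : ∀ ξ, hb o ξ (hf o ξ w) = w := by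
  induction w with
  | nil => intro ξ; rfl
  | cons x w ih =>
    intro ξ
    rw [hf, hb, Equiv.swap_apply_self]
    by_cases hx : x = o
    · rw [if_pos hx, if_pos ((swap_eq_iff o _ _).mpr hx), ih]
    · rw [if_neg hx, if_neg fun h => hx ((swap_eq_iff o _ _).mp h)]

theorem hf_hb (w : List X) : ∀ ξ, hf o ξ (hb o ξ w) = w := by
  induction w with
  | nil => intro ξ; rfl
  | cons x w ih =>
    intro ξ
    rw [hb, hf, Equiv.swap_apply_self]
    by_cases hx : x = ξ 0
    · rw [if_pos hx, if_pos ((swap_eq_iff' o _ _).mpr hx), ih]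
    · rw [if_neg hx, if_neg fun h => hx ((swap_eq_iff' o _ _).mp h)]

theorem hf_length (w : List X) : ∀ ξ, (hf o ξ w).length = w.length := by
  induction w with
  | nil => intro ξ; rfl
  | cons x w ih =>
    intro ξ
    rw [hf, List.length_cons, List.length_cons]
    split_ifs
    · rw [ih]
    · rfl

theorem hf_prefix (v w : List X) : ∀ ξ, hf o ξ v <+: hf o ξ (v ++ w) := by
  induction v with
  | nil => intro ξ; exact List.nil_prefix
  | cons x v ih =>
    intro ξ
    rw [List.cons_append, hf, hf]
    refine List.cons_prefix_cons.mpr ⟨rfl, ?_⟩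
    split_ifs
    · exact ih _
    · exact List.prefix_append v w

/-- `hr ξ` moves the ray `o o o ...` to `ξ`. -/
def hr (ξ : ℕ → X) : TreeAut X :=
  ⟨⟨hf o ξ, hb o ξ, fun w => hb_hf o w ξ, fun w => hf_hb o w ξ⟩,
    fun v => hf_length o v ξ, fun v w => hf_prefix o v w ξ⟩

theorem rt_hr (ξ : ℕ → X) (x : X) : rt (hr o ξ) x = Equiv.swap o (ξ 0) x := rfl

theorem sec_hr (ξ : ℕ → X) (x : X) : sec (hr o ξ) x = if x = o then hr o (sh ξ) else 1 := by
  apply Subtype.ext
  ext1 w
  change (if x = o then hf o (sh ξ) w else w) = _
  split_ifs <;> rfl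

theorem hr_cst : hr o (cst o) = 1 := by
  have h : ∀ w : List X, hf o (cst o) w = w := by
    intro w
    induction w with
    | nil => rfl
    | cons x w ih =>
      rw [hf]
      change Equiv.swap o o x :: (if x = o then hf o (cst o) w else w) = x :: w
      rw [Equiv.swap_self, ih, ite_self]
      rfl
  apply Subtype.ext
  ext1 w
  exact h w

/-! ### The recursion of the cover -/

/-- The projection of the cover to the automorphisms. -/
def pr : Cov o →* TreeAut X :=
  Monoid.Coprod.lift (TreeAut.finG X).subtype
    (Monoid.Coprod.lift (BU o).subtype (FreeGroup.lift fun ξ => hr o ξ.1))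

@[simp] theorem pr_iF (f : TreeAut.finG X) : pr o (iF o f) = f.1 := rfl

@[simp] theorem pr_iB (b : BU o) : pr o (iB o b) = b.1 := rfl

@[simp] theorem pr_iR (ξ : ℕ → X) : pr o (iR o ξ) = hr o ξ := by
  by_cases h : ξ = cst o
  · subst h
    rw [iR_cst, map_one, hr_cst]
  · rw [iR, dif_neg h]
    simp [pr]

/-- The recursion on finitary elements. -/
def phF : TreeAut.finG X →* Wr X (Cov o) where
  toFun f := ⟨root f.1, fun x => iF o ⟨sec f.1 x, by
    obtain ⟨m, hm⟩ := f.2
    exact ⟨m, hm.sec x⟩⟩⟩
  map_one' := by
    refine Wr.ext rfl (funext fun x => ?_)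
    exact (congrArg (iF o) (Subtype.ext (sec_one x))).trans (map_one _)
  map_mul' f g := by
    refine Wr.ext (Equiv.ext fun x => rt_mul f.1 g.1 x) (funext fun x => ?_)
    change iF o _ = iF o _ * iF o _
    rw [← map_mul]
    congr 1
    exact Subtype.ext (sec_mul f.1 g.1 x)

/-- The section of directed elements at `o`. -/
def shB (b : BU o) : BU o := ⟨sec b.1 o, by
  obtain ⟨m, hm⟩ := b.2
  exact ⟨m, hm.shift⟩⟩

/-- The recursion on directed elements. -/
def phB : BU o →* Wr X (Cov o) where
  toFun b := ⟨root b.1, fun x => if h : x = o then iB o (shB o b) else iF o ⟨sec b.1 x, by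
    obtain ⟨m, hm⟩ := b.2
    exact ⟨m, (hm 0).2 x h⟩⟩⟩
  map_one' := by
    refine Wr.ext rfl (funext fun x => ?_)
    by_cases hx : x = o
    · simp only [hx, dite_true, Wr.one_s]
      exact (congrArg (iB o) (Subtype.ext (sec_one o))).trans (map_one _)
    · simp only [hx, dite_false, Wr.one_s]
      exact (congrArg (iF o) (Subtype.ext (sec_one x))).trans (map_one _)
  map_mul' b c := by
    refine Wr.ext (Equiv.ext fun x => rt_mul b.1 c.1 x) (funext fun x => ?_)
    by_cases hx : x = o
    · subst hx
      have hc : rt c.1 x = x := rt_BU x c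
      change (if h : x = x then iB x (shB x (b * c)) else _) =
        (if h : rt c.1 x = x then iB x (shB x b) else _) *
          (if h : x = x then iB x (shB x c) else _)
      rw [dif_pos rfl, dif_pos hc, dif_pos rfl, ← map_mul]
      congr 1
      apply Subtype.ext
      change sec (b.1 * c.1) x = sec b.1 x * sec c.1 x
      rw [sec_mul, hc]
    · have hx' : rt c.1 x ≠ o := fun h => hx (rt_injective _ (h.trans (rt_BU o c).symm))
      change (if h : x = o then iB o (shB o (b * c)) else _) =
        (if h : rt c.1 x = o then iB o (shB o b) else _) *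
          (if h : x = o then iB o (shB o c) else _)
      rw [dif_neg hx, dif_neg hx', dif_neg hx, ← map_mul]
      congr 1
      exact Subtype.ext (sec_mul b.1 c.1 x)

/-- The recursion on the elements attached to rays. -/
noncomputable def phR (ξ : ℕ → X) : Wr X (Cov o) :=
  ⟨Equiv.swap o (ξ 0), fun x => if x = o then iR o (sh ξ) else 1⟩

/-- The wreath recursion of the cover. -/
noncomputable def ph : Cov o →* Wr X (Cov o) :=
  Monoid.Coprod.lift (phF o) (Monoid.Coprod.lift (phB o) (FreeGroup.lift fun ξ => phR o ξ.1))

theorem ph_iF (f : TreeAut.finG X) : ph o (iF o f) = phF o f := rfl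

theorem ph_iB (b : BU o) : ph o (iB o b) = phB o b := rfl

theorem ph_iR (ξ : ℕ → X) : ph o (iR o ξ) = phR o ξ := by
  by_cases h : ξ = cst o
  · subst h
    rw [iR_cst, map_one]
    refine Wr.ext ?_ (funext fun x => ?_)
    · change 1 = Equiv.swap o o
      rw [Equiv.swap_self]
      rfl
    · change 1 = if x = o then iR o (cst o) else 1
      rw [iR_cst, ite_self]
  · rw [iR, dif_neg h]
    simp [ph]

/-- The two recursions are compatible. -/
theorem map_ph : (Wr.map (pr o)).comp (ph o) = (wr X).comp (pr o) := by
  refine Monoid.Coprod.hom_ext ?_ (Monoid.Coprod.hom_ext ?_ ?_)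
  · refine MonoidHom.ext fun f => ?_
    refine Wr.ext rfl (funext fun x => rfl)
  · refine MonoidHom.ext fun b => ?_
    refine Wr.ext rfl (funext fun x => ?_)
    change pr o (if h : x = o then iB o (shB o b) else _) = sec b.1 x
    by_cases hx : x = o
    · rw [dif_pos hx]
      subst hx
      rfl
    · rw [dif_neg hx]
      rfl
  · refine FreeGroup.ext_hom _ _ fun ξ => ?_
    refine Wr.ext ?_ (funext fun x => ?_)
    · simp [ph, pr, phR]
      rfl
    · simp only [ph, pr, phR, MonoidHom.comp_apply, Monoid.Coprod.lift_apply_inr,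
        FreeGroup.lift_apply_of, Wr.map_s, wr_s, sec_hr]
      split_ifs
      · exact pr_iR o _
      · exact map_one _

theorem ph_p (w : Cov o) : (ph o w).p = root (pr o w) :=
  congrArg Wr.p (DFunLike.congr_fun (map_ph o) w)

theorem pr_ph_s (w : Cov o) (x : X) : pr o ((ph o w).s x) = sec (pr o w) x :=
  congrFun (congrArg Wr.s (DFunLike.congr_fun (map_ph o) w)) x

end Pool.Agent.Helper29.BA
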