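import Pool.Agent.Helper29.BA.Lin

/-!
# The cover of the group of linear automorphisms
-/

set_option autoImplicit false

namespace Pool.Agent.Helper29.BA

open TreeAut Monoid

variable {X : Type} [DecidableEq X] (o : X)

/-- The group generated by the directed automorphisms. -/
abbrev P0 : Subgroup (TreeAut X) := (pr o).range

theorem finG_le_P0 : TreeAut.finG X ≤ P0 o := fun _ ⟨_, hm⟩ => Dep.mem_range o hm

theorem hr_mem (ξ : ℕ → X) : hr o ξ ∈ P0 o := ⟨iR o ξ, pr_iR o ξ⟩

theorem sec_mem {g : TreeAut X} (hg : g ∈ P0 o) (x : X) : sec g x ∈ P0 o := by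
  obtain ⟨w, rfl⟩ := hg
  exact ⟨S o w x, pr_S o w x⟩

theorem BU_le_P0 : BU o ≤ P0 o := fun b ⟨m, hm⟩ => ⟨iB o ⟨b, m, hm⟩, rfl⟩

theorem del_mem {g : TreeAut X} (hg : g ∈ P0 o) (x : X) : del x g ∈ P0 o := by
  obtain ⟨w, rfl⟩ := hg
  exact del_mem_range o x w

/-! ### Directedness of the elements of `P0` along every ray -/

theorem dir_of_nd (η : ℕ → X) (b : BU o) (ξ : ℕ → X) : ∃ m, Dir ξ m (pr o (nd o η b ξ)) := by
  obtain ⟨m, hm⟩ := b.2
  refine ⟨m, fun n => ?_⟩
  induction n generalizing η b ξ with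
  | zero =>
    intro z hz
    change Dep m (sec (pr o (nd o η b ξ)) z)
    have h1 : rt (hr o ξ)⁻¹ z ≠ o := fun h => hz (by
      rw [rt_hr_inv] at h
      exact (swap_eq_iff' o _ _).mp h)
    have h2 : rt b.1 (rt (hr o ξ)⁻¹ z) ≠ o := fun h =>
      h1 (rt_injective _ (h.trans (rt_BU o b).symm))
    rw [nd, map_mul, map_mul, map_inv, pr_iR, pr_iR, pr_iB, sec_mul, sec_mul, sec_hr, if_neg h2,
      sec_hr_inv, if_neg hz, one_mul, mul_one]
    exact (hm 0).2 _ h1
  | succ n ih =>
    intro z hz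
    change Dep m (sec (itr (sh ξ) n (sec (pr o (nd o η b ξ)) (ξ 0))) z)
    rw [← pr_S, S_nd]
    exact ih (sh η) (shB o b) (sh ξ) hm.shift z hz

theorem Dir.dep_of_ne {m : ℕ} : ∀ (j : ℕ) {ξ ζ : ℕ → X} {g : TreeAut X}, Dir ξ m g → ζ j ≠ ξ j →
    ∃ n, Dep m (itr ζ n g)
  | 0, ξ, ζ, g, h, hj => ⟨1, h 0 _ hj⟩
  | j + 1, ξ, ζ, g, h, hj => by
    by_cases h0 : ζ 0 = ξ 0
    · obtain ⟨n, hn⟩ := Dir.dep_of_ne j (ξ := sh ξ) (ζ := sh ζ) h.shift hj
      refine ⟨n + 1, ?_⟩
      change Dep m (itr (sh ζ) n (sec g (ζ 0)))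
      rw [h0]
      exact hn
    · exact ⟨1, h 0 _ h0⟩

/-- The iterated shift. -/
def shn (n : ℕ) (ξ : ℕ → X) : ℕ → X := fun k => ξ (n + k)

omit [DecidableEq X] in
theorem itr_add (m n : ℕ) (ξ : ℕ → X) (g : TreeAut X) :
    itr ξ (m + n) g = itr (shn m ξ) n (itr ξ m g) := by
  induction m generalizing ξ g with
  | zero =>
    rw [Nat.zero_add]
    have : shn 0 ξ = ξ := funext fun k => by rw [shn, Nat.zero_add]
    rw [this]
    rfl
  | succ m ih =>
    have h1 : m + 1 + n = (m + n) + 1 := by omega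
    rw [h1]
    change itr (sh ξ) (m + n) (sec g (ξ 0)) = itr (shn (m + 1) ξ) n (itr (sh ξ) m (sec g (ξ 0)))
    rw [ih]
    congr 1
    funext k
    change ξ (m + k + 1) = ξ (m + 1 + k)
    congr 1
    omega

omit [DecidableEq X] in
theorem dir_of_dep {m : ℕ} {g : TreeAut X} (h : Dep m g) (ξ : ℕ → X) : Dir ξ m g := by
  intro n z _
  rw [← secw_pre]
  exact (h.secw _).sec z

/-- Sections of elements of `P0` along any ray are eventually directed along the ray. -/
theorem exists_dir [Finite X] {g : TreeAut X} (hg : g ∈ P0 o) (ξ : ℕ → X) :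
    ∃ n m, Dir (shn n ξ) m (itr ξ n g) := by
  obtain ⟨w, rfl⟩ := hg
  obtain ⟨n, hn⟩ := ev_all o w
  have hlen : ∀ (k : ℕ) (ξ : ℕ → X), (pre ξ k).length = k := by
    intro k
    induction k with
    | zero => intro ξ; rfl
    | succ k ih => intro ξ; rw [pre, List.length_cons, ih]
  have h1 := hn (pre ξ n) (hlen n ξ).ge
  have h2 : pr o (Sw o w (pre ξ n)) = itr ξ n (pr o w) := by rw [pr_Sw, secw_pre]
  rcases h1 with ⟨f, hf⟩ | ⟨η, b, ζ, hf⟩
  · rw [hf, pr_iF] at h2
    obtain ⟨m, hm⟩ := f.2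
    exact ⟨n, m, by rw [← h2]; exact dir_of_dep hm _⟩
  · rw [hf] at h2
    obtain ⟨m, hm⟩ := dir_of_nd o η b ζ
    rw [h2] at hm
    by_cases hζ : shn n ξ = ζ
    · rw [← hζ] at hm
      exact ⟨n, m, hm⟩
    · obtain ⟨j, hj⟩ := Function.ne_iff.mp hζ
      obtain ⟨k, hk⟩ := Dir.dep_of_ne j hm hj
      refine ⟨n + k, m, ?_⟩
      rw [itr_add]
      exact dir_of_dep hk _

/-! ### The cover -/

section

variable [Finite X]

/-- The group of the elements which are directed along `o o o ...` over `P0`. -/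
abbrev B1 : Subgroup (TreeAut X) := BH o (P0 o)

/-- The inclusion of the amalgamated subgroup in `P0`. -/
def kH : BU o →* P0 o := Subgroup.inclusion (BU_le_P0 o)

/-- The inclusion of the amalgamated subgroup in `B1`. -/
def kB : BU o →* B1 o := Subgroup.inclusion (BU_le_BH o (finG_le_P0 o))

/-- The cover. -/
abbrev Cov1 : Type := Coprod (P0 o) (B1 o) ⧸ rel (kH o) (kB o) Set.univ

/-- The first factor. -/
def jH : P0 o →* Cov1 o := (QuotientGroup.mk' _).comp Coprod.inl

/-- The second factor. -/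
def jB : B1 o →* Cov1 o := (QuotientGroup.mk' _).comp Coprod.inr

theorem jH_eq_jB (l : BU o) : jH o (kH o l) = jB o (kB o l) :=
  mk_inl_eq (kH o) (kB o) (Set.mem_univ l)

/-- The shift on `B1`. -/
def shB1 (b : B1 o) : B1 o := ⟨sec b.1 o, b.2.shift⟩

omit [Finite X] in
theorem rt_B1 (b : B1 o) : rt b.1 o = o := (b.2.1 0).1

/-- The recursion on `P0`. -/
def fH : P0 o →* Wr X (Cov1 o) where
  toFun h := ⟨root h.1, fun x => jH o ⟨sec h.1 x, sec_mem o h.2 x⟩⟩
  map_one' := by
    refine Wr.ext rfl (funext fun x => ?_)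
    exact (congrArg (jH o) (Subtype.ext (sec_one x))).trans (map_one _)
  map_mul' f g := by
    refine Wr.ext (Equiv.ext fun x => rt_mul f.1 g.1 x) (funext fun x => ?_)
    change jH o _ = jH o _ * jH o _
    rw [← map_mul]
    exact congrArg (jH o) (Subtype.ext (sec_mul f.1 g.1 x))

/-- The recursion on `B1`. -/
def fB : B1 o →* Wr X (Cov1 o) where
  toFun b := ⟨root b.1, fun x => if h : x = o then jB o (shB1 o b) else
    jH o ⟨sec b.1 x, (b.2.1 0).2 x h⟩⟩
  map_one' := by
    refine Wr.ext rfl (funext fun x => ?_)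
    by_cases hx : x = o
    · simp only [hx, dite_true, Wr.one_s]
      exact (congrArg (jB o) (Subtype.ext (sec_one o))).trans (map_one _)
    · simp only [hx, dite_false, Wr.one_s]
      exact (congrArg (jH o) (Subtype.ext (sec_one x))).trans (map_one _)
  map_mul' b c := by
    refine Wr.ext (Equiv.ext fun x => rt_mul b.1 c.1 x) (funext fun x => ?_)
    by_cases hx : x = o
    · subst hx
      have hc : rt c.1 x = x := rt_B1 x c
      change (if h : x = x then jB x (shB1 x (b * c)) else _) =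
        (if h : rt c.1 x = x then jB x (shB1 x b) else _) *
          (if h : x = x then jB x (shB1 x c) else _)
      rw [dif_pos rfl, dif_pos hc, dif_pos rfl, ← map_mul]
      refine congrArg (jB x) (Subtype.ext ?_)
      change sec (b.1 * c.1) x = sec b.1 x * sec c.1 x
      rw [sec_mul, hc]
    · have hx' : rt c.1 x ≠ o := fun h => hx (rt_injective _ (h.trans (rt_B1 o c).symm))
      change (if h : x = o then jB o (shB1 o (b * c)) else _) =
        (if h : rt c.1 x = o then jB o (shB1 o b) else _) *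
          (if h : x = o then jB o (shB1 o c) else _)
      rw [dif_neg hx, dif_neg hx', dif_neg hx, ← map_mul]
      exact congrArg (jH o) (Subtype.ext (sec_mul b.1 c.1 x))

theorem f_comp (l : BU o) : fH o (kH o l) = fB o (kB o l) := by
  refine Wr.ext rfl (funext fun x => ?_)
  change jH o ⟨sec l.1 x, _⟩ = if h : x = o then jB o (shB1 o (kB o l)) else jH o ⟨sec l.1 x, _⟩
  by_cases hx : x = o
  · rw [dif_pos hx]
    subst hx
    exact jH_eq_jB x (shB x l)
  · rw [dif_neg hx]

/-- The wreath recursion. -/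
def ph1 : Cov1 o →* Wr X (Cov1 o) :=
  QuotientGroup.lift _ (Coprod.lift (fH o) (fB o)) (by
    refine Subgroup.normalClosure_le_normal (N := (Coprod.lift (fH o) (fB o)).ker) ?_
    rintro w ⟨l, -, rfl⟩
    change Coprod.lift (fH o) (fB o) _ = 1
    rw [map_mul, map_inv, Coprod.lift_apply_inl, Coprod.lift_apply_inr, f_comp, mul_inv_cancel])

/-- The projection. -/
def pr1 : Cov1 o →* TreeAut X :=
  QuotientGroup.lift _ (Coprod.lift (P0 o).subtype (B1 o).subtype) (by
    refine Subgroup.normalClosure_le_normal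
      (N := (Coprod.lift (P0 o).subtype (B1 o).subtype).ker) ?_
    rintro w ⟨l, -, rfl⟩
    change Coprod.lift (P0 o).subtype (B1 o).subtype _ = 1
    rw [map_mul, map_inv, Coprod.lift_apply_inl, Coprod.lift_apply_inr]
    exact mul_inv_cancel l.1)

@[simp] theorem pr1_jH (h : P0 o) : pr1 o (jH o h) = h.1 := rfl
@[simp] theorem pr1_jB (b : B1 o) : pr1 o (jB o b) = b.1 := rfl
theorem ph1_jH (h : P0 o) : ph1 o (jH o h) = fH o h := rfl
theorem ph1_jB (b : B1 o) : ph1 o (jB o b) = fB o b := rfl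

theorem comp1 : (Wr.map (pr1 o)).comp (ph1 o) = (TreeAut.wr X).comp (pr1 o) := by
  refine QuotientGroup.monoidHom_ext _ (Coprod.hom_ext ?_ ?_)
  · refine MonoidHom.ext fun h => ?_
    refine Wr.ext rfl (funext fun x => rfl)
  · refine MonoidHom.ext fun b => ?_
    refine Wr.ext rfl (funext fun x => ?_)
    change pr1 o (if h : x = o then jB o (shB1 o b) else _) = sec b.1 x
    by_cases hx : x = o
    · rw [dif_pos hx]
      subst hx
      rfl
    · rw [dif_neg hx]
      rfl

/-! ### The cover belongs to the class -/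

/-- The action on the words of length `n` as a homomorphism. -/
def permWH (X : Type) (n : ℕ) : TreeAut X →* Equiv.Perm (Words X n) where
  toFun := permW n
  map_one' := rfl
  map_mul' _ _ := rfl

omit [DecidableEq X] [Finite X] in
theorem permW_of_succ (o : X) {n : ℕ} {g : TreeAut X} (h : permWH X (n + 1) g = 1) :
    permWH X n g = 1 := by
  refine Equiv.ext fun v => Subtype.ext ?_
  change g.1 v.1 = v.1
  have h1 := congrArg Subtype.val
    (DFunLike.congr_fun h (⟨v.1 ++ [o], by simp [v.2]⟩ : Words X (n + 1)))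
  have h1' : g.1 (v.1 ++ [o]) = v.1 ++ [o] := h1
  have h2 := g.2.2 v.1 [o]
  rw [h1'] at h2
  have h3 := List.prefix_iff_eq_take.mp h2
  rw [g.2.1, List.take_left'] at h3
  · exact h3
  · rfl

omit [DecidableEq X] [Finite X] in
theorem permW_mono (o : X) {m n : ℕ} (hmn : m ≤ n) {g : TreeAut X} (h : permWH X n g = 1) :
    permWH X m g = 1 := by
  induction hmn with
  | refl => exact h
  | step _ ih => exact ih (permW_of_succ o h)

omit [DecidableEq X] [Finite X] in
theorem exists_level_injective (o : X) (T : Subgroup (BU o)) [Finite T] :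
    ∃ n, ∀ l ∈ T, permWH X n l.1 = 1 → l = 1 := by
  classical
  have h1 : ∀ l : T, ∃ n, permWH X n l.1.1 = 1 → l = 1 := by
    intro l
    by_contra hcon
    push Not at hcon
    refine (hcon 0).2 (Subtype.ext (Subtype.ext (Subtype.ext (Equiv.ext fun v => ?_))))
    have h2 := congrArg Subtype.val
      (DFunLike.congr_fun (hcon v.length).1 (⟨v, rfl⟩ : Words X v.length))
    exact h2
  choose N hN using h1
  have := Fintype.ofFinite T
  refine ⟨Finset.univ.sup N, fun l hl h => ?_⟩
  have h2 : permWH X (N ⟨l, hl⟩) l.1 = 1 :=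
    permW_mono o (Finset.le_sup (f := N) (Finset.mem_univ _)) h
  exact congrArg Subtype.val (hN ⟨l, hl⟩ h2)

theorem ClosedClass.cov1 {C : ∀ (G : Type) [Group G], Prop} (hC : ClosedClass C) :
    C (Cov1 o) := by
  refine hC.amalgam (kH o) (kB o) (hC.range o) (hC.bh o _ (hC.range o)) fun s => ?_
  have := closure_finite_BU o s
  obtain ⟨n, hn⟩ := exists_level_injective o (Subgroup.closure (s : Set (BU o)))
  let a : Equiv.Perm (Words X n) →* Equiv.Perm (Equiv.Perm (Words X n)) :=
    MulAction.toPermHom _ _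
  refine ⟨Equiv.Perm (Words X n), inferInstance, inferInstance,
    a.comp ((permWH X n).comp (P0 o).subtype), a.comp ((permWH X n).comp (B1 o).subtype),
    fun l => rfl, fun l hl y hy => hn l hl ?_⟩
  have h1 : permWH X n l.1 * y = y := hy
  exact mul_eq_right.mp h1

end

end Pool.Agent.Helper29.BA
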