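import Mathlib

/-!
# Classes of groups closed under the usual operations; bounded automorphisms of rooted trees
-/

set_option autoImplicit false

namespace Pool.Agent.Helper29.BA

/-- A class of groups which contains the finite groups and the infinite cyclic group and is closed
under isomorphism, subgroups, products and free products of two groups, overgroups of finite index
and directed colimits. In the last condition `L` is the colimit of the directed system `G`, `f`:
every element of `L` comes from some `G i`, and an element of `G i` becomes trivial in `L` iff it
becomes trivial in some `G j`, `j ≥ i`. -/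
structure ClosedClass (C : ∀ (G : Type) [Group G], Prop) : Prop where
  iso : ∀ (G H : Type) [Group G] [Group H], (G ≃* H) → C G → C H
  finite : ∀ (G : Type) [Group G], Finite G → C G
  int : C (Multiplicative ℤ)
  subgroup : ∀ (G : Type) [Group G] (H : Subgroup G), C G → C H
  prod : ∀ (G H : Type) [Group G] [Group H], C G → C H → C (G × H)
  freeProd : ∀ (G H : Type) [Group G] [Group H], C G → C H → C (Monoid.Coprod G H)
  finiteIndex : ∀ (G : Type) [Group G] (H : Subgroup G), H.FiniteIndex → C H → C G
  colimit : ∀ (I : Type) [Preorder I] [IsDirectedOrder I] [Nonempty I]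
    (G : I → Type) [∀ i, Group (G i)] (f : ∀ i j, i ≤ j → G i →* G j),
    (∀ i j k (h : i ≤ j) (h' : j ≤ k) x, f j k h' (f i j h x) = f i k (h.trans h') x) →
    ∀ (L : Type) [Group L] (g : ∀ i, G i →* L),
      (∀ i j (h : i ≤ j) x, g j (f i j h x) = g i x) → (∀ x, ∃ i y, g i y = x) →
      (∀ i y, g i y = 1 → ∃ j, ∃ h : i ≤ j, f i j h y = 1) → (∀ i, C (G i)) → C L

variable {X : Type}

/-- Automorphisms of the rooted tree of words over `X` (the children of a word `v` are the words
`v ++ [x]`): the permutations which preserve the length and the prefixes of words. -/
def IsTreeAut (g : Equiv.Perm (List X)) : Prop :=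
  (∀ v, (g v).length = v.length) ∧ ∀ v w, g v <+: g (v ++ w)

/-- The section of `g` at the word `v` has depth at most `m`: below `v`, `g` changes only the first
`m` letters. -/
def HasDepth (g : Equiv.Perm (List X)) (m : ℕ) (v : List X) : Prop :=
  ∀ u w, u.length = m → g (v ++ u ++ w) = g (v ++ u) ++ w

/-- Bounded automorphisms: for some `m` and `c`, all sections of finite depth have depth at most
`m`, and on each level there are at most `c` vertices where the section is not of this kind. -/
def IsBounded (g : Equiv.Perm (List X)) : Prop :=
  ∃ m c : ℕ, (∀ v, (∃ k, HasDepth g k v) → HasDepth g m v) ∧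
    ∀ n, {v | v.length = n ∧ ¬ HasDepth g m v}.ncard ≤ c

/-- Finite automata: `g` has only finitely many sections (as maps `w ↦ g (v ++ w)` without the
first `v.length` letters). -/
def IsAutomaton (g : Equiv.Perm (List X)) : Prop :=
  {f : List X → List X | ∃ v, f = fun w => (g (v ++ w)).drop v.length}.Finite

/-- At most linear activity growth: the number of vertices of level `n` with a nontrivial section
is at most `c (n + 1)`. -/
def HasLinearActivity (g : Equiv.Perm (List X)) : Prop :=
  ∃ c : ℕ, ∀ n, {v | v.length = n ∧ ¬ HasDepth g 0 v}.ncard ≤ c * (n + 1)

end Pool.Agent.Helper29.BA
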