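import Pool.Agent.Helper29.BA.Bounded
import Pool.Agent.Helper29.BA.Amalg

/-!
# Generalities: self-similar covers, groups of finite type, closure properties
-/

set_option autoImplicit false

namespace Pool.Agent.Helper29.BA

open TreeAut

variable {X : Type}

theorem ClosedClass.ofFiniteType {C : ∀ (G : Type) [Group G], Prop} (hC : ClosedClass C)
    {G K ι : Type} [Group G] [Group K] (D : G →* (ι → K)) (hD : Function.Injective D)
    (hfin : ∀ g, (Set.range (D g)).Finite) (hK : C K) : C G := by
  classical
  refine hC.ofClosure fun s => ?_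
  let τ : ι → (s → K) := fun i x => D x.1 i
  have hV : (Set.range τ).Finite := by
    refine Set.Finite.subset (Set.Finite.pi' fun x : s => hfin x.1) ?_
    rintro _ ⟨i, rfl⟩ x
    exact ⟨i, rfl⟩
  have : Finite (Set.range τ) := hV
  let φ : ((Set.range τ) → K) →* (ι → K) :=
    { toFun := fun u i => u ⟨τ i, i, rfl⟩
      map_one' := rfl
      map_mul' := fun _ _ => rfl }
  have hφ : Function.Injective φ := by
    intro u u' h
    funext ⟨_, i, rfl⟩
    exact congrFun h i
  have hle : (Subgroup.closure (s : Set G)).map D ≤ φ.range := by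
    rw [MonoidHom.map_closure, Subgroup.closure_le]
    rintro _ ⟨x, hx, rfl⟩
    exact ⟨fun y => y.1 ⟨x, hx⟩, rfl⟩
  have h1 : C φ.range := hC.iso _ _ (MonoidHom.ofInjective hφ) (hC.pi hK)
  exact hC.iso _ _ (Subgroup.equivMapOfInjective _ D hD).symm (hC.sub hle h1)

/-! ### Self-similar covers -/

section cover

variable {F : Type} [Group F] (ph : F →* Wr X F) (pr : F →* TreeAut X)

/-- Sections. -/
def gS (w : F) (x : X) : F := (ph w).s x

/-- Sections at words. -/
def gSw : F → List X → F
  | w, [] => w
  | w, x :: v => gSw (gS ph w x) v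

@[simp] theorem gSw_nil (w : F) : gSw ph w [] = w := rfl
theorem gSw_cons (w : F) (x : X) (v : List X) : gSw ph w (x :: v) = gSw ph (gS ph w x) v := rfl

theorem gSw_append (w : F) (v u : List X) : gSw ph w (v ++ u) = gSw ph (gSw ph w v) u := by
  induction v generalizing w with
  | nil => rfl
  | cons x v ih => exact ih _

theorem gS_one (x : X) : gS ph 1 x = 1 := by
  rw [gS, map_one]
  rfl

theorem gSw_one (v : List X) : gSw ph 1 v = 1 := by
  induction v with
  | nil => rfl
  | cons x v ih => rw [gSw_cons, gS_one, ih]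

variable (hcomp : (Wr.map pr).comp ph = (TreeAut.wr X).comp pr)

include hcomp

theorem g_p (w : F) : (ph w).p = root (pr w) := congrArg Wr.p (DFunLike.congr_fun hcomp w)

theorem pr_gS (w : F) (x : X) : pr (gS ph w x) = sec (pr w) x :=
  congrFun (congrArg Wr.s (DFunLike.congr_fun hcomp w)) x

theorem gS_mul (w w' : F) (x : X) :
    gS ph (w * w') x = gS ph w (rt (pr w') x) * gS ph w' x := by
  have h : (ph (w * w')) = ph w * ph w' := map_mul _ _ _
  have h2 : gS ph (w * w') x = (ph w).s ((ph w').p x) * (ph w').s x := by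
    rw [gS, h]
    rfl
  rw [h2, g_p ph pr hcomp]
  rfl

theorem gSw_mul (w w' : F) (v : List X) :
    gSw ph (w * w') v = gSw ph w ((pr w').1 v) * gSw ph w' v := by
  induction v generalizing w w' with
  | nil => rw [apply_nil]; rfl
  | cons x v ih =>
    rw [gSw_cons, gS_mul ph pr hcomp, ih, apply_cons', gSw_cons, gSw_cons, pr_gS ph pr hcomp]

theorem gSw_inv (w : F) (v : List X) : gSw ph w⁻¹ v = (gSw ph w ((pr w⁻¹).1 v))⁻¹ := by
  have h := gSw_mul ph pr hcomp w w⁻¹ v
  rw [mul_inv_cancel, gSw_one] at h
  exact (inv_eq_of_mul_eq_one_right h.symm).symm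

theorem pr_gSw (w : F) (v : List X) : pr (gSw ph w v) = secw (pr w) v := by
  induction v generalizing w with
  | nil => rfl
  | cons x v ih => rw [gSw_cons, ih, pr_gS ph pr hcomp]; rfl

/-- The level `n` of the recursion. -/
def gPs (n : ℕ) : F →* Wr (Words X n) F where
  toFun w := ⟨permW n (pr w), fun v => gSw ph w v.1⟩
  map_one' := by
    refine Wr.ext (Equiv.ext fun v => ?_) (funext fun v => ?_)
    · apply Subtype.ext
      change (pr 1).1 v.1 = v.1
      rw [map_one]
      rfl
    · exact gSw_one ph v.1
  map_mul' w w' := by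
    refine Wr.ext (Equiv.ext fun v => ?_) (funext fun v => ?_)
    · apply Subtype.ext
      change (pr (w * w')).1 v.1 = (pr w).1 ((pr w').1 v.1)
      rw [map_mul]
      rfl
    · exact gSw_mul ph pr hcomp w w' v.1

theorem gPs_eq_one_iff {n : ℕ} {w : F} :
    gPs ph pr hcomp n w = 1 ↔
      ∀ v : List X, v.length = n → (pr w).1 v = v ∧ gSw ph w v = 1 := by
  constructor
  · intro h v hv
    refine ⟨?_, ?_⟩
    · have h1 := DFunLike.congr_fun (congrArg Wr.p h) (⟨v, hv⟩ : Words X n)
      exact congrArg Subtype.val h1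
    · exact congrFun (congrArg Wr.s h) (⟨v, hv⟩ : Words X n)
  · intro h
    refine Wr.ext (Equiv.ext fun v => ?_) (funext fun v => ?_)
    · exact Subtype.ext (h v.1 v.2).1
    · exact (h v.1 v.2).2

theorem gPs_succ {n : ℕ} {w : F} (h : gPs ph pr hcomp n w = 1) :
    gPs ph pr hcomp (n + 1) w = 1 := by
  rw [gPs_eq_one_iff] at h ⊢
  intro v hv
  have h1 : (v.take n).length = n := by
    rw [List.length_take]
    omega
  obtain ⟨h2, h3⟩ := h _ h1
  have h4 : v = v.take n ++ v.drop n := (List.take_append_drop n v).symm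
  rw [h4, apply_append, ← pr_gSw ph pr hcomp, gSw_append, h2, h3, map_one, gSw_one]
  exact ⟨rfl, rfl⟩

theorem pr_of_gPs (o : X) {n : ℕ} {w : F} (h : gPs ph pr hcomp n w = 1) : pr w = 1 := by
  have h' : ∀ k, gPs ph pr hcomp (n + k) w = 1 := by
    intro k
    induction k with
    | zero => exact h
    | succ k ih => exact gPs_succ ph pr hcomp ih
  apply Subtype.ext
  ext1 v
  have h1 := ((gPs_eq_one_iff ph pr hcomp).mp (h' v.length) (v ++ List.replicate n o)
    (by simp [add_comm])).1
  have h2 := (pr w).2.2 v (List.replicate n o)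
  rw [h1] at h2
  have h3 := List.prefix_iff_eq_take.mp h2
  rw [(pr w).2.1, List.take_left'] at h3
  · exact h3
  · rfl

/-- The class contains the image of a cover, if the elements of its kernel die at some level. -/
theorem ClosedClass.range_of_cover {C : ∀ (G : Type) [Group G], Prop} (hC : ClosedClass C)
    [Finite X] (o : X) (hF : C F)
    (hker : ∀ w, pr w = 1 → ∃ n, ∀ v : List X, v.length = n → gSw ph w v = 1) :
    C pr.range := by
  refine hC.ofKer pr.rangeRestrict pr.rangeRestrict_surjective (gPs ph pr hcomp) ?_ ?_ ?_ ?_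
  · intro n w hw
    exact gPs_succ ph pr hcomp hw
  · intro n w hw
    exact Subtype.ext (pr_of_gPs ph pr hcomp o hw)
  · intro w hw
    have h1 : pr w = 1 := congrArg Subtype.val hw
    obtain ⟨n, hn⟩ := hker w h1
    refine ⟨n, (gPs_eq_one_iff ph pr hcomp).mpr fun v hv => ?_⟩
    rw [h1]
    exact ⟨rfl, hn v hv⟩
  · intro n
    exact hC.wr hF

end cover

/-! ### Subgroups closed under the operations `del` -/

section del

variable [DecidableEq X] (M : Subgroup (TreeAut X)) (hfin : TreeAut.finG X ≤ M)
  (hdel : ∀ x, ∀ g ∈ M, del x g ∈ M)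

include hfin hdel

theorem mem_of_sec_aux (T : Finset X) : ∀ g : TreeAut X, (∀ x, sec g x ∈ M) →
    (∀ x, x ∉ T → sec g x = 1) → g ∈ M := by
  induction T using Finset.induction_on with
  | empty =>
    intro g _ h
    exact hfin ⟨1, fun x => h x (by simp)⟩
  | insert a T ha ih =>
    intro g hg h
    have h1 : g * (del a (sec g a))⁻¹ ∈ M := by
      have hr1 : ∀ x, rt (del a (sec g a))⁻¹ x = x := fun x => rt_inv_of_fix (rt_del _ _ _)
      have hs : ∀ x, sec (g * (del a (sec g a))⁻¹) x = if x = a then 1 else sec g x := by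
        intro x
        rw [sec_mul, hr1, sec_inv, hr1, sec_del]
        split_ifs with hx
        · rw [hx, mul_inv_cancel]
        · rw [inv_one, mul_one]
      refine ih _ (fun x => ?_) (fun x hx => ?_)
      · rw [hs]
        split_ifs
        · exact one_mem _
        · exact hg x
      · rw [hs]
        split_ifs with hxa
        · rfl
        · exact h x (by simp [hxa, hx])
    have := mul_mem h1 (hdel a _ (hg a))
    rwa [inv_mul_cancel_right] at this

theorem mem_of_sec [Finite X] {g : TreeAut X} (h : ∀ x, sec g x ∈ M) : g ∈ M := by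
  have := Fintype.ofFinite X
  exact mem_of_sec_aux M hfin hdel Finset.univ g h fun x hx => absurd (Finset.mem_univ x) hx

theorem mem_of_secw [Finite X] (n : ℕ) : ∀ {g : TreeAut X},
    (∀ v : List X, v.length = n → secw g v ∈ M) → g ∈ M := by
  induction n with
  | zero => intro g h; exact h [] rfl
  | succ n ih =>
    intro g h
    refine mem_of_sec M hfin hdel fun x => ih fun v hv => ?_
    exact h (x :: v) (by simp [hv])

end del

/-! ### Trees with boundedly many vertices on each level -/

/-- The prefixes of a ray. -/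
def pre (ξ : ℕ → X) : ℕ → List X
  | 0 => []
  | n + 1 => ξ 0 :: pre (sh ξ) n

theorem secw_pre (ξ : ℕ → X) (n : ℕ) (g : TreeAut X) : secw g (pre ξ n) = itr ξ n g := by
  induction n generalizing ξ g with
  | zero => rfl
  | succ n ih => exact ih _ _

/-- A tree of words without leaves and with a bounded number of vertices on each level
consists of rays from some level on. -/
theorem exists_rays [Finite X] (o : X) (Bd : List X → Prop) (h1 : ∀ v, Bd v → ∃ x, Bd (v ++ [x]))
    (h2 : ∀ v x, Bd (v ++ [x]) → Bd v) {c : ℕ} (h3 : ∀ n, {v | v.length = n ∧ Bd v}.ncard ≤ c) :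
    ∃ n, ∀ v : List X, v.length = n → ¬ Bd v ∨
      ∃ ξ : ℕ → X, ∀ j z, z ≠ ξ j → ¬ Bd (v ++ pre ξ j ++ [z]) := by
  classical
  have : Nonempty X := ⟨o⟩
  let T : ℕ → Set (List X) := fun n => {v | v.length = n ∧ Bd v}
  have hfin : ∀ n, (T n).Finite := fun n =>
    (List.finite_length_eq X n).subset fun v hv => hv.1
  have hT : ∀ n v, v ∈ T n → ∃ x, v ++ [x] ∈ T (n + 1) := by
    rintro n v ⟨hv, hv'⟩
    obtain ⟨x, hx⟩ := h1 v hv'
    exact ⟨x, by simp [hv], hx⟩
  obtain ⟨n, hn⟩ := exists_stable h3
  have hmono : ∀ k, (T k).ncard ≤ (T (k + 1)).ncard := by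
    intro k
    choose! f hf using hT k
    refine Set.ncard_le_ncard_of_injOn (fun v => v ++ [f v]) hf ?_ (hfin _)
    intro v _ w _ hvw
    exact (List.append_inj' hvw rfl).1
  have hge : ∀ k, (T n).ncard ≤ (T (n + k)).ncard := by
    intro k
    induction k with
    | zero => exact le_rfl
    | succ k ih => exact ih.trans (hmono _)
  have huniq : ∀ v x y, n ≤ v.length → Bd (v ++ [x]) → Bd (v ++ [y]) → x = y := by
    intro v x y hvn hx hy
    by_contra hxy
    obtain ⟨k, hk⟩ := Nat.exists_eq_add_of_le hvn
    have hv : v ∈ T (n + k) := ⟨hk, h2 v x hx⟩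
    have hx' : v ++ [x] ∈ T (n + k + 1) := ⟨by simp [hk], hx⟩
    have hy' : v ++ [y] ∈ T (n + k + 1) := ⟨by simp [hk], hy⟩
    choose! f hf using hT (n + k)
    let f' : List X → List X := fun w => if w = v then v ++ [x] else w ++ [f w]
    have hle : (T (n + k)).ncard ≤ (T (n + k + 1) \ {v ++ [y]}).ncard := by
      refine Set.ncard_le_ncard_of_injOn f' ?_ ?_ ((hfin _).subset Set.sdiff_subset)
      · intro w hw
        by_cases hwv : w = v
        · subst hwv
          simp only [f', if_pos rfl]
          refine ⟨hx', fun h => hxy ?_⟩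
          have := (List.append_inj' (h : w ++ [x] = w ++ [y]) rfl).2
          simpa using this
        · simp only [f', if_neg hwv]
          refine ⟨hf w hw, fun h => hwv ?_⟩
          exact (List.append_inj' (h : w ++ [f w] = v ++ [y]) rfl).1
      · intro w hw w' hw' hww
        have e : ∀ u, f' u = u ++ [if u = v then x else f u] := by
          intro u
          by_cases hu : u = v
          · simp [f', hu]
          · simp [f', hu]
        simp only [e] at hww
        exact (List.append_inj' hww rfl).1
    have hlt : (T (n + k + 1) \ {v ++ [y]}).ncard < (T (n + k + 1)).ncard :=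
      Set.ncard_sdiff_singleton_lt_of_mem hy' (hfin _)
    have h4 := hn (n + k + 1)
    have h5 := hge k
    have h6 : (T (n + k + 1)).ncard ≤ (T n).ncard := h4
    omega
  refine ⟨n, fun v hv => ?_⟩
  by_cases hd : Bd v
  · refine Or.inr ?_
    choose! nx hnx using h1
    let st : List X → ℕ → List X := fun v j => (fun w => w ++ [nx w])^[j] v
    let ray : List X → ℕ → X := fun v j => nx (st v j)
    have hbd : ∀ j, Bd (st v j) ∧ n ≤ (st v j).length := by
      intro j
      induction j with
      | zero => exact ⟨hd, hv.ge⟩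
      | succ j ih =>
        have e : st v (j + 1) = st v j ++ [nx (st v j)] := Function.iterate_succ_apply' _ _ _
        rw [e]
        exact ⟨hnx _ ih.1, by simp; omega⟩
    have hst : ∀ j w, st w j = w ++ pre (ray w) j := by
      intro j
      induction j with
      | zero => intro w; simp [st, pre]
      | succ j ih =>
        intro w
        have e1 : st w (j + 1) = st (w ++ [nx w]) j := rfl
        have e2 : pre (ray w) (j + 1) = nx w :: pre (ray (w ++ [nx w])) j := rfl
        rw [e1, e2, ih]
        simp
    refine ⟨ray v, fun j z hz hbz => hz ?_⟩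
    rw [← hst] at hbz
    exact huniq (st v j) z (ray v j) (hbd j).2 hbz (hnx _ (hbd j).1)
  · exact Or.inl hd

end Pool.Agent.Helper29.BA
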