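import Pool.Agent.Helper29.BA.Gen

/-!
# Automorphisms directed over the group of bounded automorphisms
-/

set_option autoImplicit false

namespace Pool.Agent.Helper29.BA

open TreeAut Monoid

variable {X : Type}

/-! ### Directed elements over a subgroup `H` -/

/-- `b` fixes the ray `o o o ...`, its sections off this ray are in `H` and are finitely many. -/
def InBH (o : X) (H : Subgroup (TreeAut X)) (b : TreeAut X) : Prop :=
  (∀ n, rt (itn o n b) o = o ∧ ∀ z, z ≠ o → sec (itn o n b) z ∈ H) ∧
    {k | ∃ n z, z ≠ o ∧ k = sec (itn o n b) z}.Finite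

theorem InBH.shift {o : X} {H : Subgroup (TreeAut X)} {b : TreeAut X} (hb : InBH o H b) :
    InBH o H (sec b o) :=
  ⟨fun n => hb.1 (n + 1), hb.2.subset fun _ ⟨n, z, hz, hk⟩ => ⟨n + 1, z, hz, hk⟩⟩

theorem itn_one (o : X) (n : ℕ) : itn o n (1 : TreeAut X) = 1 := by
  induction n with
  | zero => rfl
  | succ n ih => rw [itn_succ', ih, sec_one]

theorem InBH.one (o : X) (H : Subgroup (TreeAut X)) : InBH o H (1 : TreeAut X) := by
  refine ⟨fun n => ?_, ?_⟩
  · rw [itn_one]
    exact ⟨rfl, fun z _ => by rw [sec_one]; exact one_mem _⟩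
  · refine (Set.finite_singleton (1 : TreeAut X)).subset ?_
    rintro k ⟨n, z, -, rfl⟩
    rw [itn_one, sec_one]
    rfl

theorem InBH.mul {o : X} {H : Subgroup (TreeAut X)} {a b : TreeAut X} (ha : InBH o H a)
    (hb : InBH o H b) : InBH o H (a * b) := by
  have hne : ∀ n z, z ≠ o → rt (itn o n b) z ≠ o := fun n z hz h =>
    hz (rt_injective _ (h.trans (hb.1 n).1.symm))
  refine ⟨fun n => ?_, ?_⟩
  · rw [itn_mul o n fun k => (hb.1 k).1]
    refine ⟨?_, fun z hz => ?_⟩
    · rw [rt_mul, (hb.1 n).1, (ha.1 n).1]
    · rw [sec_mul]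
      exact mul_mem ((ha.1 n).2 _ (hne n z hz)) ((hb.1 n).2 z hz)
  · refine (Set.Finite.image2 (fun x y => x * y) ha.2 hb.2).subset ?_
    rintro k ⟨n, z, hz, rfl⟩
    rw [itn_mul o n fun k => (hb.1 k).1, sec_mul]
    exact ⟨_, ⟨n, _, hne n z hz, rfl⟩, _, ⟨n, z, hz, rfl⟩, rfl⟩

theorem InBH.inv {o : X} {H : Subgroup (TreeAut X)} {b : TreeAut X} (hb : InBH o H b) :
    InBH o H b⁻¹ := by
  have hne : ∀ n z, z ≠ o → rt (itn o n b)⁻¹ z ≠ o := fun n z hz h => by
    have h1 := rt_mul (itn o n b) (itn o n b)⁻¹ z
    rw [mul_inv_cancel, rt_one, h, (hb.1 n).1] at h1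
    exact hz h1
  refine ⟨fun n => ?_, ?_⟩
  · rw [itn_inv o n fun k => (hb.1 k).1]
    refine ⟨rt_inv_of_fix (hb.1 n).1, fun z hz => ?_⟩
    rw [sec_inv]
    exact inv_mem ((hb.1 n).2 _ (hne n z hz))
  · refine (hb.2.image fun x => x⁻¹).subset ?_
    rintro k ⟨n, z, hz, rfl⟩
    rw [itn_inv o n fun k => (hb.1 k).1, sec_inv]
    exact ⟨_, ⟨n, _, hne n z hz, rfl⟩, rfl⟩

/-- The group of these elements. -/
def BH (o : X) (H : Subgroup (TreeAut X)) : Subgroup (TreeAut X) where
  carrier := {b | InBH o H b}
  mul_mem' := InBH.mul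
  one_mem' := InBH.one o H
  inv_mem' := InBH.inv

theorem BU_le_BH [Finite X] (o : X) {H : Subgroup (TreeAut X)} (hH : TreeAut.finG X ≤ H) :
    BU o ≤ BH o H := by
  rintro b ⟨m, hm⟩
  refine ⟨fun n => ⟨(hm n).1, fun z hz => hH ⟨m, (hm n).2 z hz⟩⟩, ?_⟩
  have hfin : Set.Finite {k : TreeAut X | Dep m k} := (finite_depG (X := X) m)
  refine hfin.subset ?_
  rintro k ⟨n, z, hz, rfl⟩
  exact (hm n).2 z hz

/-- The local data of a directed element. -/
def locData [DecidableEq X] (o : X) (H : Subgroup (TreeAut X)) : BH o H →* (ℕ → Wr X H) :=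
  { toFun := fun b n => ⟨root (itn o n b.1),
      fun z => if h : z = o then 1 else ⟨sec (itn o n b.1) z, (b.2.1 n).2 z h⟩⟩
    map_one' := by
      funext n
      refine Wr.ext (Equiv.ext fun x => ?_) (funext fun x => ?_)
      · change rt (itn o n (1 : TreeAut X)) x = x
        rw [itn_one, rt_one]
      · by_cases hx : x = o
        · simp [hx]
        · simp only [hx, dite_false]
          apply Subtype.ext
          change sec (itn o n (1 : TreeAut X)) x = 1
          rw [itn_one, sec_one]
    map_mul' := fun a b => by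
      funext n
      have hab : itn o n (a.1 * b.1) = itn o n a.1 * itn o n b.1 :=
        itn_mul o n fun k => (b.2.1 k).1
      refine Wr.ext (Equiv.ext fun x => ?_) (funext fun x => ?_)
      · change rt (itn o n (a.1 * b.1)) x = rt (itn o n a.1) (rt (itn o n b.1) x)
        rw [hab, rt_mul]
      · by_cases hx : x = o
        · subst hx
          have hb : rt (itn x n b.1) x = x := (b.2.1 n).1
          change (if h : x = x then (1 : H) else _) =
            (if h : rt (itn x n b.1) x = x then (1 : H) else _) *
              (if h : x = x then (1 : H) else _)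
          rw [dif_pos rfl, dif_pos hb, dif_pos rfl, mul_one]
        · have hx' : rt (itn o n b.1) x ≠ o := fun h =>
            hx (rt_injective _ (h.trans (b.2.1 n).1.symm))
          change (if h : x = o then (1 : H) else _) =
            (if h : rt (itn o n b.1) x = o then (1 : H) else _) *
              (if h : x = o then (1 : H) else _)
          rw [dif_neg hx, dif_neg hx', dif_neg hx]
          apply Subtype.ext
          change sec (itn o n (a.1 * b.1)) x = _
          rw [hab, sec_mul]
          rfl }

theorem eq_one_of_itn {o : X} {b : TreeAut X} (h1 : ∀ n x, rt (itn o n b) x = x)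
    (h2 : ∀ n z, z ≠ o → sec (itn o n b) z = 1) : b = 1 := by
  have h : ∀ w : List X, ∀ n, (itn o n b).1 w = w := by
    intro w
    induction w with
    | nil => intro n; exact apply_nil _
    | cons x w ih =>
      intro n
      rw [apply_cons', h1]
      by_cases hx : x = o
      · subst hx
        rw [← itn_succ', ih]
      · rw [h2 n x hx]
        rfl
  apply Subtype.ext
  ext1 w
  exact h w 0

theorem locData_injective [DecidableEq X] (o : X) (H : Subgroup (TreeAut X)) :
    Function.Injective (locData o H) := by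
  refine (injective_iff_map_eq_one _).mpr fun b hb => ?_
  apply Subtype.ext
  refine eq_one_of_itn (o := o) (fun n x => ?_) (fun n z hz => ?_)
  · exact DFunLike.congr_fun (congrArg Wr.p (congrFun hb n)) x
  · have := congrFun (congrArg Wr.s (congrFun hb n)) z
    change (if h : z = o then (1 : H) else _) = 1 at this
    rw [dif_neg hz] at this
    exact congrArg Subtype.val this

theorem locData_finite [DecidableEq X] [Finite X] (o : X) (H : Subgroup (TreeAut X)) (b : BH o H) :
    (Set.range (locData o H b)).Finite := by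
  -- the permutation and the sections take finitely many values
  let K : Set H := {k | k.1 ∈ insert 1 {k | ∃ n z, z ≠ o ∧ k = sec (itn o n b.1) z}}
  have hK : K.Finite := by
    refine Set.Finite.preimage (Subtype.val_injective.injOn) ?_
    exact b.2.2.insert 1
  have h1 : (Set.univ : Set (Equiv.Perm X)).Finite := Set.finite_univ
  have h2 : {f : X → H | ∀ x, f x ∈ K}.Finite := Set.Finite.pi' fun _ => hK
  refine ((h1.prod h2).image fun q : Equiv.Perm X × (X → H) => (⟨q.1, q.2⟩ : Wr X H)).subset ?_
  rintro _ ⟨n, rfl⟩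
  refine ⟨((locData o H b n).p, (locData o H b n).s), ⟨Set.mem_univ _, fun x => ?_⟩, rfl⟩
  by_cases hx : x = o
  · left
    change (if h : x = o then (1 : H) else _).1 = 1
    rw [dif_pos hx]
    rfl
  · right
    refine ⟨n, x, hx, ?_⟩
    change (if h : x = o then (1 : H) else _).1 = _
    rw [dif_neg hx]

theorem ClosedClass.bh {C : ∀ (G : Type) [Group G], Prop} (hC : ClosedClass C) [Finite X] (o : X)
    (H : Subgroup (TreeAut X)) (hH : C H) : C (BH o H) := by
  classical
  exact hC.ofFiniteType (locData o H) (locData_injective o H) (locData_finite o H) (hC.wr hH)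

/-! ### Local finiteness of `BU o` -/

theorem closure_finite_pow {K ι : Type} [Group K] [Finite K] (s : Finset (ι → K)) :
    Finite (Subgroup.closure (s : Set (ι → K))) := by
  classical
  let τ : ι → (s → K) := fun i x => x.1 i
  let φ : ((s → K) → K) →* (ι → K) :=
    { toFun := fun u i => u (τ i)
      map_one' := rfl
      map_mul' := fun _ _ => rfl }
  have hle : Subgroup.closure (s : Set (ι → K)) ≤ φ.range := by
    rw [Subgroup.closure_le]
    intro x hx
    exact ⟨fun y => y ⟨x, hx⟩, rfl⟩
  have : Finite φ.range := Finite.of_surjective _ φ.rangeRestrict_surjective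
  exact Finite.of_injective (Subgroup.inclusion hle) (Subgroup.inclusion_injective hle)

theorem closure_finite_of_injective {G H : Type} [Group G] [Group H] (φ : G →* H)
    (hφ : Function.Injective φ) (h : ∀ s : Finset H, Finite (Subgroup.closure (s : Set H)))
    (s : Finset G) : Finite (Subgroup.closure (s : Set G)) := by
  classical
  have h1 := h (s.image φ)
  have h2 : (Subgroup.closure (s : Set G)).map φ = Subgroup.closure ((s.image φ : Finset H) : Set H) := by
    rw [MonoidHom.map_closure, Finset.coe_image]
  rw [← h2] at h1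
  exact Finite.of_equiv _ (Subgroup.equivMapOfInjective _ φ hφ).symm.toEquiv

theorem closure_finite_BG [Finite X] (o : X) (m : ℕ) (s : Finset (BG o m)) :
    Finite (Subgroup.closure (s : Set (BG o m))) := by
  classical
  have hfin : Finite (Wr X (depG X m)) := by
    refine Finite.of_injective (fun a : Wr X (depG X m) => (a.p, a.s)) ?_
    intro a b hab
    exact Wr.ext (Prod.ext_iff.mp hab).1 (Prod.ext_iff.mp hab).2
  have hle : BG o m ≤ BH o (depG X m) := by
    intro b hb
    refine ⟨fun n => ⟨(hb n).1, fun z hz => (hb n).2 z hz⟩, ?_⟩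
    have hfin : Set.Finite {k : TreeAut X | Dep m k} := (finite_depG (X := X) m)
    refine hfin.subset ?_
    rintro k ⟨n, z, hz, rfl⟩
    exact (hb n).2 z hz
  refine closure_finite_of_injective
    ((locData o (depG X m)).comp (Subgroup.inclusion hle)) ?_ (closure_finite_pow) s
  exact (locData_injective o _).comp (Subgroup.inclusion_injective hle)

theorem closure_finite_BU [Finite X] (o : X) (s : Finset (BU o)) :
    Finite (Subgroup.closure (s : Set (BU o))) := by
  classical
  -- a common bound for the elements of `s`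
  have hm : ∃ m, ∀ b ∈ s, InB o m b.1 := by
    choose f hf using fun b : BU o => b.2
    exact ⟨s.sup f, fun b hb => (hf b).mono (Finset.le_sup hb)⟩
  obtain ⟨m, hm⟩ := hm
  have hle : Subgroup.closure (s : Set (BU o)) ≤ (BG o m).subgroupOf (BU o) := by
    rw [Subgroup.closure_le]
    exact fun b hb => hm b hb
  -- the image in `BG o m`
  let ψ : (BG o m).subgroupOf (BU o) →* BG o m :=
    { toFun := fun b => ⟨b.1.1, b.2⟩
      map_one' := rfl
      map_mul' := fun _ _ => rfl }
  have hψ : Function.Injective ψ := by
    intro a b hab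
    have := congrArg Subtype.val hab
    exact Subtype.ext (Subtype.ext this)
  let t : Finset ((BG o m).subgroupOf (BU o)) := s.attach.image fun b => ⟨b.1, hm b.1 b.2⟩
  have h1 := closure_finite_of_injective ψ hψ (closure_finite_BG o m) t
  have h2 : (Subgroup.closure (t : Set ((BG o m).subgroupOf (BU o)))).map
      ((BG o m).subgroupOf (BU o)).subtype = Subgroup.closure (s : Set (BU o)) := by
    rw [MonoidHom.map_closure]
    congr 1
    ext b
    constructor
    · rintro ⟨c, hc, rfl⟩
      obtain ⟨d, -, rfl⟩ := Finset.mem_image.mp hc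
      exact d.2
    · intro hb
      exact ⟨⟨b, hm b hb⟩, Finset.mem_image.mpr ⟨⟨b, hb⟩, Finset.mem_attach _ _, rfl⟩, rfl⟩
  rw [← h2]
  exact Finite.of_equiv _
    (Subgroup.equivMapOfInjective _ _ Subtype.val_injective).toEquiv

end Pool.Agent.Helper29.BA
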