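import Pool.Agent.Helper29.BA.Auto

/-!
# The class contains the groups of bounded and of linear automorphisms
-/

set_option autoImplicit false

namespace Pool.Agent.Helper29.BA

open TreeAut

variable {X : Type}

theorem finite_states {g : TreeAut X} (hg : IsAutomaton g.1) :
    {k : TreeAut X | ∃ v, k = secw g v}.Finite := by
  have hinj : Function.Injective fun k : TreeAut X => (k.1 : List X → List X) := by
    intro a b hab
    exact Subtype.ext (Equiv.ext fun w => congrFun hab w)
  refine Set.Finite.of_finite_image (hg.subset ?_) (hinj.injOn (s := _))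
  rintro _ ⟨k, ⟨v, rfl⟩, rfl⟩
  refine ⟨v, funext fun w => ?_⟩
  change (secw g v).1 w = _
  rw [apply_append, List.drop_left']
  exact g.2.1 v

theorem secw_snoc (g : TreeAut X) (v : List X) (x : X) :
    secw g (v ++ [x]) = sec (secw g v) x := by
  rw [secw_append]
  rfl

/-- Bound for the number of the vertices whose sections have unbounded activity. -/
theorem card_unbounded [Finite X] {g : TreeAut X} (hg : IsAutomaton g.1) {c : ℕ}
    (hc : ∀ n, (lev g n).ncard ≤ c * (n + 1)) (n : ℕ) :
    {v | v.length = n ∧ ¬ BN (secw g v)}.ncard ≤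
      c * {k : TreeAut X | ∃ v, k = secw g v}.ncard := by
  classical
  set Q : Set (TreeAut X) := {k : TreeAut X | ∃ v, k = secw g v} with hQdef
  have hQ : Q.Finite := finite_states hg
  have hsec : ∀ k ∈ Q, ∀ x, sec k x ∈ Q := by
    rintro _ ⟨v, rfl⟩ x
    exact ⟨v ++ [x], (secw_snoc g v x).symm⟩
  set N := Q.ncard
  set U : Set (List X) := {v | v.length = n ∧ ¬ BN (secw g v)} with hU
  have hUfin : U.Finite := (List.finite_length_eq X n).subset fun v hv => hv.1
  have key : ∀ j, U.ncard * j ≤ c * (n + j * N + 1) := by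
    intro j
    have h1 : ∀ v ∈ U, ∃ e : Fin j → List X, Function.Injective e ∧
        ∀ i, e i ∈ lev (secw g v) (j * N) := by
      intro v hv
      have h2 : j ≤ (lev (secw g v) (j * N)).ncard := le_lev hQ hsec ⟨v, rfl⟩ hv.2 j
      rw [Set.ncard_eq_toFinset_card _ (lev_finite _ _)] at h2
      obtain ⟨t, ht, htc⟩ := Finset.exists_subset_card_eq h2
      let e := (t.equivFinOfCardEq htc).symm
      refine ⟨fun i => (e i).1, fun a b hab => e.injective (Subtype.ext hab), fun i => ?_⟩
      simpa using ht (e i).2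
    choose! e he1 he2 using h1
    have h3 : (hUfin.toFinset ×ˢ (Finset.univ : Finset (Fin j))).card ≤
        (lev_finite g (n + j * N)).toFinset.card := by
      refine Finset.card_le_card_of_injOn (fun q => q.1 ++ e q.1 q.2) ?_ ?_
      · rintro ⟨v, i⟩ hq
        have hv : v ∈ U := by simpa using hq
        have := (lev_append (k := g) (m := j * N) (u := e v i) hv.1).mpr (he2 v hv i)
        simpa using this
      · rintro ⟨v, i⟩ hq ⟨v', i'⟩ hq' hvv
        have hv : v ∈ U := by simpa using hq
        have hv' : v' ∈ U := by simpa using hq'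
        have h4 := List.append_inj (hvv : v ++ e v i = v' ++ e v' i') (hv.1.trans hv'.1.symm)
        have h5 : v = v' := h4.1
        have h6 : e v i = e v' i' := h4.2
        subst h5
        have h7 : i = i' := he1 v hv h6
        rw [h7]
    rw [Finset.card_product, Finset.card_univ, Fintype.card_fin,
      ← Set.ncard_eq_toFinset_card _ hUfin, ← Set.ncard_eq_toFinset_card _ (lev_finite g _)] at h3
    exact h3.trans (hc _)
  by_contra hcon
  push Not at hcon
  have h1 := key (c * (n + 1) + 1)
  have h2 : (c * N + 1) * (c * (n + 1) + 1) ≤ U.ncard * (c * (n + 1) + 1) :=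
    Nat.mul_le_mul_right _ hcon
  nlinarith

theorem mem_P0_of_BN [Finite X] [DecidableEq X] (o : X) {Q : Set (TreeAut X)} (hQ : Q.Finite)
    (hsecw : ∀ k ∈ Q, ∀ v, secw k v ∈ Q) {k : TreeAut X} (hk : k ∈ Q) (hb : BN k) :
    k ∈ P0 o := by
  classical
  obtain ⟨b, hb⟩ := hb
  have h1 : ∃ m, ∀ q ∈ Q, (∃ j, Dep j q) → Dep m q := by
    have h2 : ∀ q : TreeAut X, ∃ j, (∃ i, Dep i q) → Dep j q := by
      intro q
      by_cases h : ∃ i, Dep i q
      · exact ⟨h.choose, fun _ => h.choose_spec⟩
      · exact ⟨0, fun h' => absurd h' h⟩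
    choose f hf using h2
    refine ⟨hQ.toFinset.sup f, fun q hq h => (hf q h).mono ?_⟩
    exact Finset.le_sup (f := f) (by simpa using hq)
  obtain ⟨m, hm⟩ := h1
  refine IsBounded.mem_range o ⟨m, b, fun v hv => ?_, fun n => ?_⟩
  · simp only [hasDepth_iff] at hv ⊢
    exact hm _ (hsecw k hk v) hv
  · refine le_trans (Set.ncard_le_ncard ?_ (lev_finite k n)) (hb n)
    rintro v ⟨hv1, hv2⟩
    refine ⟨hv1, fun h => hv2 ?_⟩
    rw [hasDepth_iff]
    exact hm _ (hsecw k hk v) h

theorem mem_P1_of_linear [Finite X] [DecidableEq X] (o : X) {g : TreeAut X}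
    (hg : IsAutomaton g.1) (hl : HasLinearActivity g.1) : g ∈ P1 o := by
  classical
  obtain ⟨c, hc⟩ := hl
  have hc' : ∀ n, (lev g n).ncard ≤ c * (n + 1) := by
    intro n
    refine le_trans (Set.ncard_le_ncard ?_
      ((List.finite_length_eq X n).subset fun v hv => hv.1)) (hc n)
    rintro v ⟨hv1, hv2⟩
    refine ⟨hv1, fun h => hv2 ⟨0, ?_⟩⟩
    exact hasDepth_iff.mp h
  set Q : Set (TreeAut X) := {k : TreeAut X | ∃ v, k = secw g v} with hQdef
  have hQ : Q.Finite := finite_states hg
  have hsecw : ∀ k ∈ Q, ∀ v, secw k v ∈ Q := by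
    rintro _ ⟨u, rfl⟩ v
    exact ⟨u ++ v, (secw_append g u v).symm⟩
  obtain ⟨n, hn⟩ := exists_rays o (fun v => ¬ BN (secw g v))
    (fun v hv => by
      by_contra hcon
      push Not at hcon
      exact hv (BN.of_sec fun x => by rw [← secw_snoc]; exact hcon x))
    (fun v x hv hb => hv (by rw [secw_snoc]; exact hb.sec x))
    (card_unbounded hg hc')
  refine mem1_of_secw o n fun v hv => ?_
  rcases hn v hv with h1 | ⟨ξ, h1⟩
  · rw [not_not] at h1
    exact P0_le_P1 o (mem_P0_of_BN o hQ hsecw ⟨v, rfl⟩ h1)
  · have h2 : ∀ j z, sec (itr ξ j (secw g v)) z = secw g (v ++ pre ξ j ++ [z]) := by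
      intro j z
      rw [secw_snoc, secw_append, secw_pre]
    refine Dir1.mem o (ξ := ξ) ⟨fun j z hz => ?_, hQ.subset ?_⟩
    · rw [h2]
      have h3 := h1 j z hz
      rw [not_not] at h3
      exact mem_P0_of_BN o hQ hsecw ⟨_, rfl⟩ h3
    · rintro k ⟨j, z, -, rfl⟩
      exact ⟨_, h2 j z⟩

/-- The class contains every group generated by tree automorphisms each of which is bounded or
a finite automaton of linear activity growth. -/
theorem ClosedClass.automata {C : ∀ (G : Type) [Group G], Prop} (hC : ClosedClass C) [Finite X]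
    (s : Set (Equiv.Perm (List X)))
    (hs : ∀ g ∈ s, IsTreeAut g ∧ (IsBounded g ∨ IsAutomaton g ∧ HasLinearActivity g)) :
    C (Subgroup.closure s) := by
  classical
  by_cases hX : Nonempty X
  · obtain ⟨o⟩ := hX
    have hle : Subgroup.closure s ≤ (P1 o).map (TreeAut X).subtype := by
      rw [Subgroup.closure_le]
      intro g hg
      refine ⟨⟨g, (hs g hg).1⟩, ?_, rfl⟩
      rcases (hs g hg).2 with h | ⟨h, h'⟩
      · exact P0_le_P1 o (IsBounded.mem_range o h)
      · exact mem_P1_of_linear o h h'
    refine hC.sub hle (hC.iso _ _ (Subgroup.equivMapOfInjective _ _ ?_) (hC.range1 o))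
    exact Subtype.val_injective
  · have hle : Subgroup.closure s ≤ TreeAut X := by
      rw [Subgroup.closure_le]
      exact fun g hg => (hs g hg).1
    refine hC.finite _ ?_
    have : Subsingleton (Subgroup.closure s) := by
      refine ⟨fun a b => Subtype.ext (Equiv.ext fun w => ?_)⟩
      have hw : w = [] := by
        cases w with
        | nil => rfl
        | cons x _ => exact absurd ⟨x⟩ hX
      have h1 := (hle a.2).1 w
      have h2 := (hle b.2).1 w
      rw [hw] at h1 h2 ⊢
      rw [List.length_nil, List.length_eq_zero_iff] at h1 h2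
      rw [h1, h2]
    exact Finite.of_subsingleton

end Pool.Agent.Helper29.BA
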