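import Pool.Agent.Helper29.BA.Wr

/-!
# The automorphism group of the tree of words
-/

set_option autoImplicit false

namespace Pool.Agent.Helper29.BA

variable {X : Type}

theorem perm_inv_apply {α : Type} (g : Equiv.Perm α) (x : α) : g⁻¹ (g x) = x :=
  g.symm_apply_apply x

theorem perm_apply_inv {α : Type} (g : Equiv.Perm α) (x : α) : g (g⁻¹ x) = x :=
  g.apply_symm_apply x

theorem IsTreeAut.inv {g : Equiv.Perm (List X)} (hg : IsTreeAut g) : IsTreeAut g⁻¹ := by
  have hl : ∀ v, (g⁻¹ v).length = v.length := fun v => by
    have := hg.1 (g⁻¹ v)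
    rw [perm_apply_inv] at this
    exact this.symm
  refine ⟨hl, fun v w => ?_⟩
  -- `u = g⁻¹ (v ++ w)` and its prefix of length `|v|`
  have h1 := hg.2 ((g⁻¹ (v ++ w)).take v.length) ((g⁻¹ (v ++ w)).drop v.length)
  rw [List.take_append_drop, perm_apply_inv] at h1
  have h2 : (g ((g⁻¹ (v ++ w)).take v.length)).length = v.length := by
    rw [hg.1, List.length_take, hl, List.length_append]
    omega
  have h3 : g ((g⁻¹ (v ++ w)).take v.length) = v := by
    have := List.prefix_iff_eq_take.mp h1
    rw [h2, List.take_left'] at this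
    · exact this
    · rfl
  have h4 : g⁻¹ v = (g⁻¹ (v ++ w)).take v.length := by
    rw [Equiv.Perm.inv_eq_iff_eq]
    exact h3.symm
  rw [h4]
  exact List.take_prefix _ _

theorem IsTreeAut.mul {g h : Equiv.Perm (List X)} (hg : IsTreeAut g) (hh : IsTreeAut h) :
    IsTreeAut (g * h) := by
  refine ⟨fun v => ?_, fun v w => ?_⟩
  · rw [Equiv.Perm.mul_apply, hg.1, hh.1]
  · obtain ⟨u, hu⟩ := hh.2 v w
    rw [Equiv.Perm.mul_apply, Equiv.Perm.mul_apply, ← hu]
    exact hg.2 _ _

variable (X) in
/-- The group of the automorphisms of the tree. -/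
def TreeAut : Subgroup (Equiv.Perm (List X)) where
  carrier := {g | IsTreeAut g}
  mul_mem' := IsTreeAut.mul
  one_mem' := ⟨fun _ => rfl, fun v w => List.prefix_append v w⟩
  inv_mem' := IsTreeAut.inv

namespace TreeAut

/-- The action on the first letter. -/
def rt (g : TreeAut X) (x : X) : X := (g.1 [x]).headD x

theorem apply_nil (g : TreeAut X) : g.1 [] = [] := by
  have := g.2.1 []
  simpa using this

theorem apply_singleton (g : TreeAut X) (x : X) : g.1 [x] = [rt g x] := by
  have h := g.2.1 [x]
  obtain ⟨y, hy⟩ := List.length_eq_one_iff.mp h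
  rw [rt, hy]
  rfl

theorem apply_cons (g : TreeAut X) (x : X) (w : List X) :
    g.1 (x :: w) = rt g x :: (g.1 (x :: w)).tail := by
  obtain ⟨t, ht⟩ := g.2.2 [x] w
  rw [apply_singleton] at ht
  have : g.1 (x :: w) = rt g x :: t := ht.symm
  rw [this]
  rfl

theorem rt_mul (g h : TreeAut X) (x : X) : rt (g * h) x = rt g (rt h x) := by
  have h1 : (g * h).1 [x] = g.1 (h.1 [x]) := rfl
  rw [apply_singleton, apply_singleton, apply_singleton] at h1
  simpa using h1

theorem rt_one (x : X) : rt (1 : TreeAut X) x = x := rfl

/-- The section at a letter. -/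
def sec (g : TreeAut X) (x : X) : TreeAut X :=
  ⟨{ toFun := fun w => (g.1 (x :: w)).tail
     invFun := fun w => ((g⁻¹).1 (rt g x :: w)).tail
     left_inv := fun w => by
       have h1 : rt g x :: (g.1 (x :: w)).tail = g.1 (x :: w) := (apply_cons g x w).symm
       change ((g⁻¹).1 (rt g x :: (g.1 (x :: w)).tail)).tail = w
       rw [h1]
       change ((g.1)⁻¹ (g.1 (x :: w))).tail = w
       rw [perm_inv_apply]
       rfl
     right_inv := fun w => by
       have h0 : rt g⁻¹ (rt g x) = x := by
         rw [← rt_mul, inv_mul_cancel, rt_one]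
       have h1 : x :: ((g⁻¹).1 (rt g x :: w)).tail = (g⁻¹).1 (rt g x :: w) := by
         have := (apply_cons g⁻¹ (rt g x) w).symm
         rwa [h0] at this
       change (g.1 (x :: ((g⁻¹).1 (rt g x :: w)).tail)).tail = w
       rw [h1]
       change (g.1 ((g.1)⁻¹ (rt g x :: w))).tail = w
       rw [perm_apply_inv]
       rfl },
   ⟨fun v => by
      have := g.2.1 (x :: v)
      change ((g.1 (x :: v)).tail).length = v.length
      rw [List.length_tail, this]
      rfl,
    fun v w => by
      have := g.2.2 (x :: v) w
      change (g.1 (x :: v)).tail <+: (g.1 (x :: (v ++ w))).tail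
      rw [List.cons_append, apply_cons g x v, apply_cons g x (v ++ w)] at this
      exact (List.cons_prefix_cons.mp this).2⟩⟩

theorem apply_cons' (g : TreeAut X) (x : X) (w : List X) :
    g.1 (x :: w) = rt g x :: (sec g x).1 w := apply_cons g x w

theorem ext_cons {g h : TreeAut X} (h1 : ∀ x w, g.1 (x :: w) = h.1 (x :: w)) : g = h := by
  apply Subtype.ext
  ext1 w
  cases w with
  | nil => rw [apply_nil, apply_nil]
  | cons x w => exact h1 x w

theorem sec_mul (g h : TreeAut X) (x : X) : sec (g * h) x = sec g (rt h x) * sec h x := by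
  apply Subtype.ext
  ext1 w
  have h1 : (g * h).1 (x :: w) = g.1 (h.1 (x :: w)) := rfl
  rw [apply_cons', apply_cons' h, apply_cons'] at h1
  have := (List.cons.inj h1).2
  exact this

theorem sec_one (x : X) : sec (1 : TreeAut X) x = 1 := by
  apply Subtype.ext
  ext1 w
  rfl

/-- The action on the first letter, as a permutation. -/
def root (g : TreeAut X) : Equiv.Perm X where
  toFun := rt g
  invFun := rt g⁻¹
  left_inv x := by rw [← rt_mul, inv_mul_cancel, rt_one]
  right_inv x := by rw [← rt_mul, mul_inv_cancel, rt_one]

@[simp] theorem root_apply (g : TreeAut X) (x : X) : root g x = rt g x := rfl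

variable (X) in
/-- The wreath recursion. -/
def wr : TreeAut X →* Wr X (TreeAut X) where
  toFun g := ⟨root g, sec g⟩
  map_one' := by
    refine Wr.ext ?_ (funext fun x => ?_)
    · rfl
    · exact sec_one x
  map_mul' g h := by
    refine Wr.ext (Equiv.ext fun x => ?_) (funext fun x => ?_)
    · exact rt_mul g h x
    · exact sec_mul g h x

@[simp] theorem wr_p (g : TreeAut X) : (wr X g).p = root g := rfl
@[simp] theorem wr_s (g : TreeAut X) (x : X) : (wr X g).s x = sec g x := rfl

theorem ext_wr {g h : TreeAut X} (h1 : ∀ x, rt g x = rt h x) (h2 : ∀ x, sec g x = sec h x) :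
    g = h := ext_cons fun x w => by rw [apply_cons', apply_cons', h1, h2]

/-- The automorphism with prescribed root permutation and sections. -/
def mk (σ : Equiv.Perm X) (f : X → TreeAut X) : TreeAut X :=
  ⟨{ toFun := fun w => match w with
      | [] => []
      | x :: w => σ x :: (f x).1 w
     invFun := fun w => match w with
      | [] => []
      | y :: w => σ⁻¹ y :: ((f (σ⁻¹ y))⁻¹).1 w
     left_inv := fun w => by
       cases w with
       | nil => rfl
       | cons x w =>
         change σ⁻¹ (σ x) :: ((f (σ⁻¹ (σ x)))⁻¹).1 ((f x).1 w) = x :: w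
         rw [perm_inv_apply]
         change x :: ((f x).1)⁻¹ ((f x).1 w) = x :: w
         rw [perm_inv_apply]
     right_inv := fun w => by
       cases w with
       | nil => rfl
       | cons y w =>
         change σ (σ⁻¹ y) :: (f (σ⁻¹ y)).1 (((f (σ⁻¹ y)).1)⁻¹ w) = y :: w
         rw [perm_apply_inv, perm_apply_inv] },
   ⟨fun v => by
      cases v with
      | nil => rfl
      | cons x v =>
        change (σ x :: (f x).1 v).length = (x :: v).length
        rw [List.length_cons, List.length_cons, (f x).2.1],
    fun v w => by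
      cases v with
      | nil => exact List.nil_prefix
      | cons x v =>
        change (σ x :: (f x).1 v) <+: (σ x :: (f x).1 (v ++ w))
        exact List.cons_prefix_cons.mpr ⟨rfl, (f x).2.2 v w⟩⟩⟩

theorem mk_cons (σ : Equiv.Perm X) (f : X → TreeAut X) (x : X) (w : List X) :
    (mk σ f).1 (x :: w) = σ x :: (f x).1 w := rfl

@[simp] theorem rt_mk (σ : Equiv.Perm X) (f : X → TreeAut X) (x : X) : rt (mk σ f) x = σ x := by
  have h := apply_cons' (mk σ f) x []
  rw [mk_cons] at h
  exact (List.cons.inj h).1.symm

@[simp] theorem sec_mk (σ : Equiv.Perm X) (f : X → TreeAut X) (x : X) : sec (mk σ f) x = f x := by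
  apply Subtype.ext
  ext1 w
  have h := apply_cons' (mk σ f) x w
  rw [mk_cons] at h
  exact (List.cons.inj h).2.symm

/-- Sections at words. -/
def secw (g : TreeAut X) : List X → TreeAut X
  | [] => g
  | x :: v => secw (sec g x) v

@[simp] theorem secw_nil (g : TreeAut X) : secw g [] = g := rfl
@[simp] theorem secw_cons (g : TreeAut X) (x : X) (v : List X) :
    secw g (x :: v) = secw (sec g x) v := rfl

theorem secw_append (g : TreeAut X) (v u : List X) : secw g (v ++ u) = secw (secw g v) u := by
  induction v generalizing g with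
  | nil => rfl
  | cons x v ih => exact ih _

theorem apply_append (g : TreeAut X) (v w : List X) : g.1 (v ++ w) = g.1 v ++ (secw g v).1 w := by
  induction v generalizing g with
  | nil => rw [apply_nil]; rfl
  | cons x v ih =>
    rw [List.cons_append, apply_cons', ih, apply_cons']
    rfl

theorem secw_mul (g h : TreeAut X) (v : List X) :
    secw (g * h) v = secw g (h.1 v) * secw h v := by
  induction v generalizing g h with
  | nil => rw [apply_nil]; rfl
  | cons x v ih => rw [secw_cons, sec_mul, ih, apply_cons']; rfl

theorem secw_one (v : List X) : secw (1 : TreeAut X) v = 1 := by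
  induction v with
  | nil => rfl
  | cons x v ih => rw [secw_cons, sec_one, ih]

/-! ### Finite depth -/

/-- Depth at most `m`. -/
def Dep : ℕ → TreeAut X → Prop
  | 0, g => g = 1
  | m + 1, g => ∀ x, Dep m (sec g x)

theorem dep_one (m : ℕ) : Dep m (1 : TreeAut X) := by
  induction m with
  | zero => rfl
  | succ m ih => intro x; rw [sec_one]; exact ih

theorem Dep.succ {m : ℕ} {g : TreeAut X} (h : Dep m g) : Dep (m + 1) g := by
  induction m generalizing g with
  | zero =>
    intro x
    have h' : g = 1 := h
    rw [h', sec_one]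
    rfl
  | succ m ih => exact fun x => ih (h x)

theorem Dep.mono {m n : ℕ} (hmn : m ≤ n) {g : TreeAut X} (h : Dep m g) : Dep n g := by
  induction hmn with
  | refl => exact h
  | step _ ih => exact ih.succ

theorem Dep.mul {m : ℕ} {g h : TreeAut X} (hg : Dep m g) (hh : Dep m h) : Dep m (g * h) := by
  induction m generalizing g h with
  | zero =>
    have hg' : g = 1 := hg
    have hh' : h = 1 := hh
    rw [hg', hh']
    exact mul_one 1
  | succ m ih => intro x; rw [sec_mul]; exact ih (hg _) (hh _)

theorem sec_inv (g : TreeAut X) (x : X) : sec g⁻¹ x = (sec g (rt g⁻¹ x))⁻¹ := by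
  have h := sec_mul g g⁻¹ x
  rw [mul_inv_cancel, sec_one] at h
  exact (inv_eq_of_mul_eq_one_right h.symm).symm

theorem Dep.inv {m : ℕ} {g : TreeAut X} (hg : Dep m g) : Dep m g⁻¹ := by
  induction m generalizing g with
  | zero =>
    have hg' : g = 1 := hg
    rw [hg']
    exact inv_one
  | succ m ih => intro x; rw [sec_inv]; exact ih (hg _)

theorem Dep.sec {m : ℕ} {g : TreeAut X} (hg : Dep m g) (x : X) : Dep m (sec g x) :=
  (hg.succ : Dep (m + 1) g) x

theorem Dep.secw {m : ℕ} {g : TreeAut X} (hg : Dep m g) (v : List X) : Dep m (secw g v) := by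
  induction v generalizing g with
  | nil => exact hg
  | cons x v ih => exact ih (hg.sec x)

/-- Sections of elements of depth `m` at words of length at least `m` are trivial. -/
theorem Dep.secw_eq_one {m : ℕ} {g : TreeAut X} (hg : Dep m g) {v : List X} (hv : m ≤ v.length) :
    TreeAut.secw g v = 1 := by
  induction v generalizing g m with
  | nil =>
    have : m = 0 := by simpa using hv
    subst this
    exact hg
  | cons x v ih =>
    rw [secw_cons]
    cases m with
    | zero =>
      have hg' : g = 1 := hg
      rw [hg', sec_one, secw_one]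
    | succ m => exact ih (hg x) (by simpa using hv)

/-- The characterization used in the statement. -/
theorem hasDepth_iff {g : TreeAut X} {m : ℕ} {v : List X} :
    HasDepth g.1 m v ↔ Dep m (secw g v) := by
  constructor
  · intro h
    have h1 : ∀ u, u.length = m → secw (secw g v) u = 1 := by
      intro u hu
      rw [← secw_append]
      apply Subtype.ext
      ext1 w
      have := h u w hu
      rw [apply_append, apply_append g v u] at this
      have h2 := apply_append g (v ++ u) w
      rw [h u w hu] at h2
      exact (List.append_cancel_left h2).symm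
    revert h1
    generalize secw g v = k
    intro h1
    clear h
    induction m generalizing k with
    | zero => exact h1 [] rfl
    | succ m ih =>
      intro x
      exact ih _ fun u hu => h1 (x :: u) (by simp [hu])
  · intro h u w hu
    rw [apply_append, secw_append, h.secw_eq_one hu.ge]
    rfl

/-- The subgroup of the elements of depth at most `m`. -/
def depG (X : Type) (m : ℕ) : Subgroup (TreeAut X) where
  carrier := {g | Dep m g}
  mul_mem' := Dep.mul
  one_mem' := dep_one m
  inv_mem' := Dep.inv

instance finite_depG [Finite X] (m : ℕ) : Finite (depG X m) := by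
  induction m with
  | zero =>
    have : Subsingleton (depG X 0) := ⟨fun a b => Subtype.ext
      ((show a.1 = 1 from a.2).trans (show b.1 = 1 from b.2).symm)⟩
    exact Finite.of_subsingleton
  | succ m ih =>
    refine Finite.of_injective
      (fun g : depG X (m + 1) => ((root g.1, fun x => ⟨sec g.1 x, g.2 x⟩) :
        Equiv.Perm X × (X → depG X m))) ?_
    intro a b hab
    apply Subtype.ext
    have h1 := (Prod.ext_iff.mp hab).1
    have h2 := (Prod.ext_iff.mp hab).2
    refine ext_wr (fun x => ?_) (fun x => ?_)
    · exact DFunLike.congr_fun h1 x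
    · exact congrArg Subtype.val (congrFun h2 x)

/-- The subgroup of the elements of finite depth. -/
def finG (X : Type) : Subgroup (TreeAut X) where
  carrier := {g | ∃ m, Dep m g}
  mul_mem' := fun ⟨m, hm⟩ ⟨n, hn⟩ =>
    ⟨max m n, (hm.mono (le_max_left _ _)).mul (hn.mono (le_max_right _ _))⟩
  one_mem' := ⟨0, dep_one 0⟩
  inv_mem' := fun ⟨m, hm⟩ => ⟨m, hm.inv⟩

end TreeAut

end Pool.Agent.Helper29.BA
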